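import Pool.Agent.Lib.MP_4d044e_co.TW.CONS

/-! Clusters of the type 2 vertices: exact cliques, pairwise at most one common vertex. -/

set_option autoImplicit false
set_option linter.unusedSectionVars false

namespace Pool.Agent.Lib.MP_4d044e_co.TW

open Finset
open scoped Classical

variable {V : Type} [Fintype V] [DecidableEq V]

section clu
variable {G : SimpleGraph V} {w : V → ℝ} {w0 β η : ℝ} {C0 : ℕ} (h : NG G w w0 β η C0)
  {Gd : Finset V} {H : V → Bool → Finset V} (hH : ∀ v ∈ Gd, Spl G w (1 / 1000) v (H v))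
  {z z' x : V} (hz : T2 G w Gd (1 / 10 ^ 39) z) (hz' : T2 G w Gd (1 / 10 ^ 39) z')

/-- overlap from small difference -/
theorem overlap_of_sdiff {X Y : Finset V} {a b : ℝ} (hX : a ≤ nu w X) (hXY : nu w (X \ Y) ≤ b) :
    a - b ≤ nu w (X ∩ Y) := by
  have := nu_inter_add_sdiff (w := w) X Y
  linarith

include h hH

/-- zero-one law -/
theorem clu_zo (hz : T2 G w Gd (1 / 10 ^ 39) z) {a i : Bool} (hx : x ∈ Gd)
    (ho : 5 / 1000 ≤ nu w (H x a ∩ H z i)) :
    nu w (H x a \ H z i) ≤ 10 / 1000 ∧ nu w (H z i \ H x a) ≤ 10 / 1000 := by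
  have hnn := h.wnn
  have hsx := hH x hx
  have hsz := hH z hz.1
  -- a good vertex in the intersection
  have h1 : ∃ x' ∈ H x a ∩ H z i, x' ∈ Gd := by
    by_contra hcon
    push Not at hcon
    have h2 : H x a ∩ H z i ⊆ cn G z \ Gd := by
      intro v hv
      rw [mem_sdiff]
      exact ⟨hsz.sub i (mem_inter.mp hv).2, hcon v hv⟩
    have h3 := nu_mono hnn h2
    have h4 := hz.2
    norm_num at *
    linarith
  obtain ⟨x', hx', hxG⟩ := h1
  rw [mem_inter] at hx'
  have hs' := hH x' hxG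
  obtain ⟨b, hb1, hb2, hb3⟩ := cons h hs' (hsx.nc a) (hsx.inn a x' hx'.1)
  obtain ⟨b', hb1', hb2', hb3'⟩ := cons h hs' (hsz.nc i) (hsz.inn i x' hx'.2)
  have hbb : b = b' := by
    by_contra hne
    have hb' : (!b) = b' := by
      cases b <;> cases b' <;> simp_all
    rw [hb'] at hb1
    have h2 : H x a ∩ H z i ⊆ H z i \ H x' b' := by
      intro v hv
      rw [mem_inter] at hv
      rw [mem_sdiff]
      refine ⟨hv.2, fun hv' => ?_⟩
      have : v ∈ H x a ∩ H x' b' := mem_inter.mpr ⟨hv.1, hv'⟩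
      rw [hb1] at this
      simp at this
    have h3 := nu_mono hnn h2
    linarith
  subst hbb
  constructor
  · have := nu_sdiff_le hnn (H x a) (H x' b) (H z i)
    linarith
  · have := nu_sdiff_le hnn (H z i) (H x' b) (H x a)
    linarith

theorem clu_zo4 (hz : T2 G w Gd (1 / 10 ^ 39) z) {a i : Bool} (hx : x ∈ Gd)
    (ho : 1 / 4 ≤ nu w (H x a ∩ H z i)) :
    nu w (H x a \ H z i) ≤ 10 / 1000 ∧ nu w (H z i \ H x a) ≤ 10 / 1000 :=
  clu_zo h hH hz hx (by linarith)

theorem clu_dbl {x x' : V} {a a' : Bool} (hx : x ∈ Gd) (hx' : x' ∈ Gd) (hadj : G.Adj x x')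
    (h1 : nu w (H x' a' \ H x a) ≤ 20 / 1000) (h2 : nu w (H x' (!a') \ H x (!a)) ≤ 20 / 1000) :
    False := by
  have hnn := h.wnn
  have hs := hH x hx
  have hs' := hH x' hx'
  have hη := h.hη
  have hη0 : η ≤ 1 / 10 ^ 6 := by rw [hη]; norm_num
  have hη1 : 0 ≤ η := by rw [hη]; norm_num
  have hβ := h.β_small
  set J := cn G x \ (H x true ∪ H x false) with hJ
  set J' := cn G x' \ (H x' true ∪ H x' false) with hJ'
  have hJn := spl_rest h hs
  have hJn' := spl_rest h hs'
  set X : Finset V := (H x a ∪ (H x' a' \ H x a)) ∪ ((J ∪ J') ∪ ({x} ∪ {x'})) with hX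
  have hXn : nu w X ≤ 528 / 1000 := by
    have e1 := nu_union_le hnn (H x a ∪ (H x' a' \ H x a)) ((J ∪ J') ∪ ({x} ∪ {x'}))
    have e2 := nu_union_le hnn (H x a) (H x' a' \ H x a)
    have e3 := nu_union_le hnn (J ∪ J') ({x} ∪ {x'})
    have e4 := nu_union_le hnn J J'
    have e5 := nu_union_le hnn ({x} : Finset V) {x'}
    rw [nu_singleton, nu_singleton] at e5
    have e6 := h.whi x
    have e7 := h.whi x'
    have e8 := hs.hi a
    linarith
  have hX0 := nu_nonneg hnn X
  have hcov : (nbr G x ∪ nbr G x') \ X ⊆ H x (!a) ∪ (H x' (!a') \ H x (!a)) := by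
    intro v hv
    rw [mem_sdiff, mem_union] at hv
    obtain ⟨hv1, hv2⟩ := hv
    have hn1 : v ∉ H x a := fun hc => hv2 (by rw [hX]; simp [hc])
    have hn2 : v ∉ H x' a' := fun hc => hv2 (by rw [hX]; simp [hc, hn1])
    have hn3 : v ∉ J := fun hc => hv2 (by rw [hX]; simp only [mem_union]; tauto)
    have hn4 : v ∉ J' := fun hc => hv2 (by rw [hX]; simp only [mem_union]; tauto)
    rw [mem_union, mem_sdiff]
    rcases hv1 with hv1 | hv1
    · left
      have hm := nbr_subset_cn G x hv1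
      rw [hJ, mem_sdiff, mem_union] at hn3
      cases a <;> simp only [Bool.not_true, Bool.not_false] <;> tauto
    · have hm := nbr_subset_cn G x' hv1
      rw [hJ', mem_sdiff, mem_union] at hn4
      by_cases hc : v ∈ H x (!a)
      · exact Or.inl hc
      · right
        refine ⟨?_, hc⟩
        cases a' <;> simp only [Bool.not_true, Bool.not_false] <;> tauto
  have hng := h.ng3b x x' X (by rw [hX]; simp) (by rw [hX]; simp) hadj
  have hm1 := miss_mono (G := G) hnn hcov
  have hm2 := miss_union_le (G := G) hnn (H x (!a)) (H x' (!a') \ H x (!a))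
  have hm3 := miss_le_of_inn (G := G) hnn (H x (!a)) (1 / 1000) (hs.inn (!a))
  have hA := hs.hi (!a)
  have hA0 := nu_nonneg hnn (H x (!a))
  have hD0 := nu_nonneg hnn (H x' (!a') \ H x (!a))
  have hU := nu_union_le hnn (H x (!a)) (H x' (!a') \ H x (!a))
  have hU0 := nu_nonneg hnn (H x (!a) ∪ (H x' (!a') \ H x (!a)))
  have hprod : nu w (H x' (!a') \ H x (!a)) * nu w (H x (!a) ∪ (H x' (!a') \ H x (!a)))
      ≤ 20 / 1000 * (521 / 1000) := by
    apply mul_le_mul h2 (by linarith) hU0 (by norm_num)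
  have he := ee_le_nu_mul_nu (G := G) hnn X X
  have he2 : nu w X * nu w X ≤ 528 / 1000 * (528 / 1000) :=
    mul_le_mul hXn hXn hX0 (by norm_num)
  have hmA : nu w (H x (!a)) * (1 / 1000) ≤ 501 / 1000 * (1 / 1000) := by
    apply mul_le_mul_of_nonneg_right _ (by norm_num)
    linarith
  have hηX : 3 * η * nu w X ≤ 3 * (1 / 10 ^ 6) * 1 := by
    apply mul_le_mul _ (by linarith) hX0 (by norm_num)
    linarith
  norm_num at *
  linarith

theorem clu_self (hz : T2 G w Gd (1 / 10 ^ 39) z) (i : Bool) : z ∈ Mc w H Gd z i := by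
  rw [Mc, mem_filter]
  refine ⟨hz.1, i, ?_⟩
  rw [inter_self]
  have := (hH z hz.1).lo i
  linarith

theorem clu_adj (hz : T2 G w Gd (1 / 10 ^ 39) z) (i : Bool) {u v : V}
    (hu : u ∈ Mc w H Gd z i) (hv : v ∈ Mc w H Gd z i)
    (huv : u ≠ v) : G.Adj u v := by
  by_contra hna
  have hnn := h.wnn
  rw [Mc, mem_filter] at hu hv
  obtain ⟨huG, a, ha⟩ := hu
  obtain ⟨hvG, b, hb⟩ := hv
  have zu := (clu_zo4 h hH hz huG ha).1
  have zv := (clu_zo4 h hH hz hvG hb).1
  have hsu := hH u huG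
  have hsv := hH v hvG
  have hη := h.hη
  have hη0 : η ≤ 1 / 10 ^ 6 := by rw [hη]; norm_num
  have hη1 : 0 ≤ η := by rw [hη]; norm_num
  have hβ := h.β_small
  set J := cn G u \ (H u true ∪ H u false) with hJ
  set J' := cn G v \ (H v true ∪ H v false) with hJ'
  have hJn := spl_rest h hsu
  have hJn' := spl_rest h hsv
  set X : Finset V := (H u a ∪ H v b) ∪ ((J ∪ J') ∪ ({u} ∪ {v})) with hX
  have hab : nu w (H u a ∪ H v b) ≤ 521 / 1000 := by
    have e0 : H u a ∪ H v b ⊆ H z i ∪ ((H u a \ H z i) ∪ (H v b \ H z i)) := by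
      intro t ht
      simp only [mem_union, mem_sdiff] at *
      tauto
    have e1 := nu_le_of_subset_union hnn e0
    have e2 := nu_union_le hnn (H u a \ H z i) (H v b \ H z i)
    have e3 := (hH z hz.1).hi i
    linarith
  have hXn : nu w X ≤ 528 / 1000 := by
    have e1 := nu_union_le hnn (H u a ∪ H v b) ((J ∪ J') ∪ ({u} ∪ {v}))
    have e3 := nu_union_le hnn (J ∪ J') ({u} ∪ {v})
    have e4 := nu_union_le hnn J J'
    have e5 := nu_union_le hnn ({u} : Finset V) {v}
    rw [nu_singleton, nu_singleton] at e5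
    have e6 := h.whi u
    have e7 := h.whi v
    linarith
  have hX0 := nu_nonneg hnn X
  have hcu : nbr G u \ X ⊆ H u (!a) := by
    intro t ht
    rw [mem_sdiff] at ht
    obtain ⟨ht1, ht2⟩ := ht
    have hn1 : t ∉ H u a := fun hc => ht2 (by rw [hX]; simp [hc])
    have hn3 : t ∉ J := fun hc => ht2 (by rw [hX]; simp only [mem_union]; tauto)
    have hm := nbr_subset_cn G u ht1
    rw [hJ, mem_sdiff, mem_union] at hn3
    cases a <;> simp only [Bool.not_true, Bool.not_false] <;> tauto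
  have hcv : nbr G v \ X ⊆ H v (!b) := by
    intro t ht
    rw [mem_sdiff] at ht
    obtain ⟨ht1, ht2⟩ := ht
    have hn1 : t ∉ H v b := fun hc => ht2 (by rw [hX]; simp [hc])
    have hn3 : t ∉ J' := fun hc => ht2 (by rw [hX]; simp only [mem_union]; tauto)
    have hm := nbr_subset_cn G v ht1
    rw [hJ', mem_sdiff, mem_union] at hn3
    cases b <;> simp only [Bool.not_true, Bool.not_false] <;> tauto
  have hng := h.ng3a u v X (by rw [hX]; simp) (by rw [hX]; simp) huv hna
  have hm1 := miss_mono (G := G) hnn hcu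
  have hm2 := miss_mono (G := G) hnn hcv
  have hm3 := miss_le_of_inn (G := G) hnn (H u (!a)) (1 / 1000) (hsu.inn (!a))
  have hm4 := miss_le_of_inn (G := G) hnn (H v (!b)) (1 / 1000) (hsv.inn (!b))
  have hA := hsu.hi (!a)
  have hB := hsv.hi (!b)
  have he := ee_le_nu_mul_nu (G := G) hnn X X
  have he2 : nu w X * nu w X ≤ 528 / 1000 * (528 / 1000) :=
    mul_le_mul hXn hXn hX0 (by norm_num)
  have hmA : nu w (H u (!a)) * (1 / 1000) ≤ 501 / 1000 * (1 / 1000) := by
    apply mul_le_mul_of_nonneg_right _ (by norm_num)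
    linarith
  have hmB : nu w (H v (!b)) * (1 / 1000) ≤ 501 / 1000 * (1 / 1000) := by
    apply mul_le_mul_of_nonneg_right _ (by norm_num)
    linarith
  have hηX : 3 * η * nu w X ≤ 3 * (1 / 10 ^ 6) * 1 := by
    apply mul_le_mul _ (by linarith) hX0 (by norm_num)
    linarith
  norm_num at *
  linarith

theorem clu_sub (hz : T2 G w Gd (1 / 10 ^ 39) z) (i : Bool) : Mc w H Gd z i ⊆ cn G z := by
  intro x hx
  rw [mem_cn]
  by_cases hxz : x = z
  · exact Or.inl hxz
  · exact Or.inr (clu_adj h hH hz i (clu_self h hH hz i) hx (Ne.symm hxz))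

theorem clu_half (hz : T2 G w Gd (1 / 10 ^ 39) z) (i : Bool) :
    H z i ∩ Gd ⊆ Mc w H Gd z i := by
  intro x hx
  rw [mem_inter] at hx
  have hsz := hH z hz.1
  obtain ⟨a, _, ha, _⟩ := cons h (hH x hx.2) (hsz.nc i) (hsz.inn i x hx.1)
  rw [Mc, mem_filter]
  refine ⟨hx.2, a, ?_⟩
  have h1 := overlap_of_sdiff (hsz.lo i) ha
  rw [inter_comm] at h1
  linarith

theorem clu_inter (hz : T2 G w Gd (1 / 10 ^ 39) z) :
    Mc w H Gd z true ∩ Mc w H Gd z false = {z} := by
  have hnn := h.wnn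
  ext x
  rw [mem_inter, mem_singleton]
  constructor
  · rintro ⟨h1, h2⟩
    by_contra hxz
    have hadj := clu_adj h hH hz true h1 (clu_self h hH hz true) hxz
    rw [Mc, mem_filter] at h1 h2
    obtain ⟨hxG, a, ha⟩ := h1
    obtain ⟨_, b, hb⟩ := h2
    have za := clu_zo4 h hH hz hxG ha
    have zb := clu_zo4 h hH hz hxG hb
    have hsz := hH z hz.1
    have hab : b = (!a) := by
      by_contra hne
      have hba : b = a := by cases a <;> cases b <;> simp_all
      rw [hba] at hb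
      have h3 : H x a ∩ H z false ⊆ H x a \ H z true := by
        intro v hv
        rw [mem_inter] at hv
        rw [mem_sdiff]
        exact ⟨hv.1, fun hc => (disjoint_left.mp hsz.disj) hc hv.2⟩
      have h4 := nu_mono hnn h3
      linarith
    rw [hab] at zb
    refine clu_dbl h hH (x := x) (x' := z) (a := a) (a' := true) hxG hz.1 hadj ?_ ?_
    · linarith [za.2]
    · simp only [Bool.not_true]
      linarith [zb.2]
  · rintro rfl
    exact ⟨clu_self h hH hz true, clu_self h hH hz false⟩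

theorem clu_eq_sub (hz : T2 G w Gd (1 / 10 ^ 39) z) (hz' : T2 G w Gd (1 / 10 ^ 39) z')
    {i j a : Bool} (hx : x ∈ Gd) (h1 : 1 / 4 ≤ nu w (H x a ∩ H z i))
    (h2 : 1 / 4 ≤ nu w (H x a ∩ H z' j)) : Mc w H Gd z i ⊆ Mc w H Gd z' j := by
  have hnn := h.wnn
  intro u hu
  rw [Mc, mem_filter] at hu ⊢
  obtain ⟨huG, c, hc⟩ := hu
  refine ⟨huG, c, ?_⟩
  have e1 := (clu_zo4 h hH hz huG hc).1
  have e2 := (clu_zo4 h hH hz hx h1).2
  have e3 := (clu_zo4 h hH hz' hx h2).1
  have e4 := nu_sdiff_le hnn (H u c) (H z i) (H z' j)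
  have e5 := nu_sdiff_le hnn (H z i) (H x a) (H z' j)
  have e6 := overlap_of_sdiff ((hH u huG).lo c) (show nu w (H u c \ H z' j) ≤ 30 / 1000 by linarith)
  linarith

theorem clu_eq (hz : T2 G w Gd (1 / 10 ^ 39) z) (hz' : T2 G w Gd (1 / 10 ^ 39) z')
    {i j a : Bool} (hx : x ∈ Gd) (h1 : 1 / 4 ≤ nu w (H x a ∩ H z i))
    (h2 : 1 / 4 ≤ nu w (H x a ∩ H z' j)) : Mc w H Gd z i = Mc w H Gd z' j :=
  Subset.antisymm (clu_eq_sub h hH hz hz' hx h1 h2) (clu_eq_sub h hH hz' hz hx h2 h1)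

theorem clu_card_inter (hz : T2 G w Gd (1 / 10 ^ 39) z) (hz' : T2 G w Gd (1 / 10 ^ 39) z')
    {i j : Bool} (hne : Mc w H Gd z i ≠ Mc w H Gd z' j) :
    (Mc w H Gd z i ∩ Mc w H Gd z' j).card ≤ 1 := by
  have hnn := h.wnn
  rw [card_le_one]
  intro x hx x' hx'
  by_contra hxx
  rw [mem_inter] at hx hx'
  have hadj := clu_adj h hH hz i hx.1 hx'.1 hxx
  obtain ⟨hx1, hx2⟩ := hx
  obtain ⟨hx1', hx2'⟩ := hx'
  rw [Mc, mem_filter] at hx1 hx2 hx1' hx2'
  obtain ⟨hxG, a, ha⟩ := hx1
  obtain ⟨_, b, hb⟩ := hx2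
  obtain ⟨hxG', a', ha'⟩ := hx1'
  obtain ⟨_, b', hb'⟩ := hx2'
  have hab : b = (!a) := by
    by_contra hc
    have hba : b = a := by cases a <;> cases b <;> simp_all
    rw [hba] at hb
    exact hne (clu_eq h hH hz hz' hxG ha hb)
  have hab' : b' = (!a') := by
    by_contra hc
    have hba : b' = a' := by cases a' <;> cases b' <;> simp_all
    rw [hba] at hb'
    exact hne (clu_eq h hH hz hz' hxG' ha' hb')
  rw [hab] at hb
  rw [hab'] at hb'
  have e1 := (clu_zo4 h hH hz hxG ha).2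
  have e2 := (clu_zo4 h hH hz' hxG hb).2
  have e3 := (clu_zo4 h hH hz hxG' ha').1
  have e4 := (clu_zo4 h hH hz' hxG' hb').1
  refine clu_dbl h hH (x := x) (x' := x') (a := a) (a' := a') hxG hxG' hadj ?_ ?_
  · have := nu_sdiff_le hnn (H x' a') (H z i) (H x a)
    linarith
  · have := nu_sdiff_le hnn (H x' (!a')) (H z' j) (H x (!a))
    linarith

theorem clu_out (hz : T2 G w Gd (1 / 10 ^ 39) z) (i : Bool) :
    nu w (Mc w H Gd z i \ H z i) ≤ 4 / 1000 := by
  have hnn := h.wnn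
  have hr := spl_rest h (hH z hz.1)
  have hβ := h.β_small
  have hsub : Mc w H Gd z i \ H z i ⊆ (cn G z \ (H z true ∪ H z false)) ∪ {z} := by
    intro x hx
    rw [mem_sdiff] at hx
    rw [mem_union, mem_singleton, mem_sdiff, mem_union]
    by_cases hxz : x = z
    · exact Or.inr hxz
    left
    refine ⟨clu_sub h hH hz i hx.1, ?_⟩
    intro hc
    have hxG : x ∈ Gd := by
      have := hx.1
      rw [Mc, mem_filter] at this
      exact this.1
    have hxi : x ∈ H z (!i) := by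
      cases i <;> simp only [Bool.not_true, Bool.not_false] <;> tauto
    have h2 := clu_half h hH hz (!i) (mem_inter.mpr ⟨hxi, hxG⟩)
    have h3 : x ∈ Mc w H Gd z true ∩ Mc w H Gd z false := by
      rw [mem_inter]
      cases i <;> simp only [Bool.not_true, Bool.not_false] at * <;> tauto
    rw [clu_inter h hH hz, mem_singleton] at h3
    exact hxz h3
  have h1 := nu_le_of_subset_union hnn hsub
  rw [nu_singleton] at h1
  have h2 := h.whi z
  norm_num at *
  linarith

theorem clu_contact (hz : T2 G w Gd (1 / 10 ^ 39) z) (i : Bool) (hx : x ∈ Gd)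
    (hxn : x ∉ Mc w H Gd z i) :
    nu w (cn G x ∩ Mc w H Gd z i) ≤ 20 / 1000 := by
  have hnn := h.wnn
  have hsx := hH x hx
  have hsmall : ∀ a, nu w (H x a ∩ H z i) ≤ 5 / 1000 := by
    intro a
    by_contra hcon
    push Not at hcon
    have h1 := (clu_zo h hH hz hx hcon.le).1
    have h2 := overlap_of_sdiff (hsx.lo a) h1
    apply hxn
    rw [Mc, mem_filter]
    exact ⟨hx, a, by linarith⟩
  have hr := spl_rest h hsx
  have hsub : cn G x ∩ Mc w H Gd z i ⊆
      (((H x true ∩ H z i) ∪ (H x false ∩ H z i)) ∪ (cn G x \ (H x true ∪ H x false)))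
        ∪ (Mc w H Gd z i \ H z i) := by
    intro v hv
    simp only [mem_inter, mem_union, mem_sdiff] at *
    tauto
  have e1 := nu_le_of_subset_union hnn hsub
  have e2 := nu_union_le hnn ((H x true ∩ H z i) ∪ (H x false ∩ H z i))
    (cn G x \ (H x true ∪ H x false))
  have e3 := nu_union_le hnn (H x true ∩ H z i) (H x false ∩ H z i)
  have e4 := clu_out h hH hz i
  have e5 := hsmall true
  have e6 := hsmall false
  norm_num at *
  linarith

end clu

end Pool.Agent.Lib.MP_4d044e_co.TW
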