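import Pool.Agent.Lib.MP_4d044e_co.TW.ACCC
import Pool.Agent.Lib.MP_4d044e_co.TW.CLU

/-!
Module ACC (section 7 of the blueprint): the mass of `N[z]` outside the two clusters of a
type 2 vertex `z`.
-/

set_option autoImplicit false

namespace Pool.Agent.Lib.MP_4d044e_co.TW

open Finset
open scoped Classical

variable {V : Type} [Fintype V] [DecidableEq V]

theorem acc {G : SimpleGraph V} {w : V → ℝ} {w0 β η : ℝ} {C0 : ℕ} (h : NG G w w0 β η C0)
    {Gd : Finset V} {H : V → Bool → Finset V} (hH : ∀ v ∈ Gd, Spl G w (1 / 1000) v (H v))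
    {z : V} (hz : T2 G w Gd (1 / 10 ^ 39) z) :
    nu w (cn G z \ (Mc w H Gd z true ∪ Mc w H Gd z false)) ≤ 40 / 10 ^ 39 :=
  acc_core h (hH z hz.1) hz.2 (M := Mc w H Gd z) (clu_self h hH hz)
    (fun i _ hu _ hv huv => clu_adj h hH hz i hu hv huv) (clu_sub h hH hz)
    (clu_half h hH hz) (clu_inter h hH hz) (fun i _ hx hxn => clu_contact h hH hz i hx hxn)

end Pool.Agent.Lib.MP_4d044e_co.TW
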