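import Pool.Agent.Lib.MP_4d044e_co.TW.Defs

/-!
Core of module ACC (section 7 of the blueprint): the mass of `N[z]` outside the two clusters.
-/

set_option autoImplicit false
set_option linter.unusedSectionVars false

namespace Pool.Agent.Lib.MP_4d044e_co.TW

open Finset
open scoped Classical

variable {V : Type} [Fintype V] [DecidableEq V]

theorem acc_nu_mono {w : V → ℝ} (hw : ∀ v, 0 ≤ w v) {X Y : Finset V} (h : X ⊆ Y) :
    nu w X ≤ nu w Y :=
  Finset.sum_le_sum_of_subset_of_nonneg h (fun v _ _ => hw v)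

theorem acc_nu_union {w : V → ℝ} {X Y : Finset V} (h : Disjoint X Y) :
    nu w (X ∪ Y) = nu w X + nu w Y :=
  Finset.sum_union h

theorem acc_nu_nonneg {w : V → ℝ} (hw : ∀ v, 0 ≤ w v) (X : Finset V) : 0 ≤ nu w X :=
  Finset.sum_nonneg (fun v _ => hw v)

theorem acc_ee_union_left {G : SimpleGraph V} {w : V → ℝ} {X X' Y : Finset V}
    (h : Disjoint X X') : ee G w (X ∪ X') Y = ee G w X Y + ee G w X' Y :=
  Finset.sum_union h

theorem acc_ee_union_right {G : SimpleGraph V} {w : V → ℝ} {X Y Y' : Finset V}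
    (h : Disjoint Y Y') : ee G w X (Y ∪ Y') = ee G w X Y + ee G w X Y' := by
  unfold ee
  rw [← Finset.sum_add_distrib]
  exact Finset.sum_congr rfl (fun u _ => Finset.sum_union h)

theorem acc_ee_comm {G : SimpleGraph V} {w : V → ℝ} (X Y : Finset V) :
    ee G w X Y = ee G w Y X := by
  unfold ee
  rw [Finset.sum_comm]
  refine Finset.sum_congr rfl (fun u _ => Finset.sum_congr rfl (fun v _ => ?_))
  simp only [G.adj_comm v u, mul_comm (w v) (w u)]

theorem acc_ee_row {G : SimpleGraph V} {w : V → ℝ} (X Y : Finset V) :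
    ee G w X Y = ∑ u ∈ X, w u * nu w (nbr G u ∩ Y) := by
  unfold ee nu nbr
  refine Finset.sum_congr rfl (fun u _ => ?_)
  rw [Finset.mul_sum, ← Finset.sum_filter]
  refine Finset.sum_congr ?_ (fun v _ => rfl)
  ext v
  simp only [Finset.mem_filter, Finset.mem_inter, Finset.mem_univ, true_and]
  exact and_comm

theorem acc_ee_le {G : SimpleGraph V} {w : V → ℝ} (hw : ∀ v, 0 ≤ w v) (X Y : Finset V)
    (c : ℝ) (hc : ∀ u ∈ X, nu w (nbr G u ∩ Y) ≤ c) : ee G w X Y ≤ c * nu w X := by
  rw [acc_ee_row, nu, Finset.mul_sum]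
  refine Finset.sum_le_sum (fun u hu => ?_)
  rw [mul_comm c]
  exact mul_le_mul_of_nonneg_left (hc u hu) (hw u)

theorem acc_nbr_sub (G : SimpleGraph V) (v : V) : nbr G v ⊆ cn G v := Finset.subset_insert _ _

/-- numeric core -/
theorem acc_num {a b j lam η β e1 e2 : ℝ} (hj0 : 0 ≤ j) (hj : j ≤ 3 / 1000)
    (hlam : lam = 1 / 10 ^ 39) (hη : η = 1 / 10 ^ 39) (hβ : β ≤ 1 / 10 ^ 200)
    (ha : 49 / 100 ≤ a) (hb : 49 / 100 ≤ b)
    (hsum : a + b + j ≤ 1 + 3 * β)
    (he1 : e1 ≤ 2 / 100 * j + 11 / 10 * lam) (he2 : e2 ≤ 2 / 100 * j + 11 / 10 * lam)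
    (h1 : (1 - η) ≤ 4 * (a * a + 2 * e1 + j * j + 3 * η * (11 / 10)))
    (h2 : (1 - η) ≤ 4 * (b * b + 2 * e2 + j * j + 3 * η * (11 / 10))) :
    j ≤ 40 / 10 ^ 39 := by
  have hβ' : β ≤ 1 / 10 ^ 39 := hβ.trans (by norm_num)
  set E : ℝ := 4 / 100 * j + 22 / 10 * lam + j * j + 33 / 10 * η + η / 4 with hE
  have hjj : j * j ≤ 3 / 1000 * j := mul_le_mul_of_nonneg_right hj hj0
  have hE0 : 0 ≤ E := by
    rw [hE, hlam, hη]; positivity
  have key : ∀ x : ℝ, 49 / 100 ≤ x → 1 / 4 - E ≤ x * x → 1 / 2 - x ≤ E * (100 / 99) := by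
    intro x hx hxx
    rcases le_or_gt (1 / 2) x with h | h
    · have : 0 ≤ E * (100 / 99) := by positivity
      linarith
    · have h3 : (1 / 2 - x) * (99 / 100) ≤ (1 / 2 - x) * (1 / 2 + x) :=
        mul_le_mul_of_nonneg_left (by linarith) (by linarith)
      nlinarith
  have hka := key a ha (by rw [hE]; linarith)
  have hkb := key b hb (by rw [hE]; linarith)
  have h4 : j - 3 * β ≤ 2 * (E * (100 / 99)) := by linarith
  have h5 : E ≤ 43 / 1000 * j + 6 / 10 ^ 39 := by
    rw [hE, hlam, hη]; linarith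
  have h6 : j ≤ 2 * ((43 / 1000 * j + 6 / 10 ^ 39) * (100 / 99)) + 3 / 10 ^ 39 := by
    linarith
  linarith

/-- one of the two inequalities: keep `z`, delete `N[z]` except the clique `M' - z` -/
theorem acc_side {G : SimpleGraph V} {w : V → ℝ} {w0 β η : ℝ} {C0 : ℕ} (h : NG G w w0 β η C0)
    {z : V} {M M' J Gd : Finset V} {lam : ℝ} (hw : ∀ v, 0 ≤ w v)
    (hz : z ∈ M) (hMM : M ∩ M' = {z}) (hM : M ⊆ cn G z)
    (hJ : J = cn G z \ (M ∪ M'))
    (hadj : ∀ u ∈ M', ∀ v ∈ M', u ≠ v → G.Adj u v)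
    (hcon : ∀ x ∈ Gd, x ∉ M → nu w (cn G x ∩ M) ≤ 20 / 1000)
    (hT : nu w (cn G z \ Gd) ≤ lam) :
    ∃ e1 : ℝ, e1 ≤ 2 / 100 * nu w J + 11 / 10 * lam ∧
      (1 - η) ≤ 4 * (nu w M * nu w M + 2 * e1 + nu w J * nu w J + 3 * η * (11 / 10)) := by
  refine ⟨ee G w M J, ?_, ?_⟩
  · have hsplit : J = (J ∩ Gd) ∪ (J \ Gd) := by
      ext x; simp only [Finset.mem_union, Finset.mem_inter, Finset.mem_sdiff]; tauto
    have hdis : Disjoint (J ∩ Gd) (J \ Gd) := by
      rw [Finset.disjoint_left]; intro x hx hx'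
      simp only [Finset.mem_inter, Finset.mem_sdiff] at hx hx'; tauto
    have hcomm : ee G w M J = ee G w (J ∩ Gd) M + ee G w (J \ Gd) M := by
      rw [acc_ee_comm, ← acc_ee_union_left hdis, ← hsplit]
    have h1 : ee G w (J ∩ Gd) M ≤ 2 / 100 * nu w (J ∩ Gd) := by
      refine acc_ee_le hw _ _ _ (fun u hu => ?_)
      rw [Finset.mem_inter] at hu
      have huM : u ∉ M := by
        have := hu.1
        rw [hJ, Finset.mem_sdiff, Finset.mem_union] at this
        tauto
      have h2 := hcon u hu.2 huM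
      have h3 : nu w (nbr G u ∩ M) ≤ nu w (cn G u ∩ M) :=
        acc_nu_mono hw (Finset.inter_subset_inter_right (acc_nbr_sub G u))
      linarith
    have hβ' : β ≤ 1 / 100 := h.βsm.trans (by norm_num)
    have h2 : ee G w (J \ Gd) M ≤ 11 / 10 * nu w (J \ Gd) := by
      refine acc_ee_le hw _ _ _ (fun u hu => ?_)
      have h3 : nu w (nbr G u ∩ M) ≤ nu w (cn G u) :=
        acc_nu_mono hw (Finset.inter_subset_left.trans (acc_nbr_sub G u))
      have := h.cls u
      linarith
    have h3 : nu w (J \ Gd) ≤ lam := by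
      refine (acc_nu_mono hw ?_).trans hT
      refine Finset.sdiff_subset_sdiff ?_ (Finset.Subset.refl _)
      rw [hJ]; exact Finset.sdiff_subset
    have h4 : nu w (J ∩ Gd) ≤ nu w J := acc_nu_mono hw Finset.inter_subset_left
    rw [hcomm]
    linarith
  · have hXe : cn G z \ (M' \ {z}) = M ∪ J := by
      ext x
      rw [hJ]
      simp only [Finset.mem_union, Finset.mem_sdiff, Finset.mem_singleton]
      constructor
      · rintro ⟨hx, hx'⟩
        by_cases hxM : x ∈ M
        · exact Or.inl hxM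
        · by_cases hxM' : x ∈ M'
          · exfalso
            apply hx'
            refine ⟨hxM', ?_⟩
            rintro rfl
            exact hxM hz
          · exact Or.inr ⟨hx, by tauto⟩
      · rintro (hx | ⟨hx, hx'⟩)
        · refine ⟨hM hx, ?_⟩
          rintro ⟨h1, h2⟩
          have : x ∈ M ∩ M' := Finset.mem_inter.2 ⟨hx, h1⟩
          rw [hMM, Finset.mem_singleton] at this
          exact h2 this
        · exact ⟨hx, by tauto⟩
    have hzX : z ∈ cn G z \ (M' \ {z}) := by
      rw [hXe]; exact Finset.mem_union_left _ hz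
    have hmain := h.ng2 z _ hzX
    have hmiss : miss G w (nbr G z \ (cn G z \ (M' \ {z}))) = 0 := by
      unfold miss
      refine Finset.sum_eq_zero (fun u hu => Finset.sum_eq_zero (fun v hv => ?_))
      rw [if_neg]
      rintro ⟨huv, hna⟩
      apply hna
      rw [Finset.mem_sdiff, Finset.mem_sdiff] at hu hv
      have hu' : u ∈ M' := by
        by_contra hcon
        exact hu.2 ⟨acc_nbr_sub G z hu.1, fun hh => hcon (Finset.mem_sdiff.1 hh).1⟩
      have hv' : v ∈ M' := by
        by_contra hcon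
        exact hv.2 ⟨acc_nbr_sub G z hv.1, fun hh => hcon (Finset.mem_sdiff.1 hh).1⟩
      exact hadj u hu' v hv' huv
    rw [hmiss, hXe, add_zero] at hmain
    have hdis : Disjoint M J := by
      rw [Finset.disjoint_left, hJ]; intro x hx hx'
      simp only [Finset.mem_sdiff, Finset.mem_union] at hx'; tauto
    have hee : ee G w (M ∪ J) (M ∪ J)
        = ee G w M M + 2 * ee G w M J + ee G w J J := by
      rw [acc_ee_union_left hdis, acc_ee_union_right hdis, acc_ee_union_right hdis,
        acc_ee_comm J M]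
      ring
    have h1 : ee G w M M ≤ nu w M * nu w M :=
      acc_ee_le hw _ _ _ (fun u _ => acc_nu_mono hw Finset.inter_subset_right)
    have h2 : ee G w J J ≤ nu w J * nu w J :=
      acc_ee_le hw _ _ _ (fun u _ => acc_nu_mono hw Finset.inter_subset_right)
    have h3 : nu w (M ∪ J) ≤ 11 / 10 := by
      have h4 : nu w (M ∪ J) ≤ nu w (cn G z) := by
        apply acc_nu_mono hw
        rw [← hXe]; exact Finset.sdiff_subset
      have hβ' : β ≤ 1 / 100 := h.βsm.trans (by norm_num)
      have := h.cls z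
      linarith
    have hη0 : 0 ≤ η := by rw [h.hη]; positivity
    have h5 : 3 * η * nu w (M ∪ J) ≤ 3 * η * (11 / 10) :=
      mul_le_mul_of_nonneg_left h3 (by linarith)
    rw [hee] at hmain
    linarith

theorem acc_core {G : SimpleGraph V} {w : V → ℝ} {w0 β η : ℝ} {C0 : ℕ} (h : NG G w w0 β η C0)
    {Gd : Finset V} {H : Bool → Finset V} {z : V} (hH : Spl G w (1 / 1000) z H)
    (hT : nu w (cn G z \ Gd) ≤ 1 / 10 ^ 39) {M : Bool → Finset V}
    (hself : ∀ i, z ∈ M i) (hadj : ∀ i, ∀ u ∈ M i, ∀ v ∈ M i, u ≠ v → G.Adj u v)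
    (hsub : ∀ i, M i ⊆ cn G z) (hhalf : ∀ i, H i ∩ Gd ⊆ M i)
    (hinter : M true ∩ M false = {z})
    (hcon : ∀ i, ∀ x ∈ Gd, x ∉ M i → nu w (cn G x ∩ M i) ≤ 20 / 1000) :
    nu w (cn G z \ (M true ∪ M false)) ≤ 40 / 10 ^ 39 := by
  have hw : ∀ v, 0 ≤ w v := fun v => le_trans (by have := h.w0pos; positivity) (h.wlo v)
  have hβ0 : 0 ≤ β := h.w0pos.le.trans h.w0β
  have hβ1 : β ≤ 1 / 10 ^ 39 := h.βsm.trans (by norm_num)
  set J : Finset V := cn G z \ (M true ∪ M false) with hJdef
  obtain ⟨e1, he1, h1⟩ := acc_side h hw (hself true) hinter (hsub true) hJdef (hadj false)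
    (hcon true) hT
  have hinter' : M false ∩ M true = {z} := by rw [Finset.inter_comm]; exact hinter
  have hJdef' : J = cn G z \ (M false ∪ M true) := by rw [hJdef, Finset.union_comm]
  obtain ⟨e2, he2, h2⟩ := acc_side h hw (hself false) hinter' (hsub false) hJdef' (hadj true)
    (hcon false) hT
  have hmass : ∀ i, 49 / 100 + 8 / 1000 ≤ nu w (H i ∩ Gd) := by
    intro i
    have h3 : nu w (H i) = nu w (H i ∩ Gd) + nu w (H i \ Gd) := by
      unfold nu
      exact (Finset.sum_inter_add_sum_sdiff (H i) Gd w).symm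
    have h4 : nu w (H i \ Gd) ≤ 1 / 10 ^ 39 :=
      (acc_nu_mono hw (Finset.sdiff_subset_sdiff (hH.sub i) (Finset.Subset.refl _))).trans hT
    have h5 := hH.lo i
    have h6 : (1 : ℝ) / 10 ^ 39 ≤ 1 / 10000 := by norm_num
    linarith
  have hMlo : ∀ i, 49 / 100 ≤ nu w (M i) := by
    intro i
    have := hmass i
    have := acc_nu_mono hw (hhalf i)
    linarith
  -- the total mass
  have hz2 : M true ∪ (M false \ {z}) ⊆ cn G z := by
    apply Finset.union_subset (hsub true)
    exact Finset.sdiff_subset.trans (hsub false)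
  have hd1 : Disjoint (M true) (M false \ {z}) := by
    rw [Finset.disjoint_left]
    intro x hx hx'
    rw [Finset.mem_sdiff, Finset.mem_singleton] at hx'
    have : x ∈ M true ∩ M false := Finset.mem_inter.2 ⟨hx, hx'.1⟩
    rw [hinter, Finset.mem_singleton] at this
    exact hx'.2 this
  have hU : M true ∪ (M false \ {z}) = M true ∪ M false := by
    ext x
    simp only [Finset.mem_union, Finset.mem_sdiff, Finset.mem_singleton]
    constructor
    · tauto
    · rintro (hx | hx)
      · exact Or.inl hx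
      · by_cases hxz : x = z
        · exact Or.inl (hxz ▸ hself true)
        · exact Or.inr ⟨hx, hxz⟩
  have hcn : nu w (cn G z) = nu w (M true) + nu w (M false \ {z}) + nu w J := by
    rw [← acc_nu_union hd1, hU, ← acc_nu_union Finset.disjoint_sdiff]
    congr 1
    rw [Finset.union_sdiff_of_subset]
    rw [← hU]; exact hz2
  have hMz : nu w (M false) = nu w (M false \ {z}) + w z := by
    unfold nu
    rw [Finset.sdiff_singleton_eq_erase, Finset.sum_erase_add _ _ (hself false)]
  have hsum : nu w (M true) + nu w (M false) + nu w J ≤ 1 + 3 * β := by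
    have := h.cls z
    have := h.whi z
    linarith
  have hJ3 : nu w J ≤ 3 / 1000 := by
    have h3 : nu w (H true ∩ Gd) + nu w (H false ∩ Gd) + nu w J ≤ nu w (cn G z) := by
      rw [← acc_nu_union, ← acc_nu_union]
      · apply acc_nu_mono hw
        apply Finset.union_subset
        · apply Finset.union_subset
          · exact Finset.inter_subset_left.trans (hH.sub true)
          · exact Finset.inter_subset_left.trans (hH.sub false)
        · exact Finset.sdiff_subset
      · rw [Finset.disjoint_left]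
        intro x hx hx'
        rw [hJdef, Finset.mem_sdiff, Finset.mem_union] at hx'
        rw [Finset.mem_union] at hx
        rcases hx with hx | hx
        · exact hx'.2 (Or.inl (hhalf true hx))
        · exact hx'.2 (Or.inr (hhalf false hx))
      · exact Finset.disjoint_of_subset_left Finset.inter_subset_left
          (Finset.disjoint_of_subset_right Finset.inter_subset_left hH.disj)
    have h4 : ∀ i, 1 / 2 - 1 / 1000 - 1 / 10 ^ 39 ≤ nu w (H i ∩ Gd) := by
      intro i
      have h3 : nu w (H i) = nu w (H i ∩ Gd) + nu w (H i \ Gd) := by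
        unfold nu
        exact (Finset.sum_inter_add_sum_sdiff (H i) Gd w).symm
      have h4 : nu w (H i \ Gd) ≤ 1 / 10 ^ 39 :=
        (acc_nu_mono hw (Finset.sdiff_subset_sdiff (hH.sub i) (Finset.Subset.refl _))).trans hT
      have h5 := hH.lo i
      linarith
    have h5 := h.cls z
    have h6 := h4 true
    have h7 := h4 false
    have h8 : (1 : ℝ) / 10 ^ 39 ≤ 1 / 10000 := by norm_num
    linarith
  exact acc_num (acc_nu_nonneg hw J) hJ3 rfl h.hη h.βsm (hMlo true) (hMlo false) hsum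
    he1 he2 h1 h2

end Pool.Agent.Lib.MP_4d044e_co.TW
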