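import Mathlib

/-!
Averaging over `k`-subsets by deleting elements one by one.
-/

set_option autoImplicit false

namespace Pool.Agent.Lib.MP_4d044e_co.TW

open Finset
open scoped Classical

section AVG

variable {V : Type*} [DecidableEq V]

/-- sum over ordered pairs of different elements -/
noncomputable def offd (g : V → V → ℝ) (S : Finset V) : ℝ :=
  ∑ x ∈ S, ∑ y ∈ S, if x ≠ y then g x y else 0

theorem sum_erase_lin (f : V → ℝ) (S : Finset V) :
    ∑ x ∈ S, ∑ y ∈ S.erase x, f y = ((S.card : ℝ) - 1) * ∑ y ∈ S, f y := by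
  have h : ∀ x ∈ S, ∑ y ∈ S.erase x, f y = (∑ y ∈ S, f y) - f x := by
    intro x hx
    rw [← Finset.add_sum_erase S f hx]
    ring
  rw [Finset.sum_congr rfl h, Finset.sum_sub_distrib, Finset.sum_const, nsmul_eq_mul]
  ring

theorem offd_erase (g : V → V → ℝ) (S : Finset V) (x : V) (hx : x ∈ S) :
    offd g (S.erase x) = offd g S - (∑ y ∈ S, if x ≠ y then g x y else 0)
      - (∑ y ∈ S, if y ≠ x then g y x else 0) := by
  have h1 : offd g S = (∑ y ∈ S, if x ≠ y then g x y else 0)
      + ∑ u ∈ S.erase x, ∑ y ∈ S, if u ≠ y then g u y else 0 := by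
    unfold offd
    rw [← Finset.add_sum_erase S _ hx]
  have h2 : ∀ u ∈ S.erase x, (∑ y ∈ S, if u ≠ y then g u y else 0)
      = (if u ≠ x then g u x else 0) + ∑ y ∈ S.erase x, if u ≠ y then g u y else 0 := by
    intro u _
    rw [← Finset.add_sum_erase S (fun y => if u ≠ y then g u y else 0) hx]
  have h3 : (∑ y ∈ S, if y ≠ x then g y x else 0)
      = ∑ u ∈ S.erase x, if u ≠ x then g u x else 0 := by
    rw [← Finset.add_sum_erase S (fun y => if y ≠ x then g y x else 0) hx]
    simp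
  rw [h1, Finset.sum_congr rfl h2, Finset.sum_add_distrib, h3]
  unfold offd
  ring

theorem sum_erase_offd (g : V → V → ℝ) (S : Finset V) :
    ∑ x ∈ S, offd g (S.erase x) = ((S.card : ℝ) - 2) * offd g S := by
  rw [Finset.sum_congr rfl (fun x hx => offd_erase g S x hx)]
  rw [Finset.sum_sub_distrib, Finset.sum_sub_distrib, Finset.sum_const, nsmul_eq_mul]
  have h1 : ∑ x ∈ S, ∑ y ∈ S, (if x ≠ y then g x y else 0) = offd g S := rfl
  have h2 : ∑ x ∈ S, ∑ y ∈ S, (if y ≠ x then g y x else 0) = offd g S := by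
    rw [Finset.sum_comm]
    rfl
  rw [h1, h2]
  ring

theorem offd_nonneg (g : V → V → ℝ) (hg : ∀ x y, 0 ≤ g x y) (S : Finset V) : 0 ≤ offd g S := by
  unfold offd
  refine Finset.sum_nonneg fun x _ => Finset.sum_nonneg fun y _ => ?_
  split_ifs
  · exact hg x y
  · exact le_refl 0

/-- the averaging lemma, `k ≥ 2` -/
theorem avg_aux (f : V → ℝ) (g : V → V → ℝ) (k : ℕ) (hk : 2 ≤ k) :
    ∀ (m : ℕ) (S : Finset V), S.card = k + m →
      ∃ Y ⊆ S, Y.card = k ∧
        ∑ y ∈ Y, f y + offd g Y ≤ ((k : ℝ) / (S.card : ℝ)) * ∑ y ∈ S, f y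
          + ((k : ℝ) * ((k : ℝ) - 1) / ((S.card : ℝ) * ((S.card : ℝ) - 1))) * offd g S := by
  intro m
  induction m with
  | zero =>
    intro S hS
    refine ⟨S, Finset.Subset.refl S, by omega, ?_⟩
    have hc : (S.card : ℝ) = (k : ℝ) := by rw [hS]; simp
    rw [hc]
    have hk' : (2 : ℝ) ≤ (k : ℝ) := by exact_mod_cast hk
    have h1 : (k : ℝ) / (k : ℝ) = 1 := div_self (by linarith)
    have h2 : (k : ℝ) * ((k : ℝ) - 1) / ((k : ℝ) * ((k : ℝ) - 1)) = 1 := by
      apply div_self
      have : 0 < (k : ℝ) * ((k : ℝ) - 1) := mul_pos (by linarith) (by linarith)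
      exact this.ne'
    rw [h1, h2, one_mul, one_mul]
  | succ m ih =>
    intro S hS
    have hk' : (2 : ℝ) ≤ (k : ℝ) := by exact_mod_cast hk
    have hM : (S.card : ℝ) = (k : ℝ) + m + 1 := by rw [hS]; push_cast; ring
    have hm0 : (0 : ℝ) ≤ (m : ℝ) := Nat.cast_nonneg m
    have hne : S.Nonempty := by
      rw [← Finset.card_pos]; omega
    set M : ℝ := (S.card : ℝ) with hMdef
    -- the value after deleting x
    have key : ∃ x ∈ S, ((k : ℝ) / (M - 1)) * ∑ y ∈ S.erase x, f y
        + ((k : ℝ) * ((k : ℝ) - 1) / ((M - 1) * ((M - 1) - 1))) * offd g (S.erase x)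
        ≤ ((k : ℝ) / M) * ∑ y ∈ S, f y
          + ((k : ℝ) * ((k : ℝ) - 1) / (M * (M - 1))) * offd g S := by
      by_contra hcon
      push Not at hcon
      have hs := Finset.sum_lt_sum_of_nonempty hne hcon
      rw [Finset.sum_const, nsmul_eq_mul, Finset.sum_add_distrib, ← Finset.mul_sum,
        ← Finset.mul_sum, sum_erase_lin, sum_erase_offd] at hs
      rw [← hMdef] at hs
      have e1 : (k : ℝ) / (M - 1) * ((M - 1) * ∑ y ∈ S, f y)
          = M * ((k : ℝ) / M * ∑ y ∈ S, f y) := by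
        have a1 : M - 1 ≠ 0 := by rw [hM]; intro h; linarith
        have a2 : M ≠ 0 := by rw [hM]; intro h; linarith
        field_simp
      have e2 : (k : ℝ) * ((k : ℝ) - 1) / ((M - 1) * ((M - 1) - 1)) * ((M - 2) * offd g S)
          = M * ((k : ℝ) * ((k : ℝ) - 1) / (M * (M - 1)) * offd g S) := by
        have a1 : M - 1 ≠ 0 := by rw [hM]; intro h; linarith
        have a2 : M ≠ 0 := by rw [hM]; intro h; linarith
        have a3 : M - 1 - 1 ≠ 0 := by rw [hM]; intro h; linarith
        have a4 : M - 2 = M - 1 - 1 := by ring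
        rw [a4]
        field_simp
      rw [e1, e2] at hs
      linarith
    obtain ⟨x, hx, hxv⟩ := key
    have hce : (S.erase x).card = k + m := by
      rw [Finset.card_erase_of_mem hx]; omega
    obtain ⟨Y, hYS, hYc, hY⟩ := ih (S.erase x) hce
    refine ⟨Y, hYS.trans (Finset.erase_subset x S), hYc, ?_⟩
    have hce' : ((S.erase x).card : ℝ) = M - 1 := by
      rw [hce, hM]; push_cast; ring
    rw [hce'] at hY
    exact hY.trans hxv

/-- the averaging lemma -/
theorem avg_subset {α : Type*} [DecidableEq α] (L : Finset α) (f : α → ℝ) (g : α → α → ℝ)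
    (k : ℕ) (hk : k ≤ L.card) (hk1 : 1 ≤ k) :
    ∃ Y ⊆ L, Y.card = k ∧
      ((∑ y ∈ Y, f y) + ∑ y ∈ Y, ∑ y' ∈ Y, if y ≠ y' then g y y' else 0)
      ≤ (k / L.card : ℝ) * (∑ y ∈ L, f y)
        + (k * (k - 1) / (L.card * (L.card - 1)) : ℝ)
          * (∑ y ∈ L, ∑ y' ∈ L, if y ≠ y' then g y y' else 0) := by
  rcases Nat.lt_or_ge k 2 with h | h
  · have hk' : k = 1 := by omega
    subst hk'
    have hne : L.Nonempty := by
      rw [← Finset.card_pos]; omega
    have hpos : (0 : ℝ) < L.card := by exact_mod_cast hne.card_pos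
    have key : ∃ y ∈ L, f y ≤ (∑ y ∈ L, f y) / L.card := by
      by_contra hcon
      push Not at hcon
      have hs := Finset.sum_lt_sum_of_nonempty hne hcon
      rw [Finset.sum_const, nsmul_eq_mul, mul_div_cancel₀ _ hpos.ne'] at hs
      exact lt_irrefl _ hs
    obtain ⟨y, hy, hyf⟩ := key
    refine ⟨{y}, Finset.singleton_subset_iff.mpr hy, Finset.card_singleton y, ?_⟩
    simp only [Finset.sum_singleton, ne_eq, not_true_eq_false, if_false, add_zero,
      Nat.cast_one, sub_self, mul_zero, zero_div, zero_mul]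
    refine hyf.trans (le_of_eq ?_)
    ring
  · obtain ⟨Y, h1, h2, h3⟩ := avg_aux f g k h (L.card - k) L (by omega)
    exact ⟨Y, h1, h2, h3⟩

end AVG

end Pool.Agent.Lib.MP_4d044e_co.TW
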