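import Pool.Agent.Lib.MP_4d044e_co.TW.BAS

/-!
Splitting a neighbourhood into two near-cliques (blueprint, section 4).
-/

set_option autoImplicit false

namespace Pool.Agent.Lib.MP_4d044e_co.TW

open Finset
open scoped Classical

variable {V : Type} [Fintype V] [DecidableEq V]

/-- Markov: few vertices of a near-clique miss much of it. -/
theorem split_markov {G : SimpleGraph V} {w : V → ℝ} (hw : ∀ v, 0 ≤ w v) (X : Finset V)
    (t m : ℝ) (hm : nu w X * nu w X - ee G w X X ≤ m) :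
    nu w (X.filter (fun u => t < nu w (X \ cn G u))) * t ≤ m := by
  have h1 : ∑ u ∈ X, w u * nu w (X \ cn G u) ≤ m := by
    refine le_trans ?_ hm
    have h2 : nu w X * nu w X = ∑ u ∈ X, w u * nu w X := by rw [← sum_mul]; rfl
    rw [h2, ee_eq, ← sum_sub_distrib]
    apply sum_le_sum
    intro u _
    rw [← mul_sub]
    apply mul_le_mul_of_nonneg_left _ (hw u)
    have h3 := nu_inter_add_sdiff (w := w) X (cn G u)
    have h4 : nu w (nbr G u ∩ X) ≤ nu w (X ∩ cn G u) := by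
      apply nu_mono hw
      intro v hv
      obtain ⟨h5, h6⟩ := mem_inter.1 hv
      exact mem_inter.2 ⟨h6, nbr_subset_cn G u h5⟩
    linarith
  refine le_trans ?_ h1
  calc nu w (X.filter (fun u => t < nu w (X \ cn G u))) * t
      = ∑ u ∈ X.filter (fun u => t < nu w (X \ cn G u)), w u * t := by
        unfold nu; rw [sum_mul]
    _ ≤ ∑ u ∈ X.filter (fun u => t < nu w (X \ cn G u)), w u * nu w (X \ cn G u) := by
        apply sum_le_sum
        intro u hu
        exact mul_le_mul_of_nonneg_left (mem_filter.1 hu).2.le (hw u)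
    _ ≤ _ := by
        apply sum_le_sum_of_subset_of_nonneg (filter_subset _ _)
        intro u _ _
        exact mul_nonneg (hw u) (nu_nonneg hw _)

/-- SPLIT. -/
theorem split {G : SimpleGraph V} {w : V → ℝ} {w0 β η : ℝ} {C0 : ℕ} (h : NG G w w0 β η C0)
    (hC : 1 ≤ C0) (y : V) (hy : nu w (cheap G w (1 / 10 ^ 36) y) ≤ 1 / 10 ^ 36) :
    ∃ Y : Bool → Finset V, Spl G w (1 / 1000) y Y := by
  have hw := h.wnn
  have hη := h.hη
  have hβ := h.βsm
  have hβ0 := h.βpos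
  have hβ' : β ≤ 1 / 10 ^ 40 := hβ.trans (by norm_num)
  set N := cn G y with hN
  set Ch := cheap G w (1 / 10 ^ 36) y with hCh
  have hs1 : nu w N ≤ 1 + 2 * β := h.cls y
  have hs0 : 49 / 100 ≤ nu w N := by
    by_contra hlt
    push Not at hlt
    have h1 := h.ng1 {y} (singleton_nonempty y) (by simpa using hC)
    have h2 : cN G {y} = N := by simp [cN, hN]
    rw [h2, card_singleton, Nat.cast_one, hη] at h1
    have h3 := ee_le_nu_mul_nu (G := G) hw N N
    have h4 := nu_nonneg hw N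
    have h5 : nu w N * nu w N ≤ 49 / 100 * (49 / 100) := by
      apply mul_le_mul hlt.le hlt.le h4 (by norm_num)
    have h6 : (1 / 10 ^ 39 : ℝ) ≤ 1 / 1000 := by norm_num
    nlinarith
  set q : V → ℝ := fun u => nu w (N ∩ cn G u) with hq
  have hP : (N \ Ch).Nonempty := by
    rw [nonempty_iff_ne_empty]
    intro h0
    have h1 := nu_sdiff_le hw N Ch ∅
    rw [sdiff_empty, sdiff_empty, h0, nu_empty] at h1
    have : (1 / 10 ^ 36 : ℝ) < 49 / 100 := by norm_num
    linarith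
  obtain ⟨z, hzP, hzmax⟩ := exists_max_image (N \ Ch) q hP
  have hnc : ∀ u ∈ N \ Ch, 1 / 4 - 1 / 10 ^ 36 ≤ ee G w (N \ cn G u) (N \ cn G u) := by
    intro u hu
    obtain ⟨h1, h2⟩ := mem_sdiff.1 hu
    by_contra h3
    exact h2 (mem_filter.2 ⟨h1, not_le.1 h3⟩)
  set X := N \ cn G z with hX
  have hXN : X ⊆ N := sdiff_subset
  have hXm : nu w X = nu w N - q z := by
    have h1 := nu_inter_add_sdiff (w := w) N (cn G z)
    simp only [hq, hX]
    linarith
  have hq0 : 0 ≤ q z := nu_nonneg hw _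
  have hee : ee G w X X ≤ (nu w N - q z) * q z + 11 / 10 * (1 / 10 ^ 36) := by
    have h1 : X = (X ∩ (N \ Ch)) ∪ (X \ (N \ Ch)) := by
      rw [union_comm, sdiff_union_inter]
    have h2 := ee_union_left_le (G := G) hw (X ∩ (N \ Ch)) (X \ (N \ Ch)) X
    rw [← h1] at h2
    have h3 : ee G w (X ∩ (N \ Ch)) X ≤ nu w (X ∩ (N \ Ch)) * q z := by
      apply ee_le_of_contact hw
      intro u hu
      refine le_trans (nu_mono hw ?_) (hzmax u (mem_inter.1 hu).2)
      intro v hv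
      obtain ⟨h4, h5⟩ := mem_inter.1 hv
      exact mem_inter.2 ⟨hXN h5, nbr_subset_cn G u h4⟩
    have h4 : nu w (X ∩ (N \ Ch)) * q z ≤ (nu w N - q z) * q z := by
      rw [← hXm]
      exact mul_le_mul_of_nonneg_right (nu_mono hw inter_subset_left) hq0
    have h5 : nu w (X \ (N \ Ch)) ≤ 1 / 10 ^ 36 := by
      refine le_trans (nu_mono hw ?_) hy
      intro v hv
      obtain ⟨h6, h7⟩ := mem_sdiff.1 hv
      by_contra h8
      exact h7 (mem_sdiff.2 ⟨hXN h6, h8⟩)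
    have h6 := h.ee_le (X \ (N \ Ch)) X
    have h7 : nu w (X \ (N \ Ch)) * (1 + 2 * β) ≤ 1 / 10 ^ 36 * (1 + 1 / 10) := by
      apply mul_le_mul h5 _ (by linarith) (by norm_num)
      have : (1 / 10 ^ 40 : ℝ) ≤ 1 / 100 := by norm_num
      linarith
    linarith
  have hz1 := hnc z hzP
  -- numbers
  generalize hsd : nu w N = s at *
  generalize hqd : q z = r at *
  have hss : s * s ≤ 1 + 5 * (1 / 10 ^ 40) := by
    have h1 : s * s ≤ (1 + 2 * (1 / 10 ^ 40)) * (1 + 2 * (1 / 10 ^ 40)) := by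
      apply mul_le_mul _ _ (by linarith) (by norm_num) <;> linarith
    refine h1.trans (by norm_num)
  have hsq : (r - s / 2) ^ 2 ≤ (15 / 10 ^ 19) ^ 2 := by
    have h1 : (r - s / 2) ^ 2 = s * s / 4 - (s - r) * r := by ring
    rw [h1]
    norm_num at hz1 hee hss ⊢
    linarith
  obtain ⟨hr1, hr2⟩ := abs_le_of_sq_le_sq' hsq (by norm_num)
  have hs2 : 1 - 9 / 10 ^ 36 ≤ s := by
    by_contra hlt
    push Not at hlt
    have h1 : (s - r) * r ≤ s * s / 4 := by nlinarith [sq_nonneg (r - s / 2)]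
    have h2 : s * s ≤ (1 - 9 / 10 ^ 36) * (1 - 9 / 10 ^ 36) := by
      apply mul_le_mul hlt.le hlt.le (by linarith) (by norm_num)
    norm_num at hz1 hee h2
    linarith
  have hX1 : nu w X ≤ 1 / 2 + 2 / 10 ^ 18 := by
    rw [hXm]
    norm_num at hr1 hr2 hs1 hβ' ⊢
    linarith
  have hX2 : 1 / 2 - 2 / 10 ^ 18 ≤ nu w X := by
    rw [hXm]
    norm_num at hr1 hr2 hs2 ⊢
    linarith
  have hr3 : r ≤ 1 / 2 + 2 / 10 ^ 18 := by
    norm_num at hr1 hr2 hs1 hβ' ⊢
    linarith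
  -- the first half
  have hmk1 := split_markov (G := G) hw X (3 / 10 ^ 9) (5 / 10 ^ 18) (by
    have h1 : nu w X * nu w X ≤ (1 / 2 + 2 / 10 ^ 18) * (1 / 2 + 2 / 10 ^ 18) :=
      mul_le_mul hX1 hX1 (nu_nonneg hw _) (by norm_num)
    norm_num at h1 hz1 ⊢
    linarith)
  set X1 := (X \ Ch).filter (fun u => nu w (X \ cn G u) ≤ 3 / 10 ^ 9) with hX1d
  have hX1X : X1 ⊆ X := (filter_subset _ _).trans sdiff_subset
  have hX1P : ∀ u ∈ X1, u ∈ N \ Ch := by
    intro u hu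
    obtain ⟨h1, h2⟩ := mem_sdiff.1 (mem_filter.1 hu).1
    exact mem_sdiff.2 ⟨hXN h1, h2⟩
  have hX1m : 1 / 2 - 3 / 10 ^ 9 ≤ nu w X1 := by
    have h1 : X ⊆ X1 ∪ (Ch ∪ X.filter (fun u => 3 / 10 ^ 9 < nu w (X \ cn G u))) := by
      intro u hu
      by_cases h2 : u ∈ Ch
      · exact mem_union_right _ (mem_union_left _ h2)
      · by_cases h3 : nu w (X \ cn G u) ≤ 3 / 10 ^ 9
        · exact mem_union_left _ (mem_filter.2 ⟨mem_sdiff.2 ⟨hu, h2⟩, h3⟩)
        · exact mem_union_right _ (mem_union_right _ (mem_filter.2 ⟨hu, not_le.1 h3⟩))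
    have h2 := nu_le_of_subset_union hw h1
    have h3 := nu_union_le hw Ch (X.filter (fun u => 3 / 10 ^ 9 < nu w (X \ cn G u)))
    norm_num at h2 h3 hmk1 hX2 hy ⊢
    linarith
  obtain ⟨u0, hu0, -⟩ : ∃ v ∈ X1, 0 < w v := exists_mem_of_nu_pos hw (by
    norm_num at hX1m ⊢
    linarith)
  have hu0P := hX1P u0 hu0
  have hu0X : nu w (X \ cn G u0) ≤ 3 / 10 ^ 9 := (mem_filter.1 hu0).2
  -- the second half
  set Y := N \ cn G u0 with hYd
  have hY0 := hnc u0 hu0P
  have hYN : Y ⊆ N := sdiff_subset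
  have hY1 : nu w Y ≤ 1 / 2 + 4 / 10 ^ 9 := by
    have h1 := nu_inter_add_sdiff (w := w) N (cn G u0)
    have h2 := nu_inter_add_sdiff (w := w) X (cn G u0)
    have h3 : nu w (X ∩ cn G u0) ≤ nu w (N ∩ cn G u0) :=
      nu_mono hw (inter_subset_inter_right hXN)
    rw [hsd] at h1
    norm_num at h1 h2 h3 hu0X hX2 hs1 hβ' ⊢
    linarith
  have hY2 : 1 / 2 - 1 / 10 ^ 9 ≤ nu w Y := by
    by_contra hlt
    push Not at hlt
    have h1 := ee_le_nu_mul_nu (G := G) hw Y Y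
    have h2 : nu w Y * nu w Y ≤ (1 / 2 - 1 / 10 ^ 9) * (1 / 2 - 1 / 10 ^ 9) :=
      mul_le_mul hlt.le hlt.le (nu_nonneg hw _) (by norm_num)
    norm_num at h1 h2 hY0
    linarith
  have hmk2 := split_markov (G := G) hw Y (2 / 10 ^ 4) (5 / 10 ^ 9) (by
    have h1 : nu w Y * nu w Y ≤ (1 / 2 + 4 / 10 ^ 9) * (1 / 2 + 4 / 10 ^ 9) :=
      mul_le_mul hY1 hY1 (nu_nonneg hw _) (by norm_num)
    norm_num at h1 hY0 ⊢
    linarith)
  set X2 := ((Y \ X) \ Ch).filter (fun u => nu w (Y \ cn G u) ≤ 2 / 10 ^ 4) with hX2d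
  have hX2Y : X2 ⊆ Y := (filter_subset _ _).trans (sdiff_subset.trans sdiff_subset)
  have hX2P : ∀ u ∈ X2, u ∈ N \ Ch := by
    intro u hu
    obtain ⟨h1, h2⟩ := mem_sdiff.1 (mem_filter.1 hu).1
    exact mem_sdiff.2 ⟨hYN (mem_sdiff.1 h1).1, h2⟩
  have hX2m : 1 / 2 - 4 / 10 ^ 5 ≤ nu w X2 := by
    have h1 : Y ⊆ X2 ∪ ((X \ cn G u0) ∪
        (Ch ∪ Y.filter (fun u => 2 / 10 ^ 4 < nu w (Y \ cn G u)))) := by
      intro u hu
      by_cases h0 : u ∈ X
      · exact mem_union_right _ (mem_union_left _ (mem_sdiff.2 ⟨h0, (mem_sdiff.1 hu).2⟩))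
      by_cases h2 : u ∈ Ch
      · exact mem_union_right _ (mem_union_right _ (mem_union_left _ h2))
      · by_cases h3 : nu w (Y \ cn G u) ≤ 2 / 10 ^ 4
        · exact mem_union_left _ (mem_filter.2 ⟨mem_sdiff.2 ⟨mem_sdiff.2 ⟨hu, h0⟩, h2⟩, h3⟩)
        · exact mem_union_right _ (mem_union_right _ (mem_union_right _
            (mem_filter.2 ⟨hu, not_le.1 h3⟩)))
    have h2 := nu_le_of_subset_union hw h1
    have h3 := nu_union_le hw (X \ cn G u0)
      (Ch ∪ Y.filter (fun u => 2 / 10 ^ 4 < nu w (Y \ cn G u)))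
    have h4 := nu_union_le hw Ch (Y.filter (fun u => 2 / 10 ^ 4 < nu w (Y \ cn G u)))
    norm_num at h2 h3 h4 hmk2 hY2 hy hu0X ⊢
    linarith
  have hdis : Disjoint X1 X2 := by
    rw [disjoint_left]
    intro u h1 h2
    exact (mem_sdiff.1 (mem_sdiff.1 (mem_filter.1 h2).1).1).2 (hX1X h1)
  have hX1i : ∀ u ∈ X1, nu w (X1 \ cn G u) ≤ 3 / 10 ^ 9 := fun u hu =>
    (nu_mono hw (sdiff_subset_sdiff hX1X (Subset.refl _))).trans (mem_filter.1 hu).2
  have hX2i : ∀ u ∈ X2, nu w (X2 \ cn G u) ≤ 2 / 10 ^ 4 := fun u hu =>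
    (nu_mono hw (sdiff_subset_sdiff hX2Y (Subset.refl _))).trans (mem_filter.1 hu).2
  have hcr : ∀ u ∈ N \ Ch, nu w (cn G u ∩ X1) + nu w (cn G u ∩ X2) ≤ 1 / 2 + 2 / 10 ^ 18 := by
    intro u hu
    rw [← nu_union_of_disjoint (disjoint_of_subset_left inter_subset_right
      (disjoint_of_subset_right inter_subset_right hdis))]
    refine le_trans (nu_mono hw (Y := N ∩ cn G u) ?_) ((hzmax u hu).trans hr3)
    intro v hv
    rcases mem_union.1 hv with h1 | h1
    · obtain ⟨h2, h3⟩ := mem_inter.1 h1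
      exact mem_inter.2 ⟨hXN (hX1X h3), h2⟩
    · obtain ⟨h2, h3⟩ := mem_inter.1 h1
      exact mem_inter.2 ⟨hYN (hX2Y h3), h2⟩
  have hX1hi : nu w X1 ≤ nu w X := nu_mono hw hX1X
  have hX2hi : nu w X2 ≤ nu w Y := nu_mono hw hX2Y
  refine ⟨fun i => if i = true then X1 else X2, ?_, ?_, ?_, ?_, ?_, ?_⟩
  · intro i
    cases i
    · exact hX2Y.trans hYN
    · exact hX1X.trans hXN
  · exact hdis
  · intro i
    cases i
    · show 1 / 2 - 1 / 1000 ≤ nu w X2
      norm_num at hX2m ⊢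
      linarith
    · show 1 / 2 - 1 / 1000 ≤ nu w X1
      norm_num at hX1m ⊢
      linarith
  · intro i
    cases i
    · show nu w X2 ≤ 1 / 2 + 1 / 1000
      norm_num at hX2hi hY1 ⊢
      linarith
    · show nu w X1 ≤ 1 / 2 + 1 / 1000
      norm_num at hX1hi hX1 ⊢
      linarith
  · intro i
    cases i
    · intro u hu
      exact (hX2i u hu).trans (by norm_num)
    · intro u hu
      exact (hX1i u hu).trans (by norm_num)
  · intro i
    cases i
    · intro u hu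
      have hu' : u ∈ X2 := hu
      show nu w (cn G u ∩ X1) ≤ 1 / 1000
      have h1 := hcr u (hX2P u hu')
      have h2 := nu_inter_add_sdiff (w := w) X2 (cn G u)
      rw [inter_comm X2] at h2
      have h3 := hX2i u hu'
      norm_num at h1 h2 h3 hX2m ⊢
      linarith
    · intro u hu
      have hu' : u ∈ X1 := hu
      show nu w (cn G u ∩ X2) ≤ 1 / 1000
      have h1 := hcr u (hX1P u hu')
      have h2 := nu_inter_add_sdiff (w := w) X1 (cn G u)
      rw [inter_comm X1] at h2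
      have h3 := hX1i u hu'
      norm_num at h1 h2 h3 hX1m ⊢
      linarith

end Pool.Agent.Lib.MP_4d044e_co.TW
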