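import Pool.Agent.Lib.MP_4d044e_co.TW.BADX
import Pool.Agent.Lib.MP_4d044e_co.TW.SPLIT

/-!
Module BAD (section 8 of the blueprint): there are no bad vertices.
-/

set_option autoImplicit false

namespace Pool.Agent.Lib.MP_4d044e_co.TW

open Finset
open scoped Classical

variable {V : Type} [Fintype V] [DecidableEq V]

theorem bad {G : SimpleGraph V} {w : V → ℝ} {w0 β η : ℝ} {C0 : ℕ} (h : NG G w w0 β η C0)
    (hC : 1 ≤ C0) (K : ℕ) (hβK : β * K ≤ 1 / 10 ^ 200)
    (hK : ∀ z, (univ.filter (fun y =>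
      ee G w (cn G y \ cn G z) (cn G y \ cn G z) < 1 / 4 - 1 / 10 ^ 36)).card < K) :
    ∀ y, nu w (cheap G w (1 / 10 ^ 36) y) ≤ 1 / 10 ^ 36 :=
  bad_core h K hβK hK (fun y hy => split h hC y hy)

end Pool.Agent.Lib.MP_4d044e_co.TW
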