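import Pool.Agent.Lib.MP_4d044e_co.TW.ACC

/-!
Module BAD (section 8 of the blueprint): there are no bad vertices.  `bad_core` has the
splitting lemma as a hypothesis.
-/

set_option autoImplicit false
set_option linter.unusedSectionVars false

namespace Pool.Agent.Lib.MP_4d044e_co.TW

open Finset
open scoped Classical

variable {V : Type} [Fintype V] [DecidableEq V]

/-- double counting of closed neighbourhoods -/
theorem bad_sum_comm {G : SimpleGraph V} (w : V → ℝ) (A B : Finset V) :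
    (∑ y ∈ A, w y * nu w (cn G y ∩ B)) = ∑ x ∈ B, w x * nu w (cn G x ∩ A) := by
  have e1 : ∀ (A B : Finset V), (∑ y ∈ A, w y * nu w (cn G y ∩ B))
      = ∑ y ∈ A, ∑ x ∈ B, if x ∈ cn G y then w y * w x else 0 := by
    intro A B
    refine sum_congr rfl (fun y _ => ?_)
    rw [nu, mul_sum, inter_comm, ← sum_filter]
    refine sum_congr ?_ (fun x _ => rfl)
    ext x
    simp only [mem_inter, mem_filter]
  rw [e1, e1, sum_comm]
  refine sum_congr rfl (fun x _ => sum_congr rfl (fun y _ => ?_))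
  by_cases hxy : x ∈ cn G y
  · rw [if_pos hxy, if_pos (mem_cn_comm.1 hxy), mul_comm]
  · rw [if_neg hxy, if_neg (fun hh => hxy (mem_cn_comm.1 hh))]

/-- the mass of type 0 and type 1 vertices against the mass of type 0 vertices -/
theorem bad_mass {G : SimpleGraph V} {w : V → ℝ} {w0 β η : ℝ} {C0 : ℕ} (h : NG G w w0 β η C0)
    (Gd : Finset V) :
    nu w (univ.filter (fun z => ¬ T2 G w Gd (1 / 10 ^ 39) z)) ≤ 2 * 10 ^ 39 * nu w Gdᶜ := by
  have hw := h.wnn
  have hβ : β ≤ 1 / 100 := h.βsm.trans (by norm_num)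
  set B1 : Finset V := Gd.filter (fun z => 1 / 10 ^ 39 < nu w (cn G z \ Gd)) with hB1
  have hsub : univ.filter (fun z => ¬ T2 G w Gd (1 / 10 ^ 39) z) ⊆ Gdᶜ ∪ B1 := by
    intro z hz
    rw [mem_filter] at hz
    rw [mem_union, mem_compl]
    by_cases hzG : z ∈ Gd
    · right
      rw [hB1, mem_filter]
      refine ⟨hzG, ?_⟩
      by_contra hcon
      exact hz.2 ⟨hzG, not_lt.1 hcon⟩
    · exact Or.inl hzG
  have h1 : (1 / 10 ^ 39 : ℝ) * nu w B1 ≤ ∑ z ∈ B1, w z * nu w (cn G z ∩ Gdᶜ) := by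
    rw [nu, mul_sum]
    refine sum_le_sum (fun z hz => ?_)
    rw [hB1, mem_filter] at hz
    rw [mul_comm, ← sdiff_eq_inter_compl]
    exact mul_le_mul_of_nonneg_left hz.2.le (hw z)
  rw [bad_sum_comm] at h1
  have h2 : (∑ x ∈ Gdᶜ, w x * nu w (cn G x ∩ B1)) ≤ (11 / 10) * nu w Gdᶜ := by
    rw [nu, mul_sum]
    refine sum_le_sum (fun x _ => ?_)
    rw [mul_comm]
    refine mul_le_mul_of_nonneg_right ?_ (hw x)
    have := nu_mono hw (inter_subset_left : cn G x ∩ B1 ⊆ cn G x)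
    have := h.cls x
    linarith
  have h3 := nu_le_of_subset_union hw hsub
  have h4 : nu w B1 ≤ 10 ^ 39 * ((11 / 10) * nu w Gdᶜ) := by
    have h5 := h1.trans h2
    have h6 : (10 : ℝ) ^ 39 * ((1 / 10 ^ 39 : ℝ) * nu w B1) ≤ 10 ^ 39 * ((11 / 10) * nu w Gdᶜ) :=
      mul_le_mul_of_nonneg_left h5 (by positivity)
    have h7 : (10 : ℝ) ^ 39 * ((1 / 10 ^ 39 : ℝ) * nu w B1) = nu w B1 := by
      rw [← mul_assoc, mul_one_div_cancel (by positivity), one_mul]
    linarith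
  have h8 := nu_nonneg hw Gdᶜ
  have h9 : nu w Gdᶜ ≤ 10 ^ 39 * ((9 / 10) * nu w Gdᶜ) := by
    have : (1 : ℝ) * nu w Gdᶜ ≤ (10 ^ 39 * (9 / 10)) * nu w Gdᶜ :=
      mul_le_mul_of_nonneg_right (by norm_num) h8
    linarith
  linarith

/-- some bad vertex has few cheap centres which are not of type 2 -/
theorem bad_exists {G : SimpleGraph V} {w : V → ℝ} {w0 β η : ℝ} {C0 : ℕ} (h : NG G w w0 β η C0)
    (K : ℕ) (hβK : β * K ≤ 1 / 10 ^ 200)
    (hK : ∀ z, (univ.filter (fun y =>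
      ee G w (cn G y \ cn G z) (cn G y \ cn G z) < 1 / 4 - 1 / 10 ^ 36)).card < K)
    (Gd : Finset V) (hne : Gdᶜ.Nonempty) :
    ∃ y ∈ Gdᶜ, nu w ((cheap G w (1 / 10 ^ 36) y).filter
      (fun z => ¬ T2 G w Gd (1 / 10 ^ 39) z)) ≤ 1 / 10 ^ 100 := by
  by_contra hcon
  push Not at hcon
  have hw := h.wnn
  set B : Finset V := univ.filter (fun z => ¬ T2 G w Gd (1 / 10 ^ 39) z) with hB
  have h1 : (1 / 10 ^ 100 : ℝ) * nu w Gdᶜ < ∑ y ∈ Gdᶜ, w y * nu w ((cheap G w (1 / 10 ^ 36) y).filter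
      (fun z => ¬ T2 G w Gd (1 / 10 ^ 39) z)) := by
    rw [nu, mul_sum]
    refine sum_lt_sum_of_nonempty hne (fun y hy => ?_)
    rw [mul_comm]
    exact mul_lt_mul_of_pos_left (hcon y hy) (h.wpos y)
  have h2 : (∑ y ∈ Gdᶜ, w y * nu w ((cheap G w (1 / 10 ^ 36) y).filter
      (fun z => ¬ T2 G w Gd (1 / 10 ^ 39) z)))
      = ∑ z ∈ B, w z * nu w (Gdᶜ.filter (fun y => z ∈ cheap G w (1 / 10 ^ 36) y)) := by
    have e1 : ∀ y, w y * nu w ((cheap G w (1 / 10 ^ 36) y).filter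
        (fun z => ¬ T2 G w Gd (1 / 10 ^ 39) z))
        = ∑ z ∈ B, if z ∈ cheap G w (1 / 10 ^ 36) y then w y * w z else 0 := by
      intro y
      rw [nu, mul_sum, ← sum_filter]
      refine sum_congr ?_ (fun _ _ => rfl)
      ext z
      simp only [hB, mem_filter, mem_univ, true_and]
      exact and_comm
    have e2 : ∀ z, w z * nu w (Gdᶜ.filter (fun y => z ∈ cheap G w (1 / 10 ^ 36) y))
        = ∑ y ∈ Gdᶜ, if z ∈ cheap G w (1 / 10 ^ 36) y then w y * w z else 0 := by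
      intro z
      rw [nu, mul_sum, ← sum_filter]
      exact sum_congr rfl (fun _ _ => mul_comm _ _)
    rw [sum_congr rfl (fun y _ => e1 y), sum_congr rfl (fun z _ => e2 z), sum_comm]
  have h3 : (∑ z ∈ B, w z * nu w (Gdᶜ.filter (fun y => z ∈ cheap G w (1 / 10 ^ 36) y)))
      ≤ (1 / 10 ^ 200) * nu w B := by
    rw [nu, mul_sum]
    refine sum_le_sum (fun z _ => ?_)
    rw [mul_comm (1 / 10 ^ 200 : ℝ)]
    refine mul_le_mul_of_nonneg_left ?_ (hw z)
    refine le_trans ?_ hβK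
    have h4 : Gdᶜ.filter (fun y => z ∈ cheap G w (1 / 10 ^ 36) y) ⊆
        univ.filter (fun y => ee G w (cn G y \ cn G z) (cn G y \ cn G z)
          < 1 / 4 - 1 / 10 ^ 36) := by
      intro y hy
      rw [mem_filter] at hy
      rw [mem_filter]
      exact ⟨mem_univ _, (mem_filter.1 hy.2).2⟩
    refine (nu_mono hw h4).trans ?_
    have h5 : nu w (univ.filter (fun y => ee G w (cn G y \ cn G z) (cn G y \ cn G z)
          < 1 / 4 - 1 / 10 ^ 36)) ≤ (univ.filter (fun y =>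
            ee G w (cn G y \ cn G z) (cn G y \ cn G z) < 1 / 4 - 1 / 10 ^ 36)).card • β :=
      sum_le_card_nsmul _ _ _ (fun y _ => h.whi y)
    refine h5.trans ?_
    rw [nsmul_eq_mul, mul_comm]
    refine mul_le_mul_of_nonneg_left ?_ h.βpos.le
    exact_mod_cast (hK z).le
  have h6 := bad_mass h Gd
  rw [← hB] at h6
  have h7 := nu_nonneg hw Gdᶜ
  have h8 : (1 / 10 ^ 200 : ℝ) * nu w B ≤ (1 / 10 ^ 200) * (2 * 10 ^ 39 * nu w Gdᶜ) :=
    mul_le_mul_of_nonneg_left h6 (by positivity)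
  have h9 : (1 / 10 ^ 200 : ℝ) * (2 * 10 ^ 39 * nu w Gdᶜ) ≤ (1 / 10 ^ 100) * nu w Gdᶜ := by
    rw [← mul_assoc]
    exact mul_le_mul_of_nonneg_right (by norm_num) h7
  rw [h2] at h1
  linarith

section
variable {G : SimpleGraph V} {w : V → ℝ} {w0 β η : ℝ} {C0 : ℕ} (h : NG G w w0 β η C0)
  {Gd : Finset V} {H : V → Bool → Finset V} (hH : ∀ v ∈ Gd, Spl G w (1 / 1000) v (H v))

include h hH in
/-- a type 2 cheap centre of a bad vertex meets the bad vertex in both clusters -/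
theorem bad_both {y z : V} (hy : y ∉ Gd) (hz : T2 G w Gd (1 / 10 ^ 39) z)
    (hc : z ∈ cheap G w (1 / 10 ^ 36) y) (i : Bool) :
    1 / 10 ^ 38 ≤ nu w (cn G y ∩ Mc w H Gd z (!i)) := by
  by_contra hcon
  push Not at hcon
  have hw := h.wnn
  set Q := cn G y ∩ Mc w H Gd z i with hQ
  set Q' := cn G y ∩ Mc w H Gd z (!i) with hQ'
  set J := cn G z \ (Mc w H Gd z true ∪ Mc w H Gd z false) with hJ
  have hyM : ∀ i, y ∉ Mc w H Gd z i := by
    intro i hcon
    exact hy (mem_filter.1 hcon).1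
  have hyX : y ∈ cn G y \ Q := by
    rw [mem_sdiff]
    refine ⟨self_mem_cn G y, fun hh => hyM i (mem_inter.1 hh).2⟩
  have hmain := h.ng2 y _ hyX
  have hm : miss G w (nbr G y \ (cn G y \ Q)) = 0 := by
    apply miss_clique
    intro u hu v hv huv
    rw [mem_sdiff, mem_sdiff] at hu hv
    have hu' : u ∈ Q := by
      by_contra hcon
      exact hu.2 ⟨nbr_subset_cn G y hu.1, hcon⟩
    have hv' : v ∈ Q := by
      by_contra hcon
      exact hv.2 ⟨nbr_subset_cn G y hv.1, hcon⟩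
    exact clu_adj h hH hz i (mem_inter.1 hu').2 (mem_inter.1 hv').2 huv
  rw [hm, add_zero] at hmain
  have hJm := acc h hH hz
  rw [← hJ] at hJm
  have hsub : cn G y \ Q ⊆ (cn G y \ cn G z) ∪ (Q' ∪ J) := by
    intro u hu
    rw [mem_sdiff] at hu
    rw [mem_union, mem_union]
    by_cases huz : u ∈ cn G z
    · right
      by_cases huM : u ∈ Mc w H Gd z true ∪ Mc w H Gd z false
      · left
        rw [mem_union] at huM
        have h1 : u ∉ Mc w H Gd z i := fun hh => hu.2 (mem_inter.2 ⟨hu.1, hh⟩)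
        have h2 : u ∈ Mc w H Gd z (!i) := by
          cases i <;> simp at h1 ⊢ <;> tauto
        exact mem_inter.2 ⟨hu.1, h2⟩
      · exact Or.inr (mem_sdiff.2 ⟨huz, huM⟩)
    · exact Or.inl (mem_sdiff.2 ⟨hu.1, huz⟩)
  have h1 : ee G w (cn G y \ Q) (cn G y \ Q)
      ≤ ee G w ((cn G y \ cn G z) ∪ (Q' ∪ J)) ((cn G y \ cn G z) ∪ (Q' ∪ J)) :=
    ee_mono hw hsub hsub
  have h2 := ee_union_self_le (G := G) hw (cn G y \ cn G z) (Q' ∪ J)
  have h3 := h.ee_le (Q' ∪ J) ((cn G y \ cn G z) ∪ (Q' ∪ J))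
  have h4 := nu_union_le hw Q' J
  have hβ : β ≤ 1 / 100 := h.βsm.trans (by norm_num)
  have hβ0 := h.βpos
  have h5 : nu w (Q' ∪ J) * (1 + 2 * β) ≤ (5 / 10 ^ 38) * (11 / 10) := by
    refine mul_le_mul ?_ (by linarith) (by linarith) (by positivity)
    have : (1 : ℝ) / 10 ^ 38 + 40 / 10 ^ 39 = 5 / 10 ^ 38 := by norm_num
    linarith
  have h6 : ee G w (cn G y \ cn G z) (cn G y \ cn G z) < 1 / 4 - 1 / 10 ^ 36 :=
    (mem_filter.1 hc).2
  have h7 : nu w (cn G y \ Q) ≤ 11 / 10 := by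
    have := nu_mono hw (sdiff_subset : cn G y \ Q ⊆ cn G y)
    have := h.cls y
    linarith
  have hη := h.hη
  have h8 : 3 * η * nu w (cn G y \ Q) ≤ 3 * η * (11 / 10) :=
    mul_le_mul_of_nonneg_left h7 (by rw [hη]; positivity)
  have h9 : (1 - η) / 4 ≤ 1 / 4 - 1 / 10 ^ 36 + 2 * ((5 / 10 ^ 38) * (11 / 10))
      + 3 * η * (11 / 10) := by linarith
  rw [hη] at h9
  norm_num at h9

include h hH in
/-- every vertex lies in at most two clusters -/
theorem bad_two (F : Finset (Finset V))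
    (hF : ∀ C ∈ F, ∃ z i, T2 G w Gd (1 / 10 ^ 39) z ∧ C = Mc w H Gd z i) (x : V) :
    (F.filter (fun C => x ∈ C)).card ≤ 2 := by
  have hch : ∀ C ∈ F.filter (fun C => x ∈ C), ∃ a : Bool, ∃ z i, T2 G w Gd (1 / 10 ^ 39) z ∧
      C = Mc w H Gd z i ∧ x ∈ Gd ∧ 1 / 4 ≤ nu w (H x a ∩ H z i) := by
    intro C hC
    rw [mem_filter] at hC
    obtain ⟨z, i, hz, rfl⟩ := hF C hC.1
    obtain ⟨hx, a, ha⟩ := mem_filter.1 hC.2
    exact ⟨a, z, i, hz, rfl, hx, ha⟩
  have hch' : ∀ C : Finset V, ∃ a : Bool, C ∈ F.filter (fun C => x ∈ C) →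
      ∃ z i, T2 G w Gd (1 / 10 ^ 39) z ∧
      C = Mc w H Gd z i ∧ x ∈ Gd ∧ 1 / 4 ≤ nu w (H x a ∩ H z i) := by
    intro C
    by_cases hC : C ∈ F.filter (fun C => x ∈ C)
    · obtain ⟨a, ha⟩ := hch C hC
      exact ⟨a, fun _ => ha⟩
    · exact ⟨true, fun hh => absurd hh hC⟩
  choose a ha using hch'
  have h1 : (F.filter (fun C => x ∈ C)).card ≤ (univ : Finset Bool).card := by
    refine card_le_card_of_injOn a (fun _ _ => mem_coe.2 (mem_univ _)) ?_
    intro C hC C' hC' haa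
    obtain ⟨z, i, hz, hCz, hx, h1⟩ := ha C (mem_coe.1 hC)
    obtain ⟨z', i', hz', hCz', _, h1'⟩ := ha C' (mem_coe.1 hC')
    rw [← haa] at h1'
    rw [hCz, hCz']
    exact clu_eq h hH hz hz' hx h1 h1'
  simpa using h1

include h hH in
/-- the mass of the type 2 cheap centres of a bad vertex is small -/
theorem bad_W {y : V} (hy : y ∉ Gd) :
    nu w ((cheap G w (1 / 10 ^ 36) y).filter (fun z => T2 G w Gd (1 / 10 ^ 39) z))
      ≤ 1 / 10 ^ 100 := by
  have hw := h.wnn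
  set W := (cheap G w (1 / 10 ^ 36) y).filter (fun z => T2 G w Gd (1 / 10 ^ 39) z) with hW
  set F : Finset (Finset V) := (univ : Finset (Finset V)).filter (fun C =>
    (∃ z i, T2 G w Gd (1 / 10 ^ 39) z ∧ C = Mc w H Gd z i) ∧
      1 / 10 ^ 38 ≤ nu w (cn G y ∩ C)) with hF
  have hF1 : ∀ C ∈ F, ∃ z i, T2 G w Gd (1 / 10 ^ 39) z ∧ C = Mc w H Gd z i :=
    fun C hC => (mem_filter.1 hC).2.1
  -- number of clusters
  have hsum : (∑ C ∈ F, nu w (cn G y ∩ C)) ≤ 2 * nu w (cn G y) := by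
    have e1 : (∑ C ∈ F, nu w (cn G y ∩ C))
        = ∑ x ∈ cn G y, w x * ((F.filter (fun C => x ∈ C)).card : ℝ) := by
      have e2 : ∀ C : Finset V, nu w (cn G y ∩ C)
          = ∑ x ∈ cn G y, if x ∈ C then w x else 0 := by
        intro C
        rw [nu, ← sum_filter, filter_mem_eq_inter]
      rw [sum_congr rfl (fun C _ => e2 C), sum_comm]
      refine sum_congr rfl (fun x _ => ?_)
      rw [← sum_filter, sum_const, nsmul_eq_mul, mul_comm]
    rw [e1, nu, mul_sum]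
    refine sum_le_sum (fun x _ => ?_)
    rw [mul_comm]
    refine mul_le_mul_of_nonneg_right ?_ (hw x)
    exact_mod_cast bad_two h hH F hF1 x
  have hcard : (F.card : ℝ) ≤ 3 * 10 ^ 38 := by
    have h1 : (F.card : ℝ) * (1 / 10 ^ 38) ≤ ∑ C ∈ F, nu w (cn G y ∩ C) := by
      rw [← nsmul_eq_mul]
      exact card_nsmul_le_sum _ _ _ (fun C hC => (mem_filter.1 hC).2.2)
    have h2 := h.cls y
    have hβ : β ≤ 1 / 100 := h.βsm.trans (by norm_num)
    have h3 : (F.card : ℝ) * (1 / 10 ^ 38) ≤ 3 := by linarith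
    have h4 : (F.card : ℝ) * (1 / 10 ^ 38) * 10 ^ 38 ≤ 3 * 10 ^ 38 :=
      mul_le_mul_of_nonneg_right h3 (by positivity)
    have h5 : (F.card : ℝ) * (1 / 10 ^ 38) * 10 ^ 38 = F.card := by
      rw [mul_assoc, one_div_mul_cancel (by positivity), mul_one]
    linarith
  -- number of centres
  have hWc : W.card ≤ (F ×ˢ F).card := by
    refine card_le_card_of_injOn (fun z => (Mc w H Gd z true, Mc w H Gd z false)) ?_ ?_
    · intro z hz
      rw [mem_coe, hW, mem_filter] at hz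
      rw [mem_coe, mem_product]
      constructor
      · rw [hF, mem_filter]
        exact ⟨mem_univ _, ⟨z, true, hz.2, rfl⟩, bad_both h hH hy hz.2 hz.1 false⟩
      · rw [hF, mem_filter]
        exact ⟨mem_univ _, ⟨z, false, hz.2, rfl⟩, bad_both h hH hy hz.2 hz.1 true⟩
    · intro z hz z' hz' hzz
      rw [mem_coe, hW, mem_filter] at hz hz'
      simp only [Prod.mk.injEq] at hzz
      have h1 := clu_inter h hH hz.2
      have h2 := clu_inter h hH hz'.2
      rw [hzz.1, hzz.2, h2] at h1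
      exact (singleton_injective h1).symm
  have hWc' : (W.card : ℝ) ≤ (3 * 10 ^ 38) * (3 * 10 ^ 38) := by
    have h1 : (W.card : ℝ) ≤ (F.card : ℝ) * F.card := by
      rw [card_product] at hWc
      exact_mod_cast hWc
    refine h1.trans (mul_le_mul hcard hcard (by positivity) (by positivity))
  have h1 : nu w W ≤ W.card • β := sum_le_card_nsmul _ _ _ (fun y _ => h.whi y)
  rw [nsmul_eq_mul] at h1
  have h2 : (W.card : ℝ) * β ≤ ((3 * 10 ^ 38) * (3 * 10 ^ 38)) * (1 / 10 ^ 200) :=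
    mul_le_mul hWc' h.βsm h.βpos.le (by positivity)
  have h3 : (((3 * 10 ^ 38) * (3 * 10 ^ 38)) * (1 / 10 ^ 200) : ℝ) ≤ 1 / 10 ^ 100 := by norm_num
  linarith

end

theorem bad_core {G : SimpleGraph V} {w : V → ℝ} {w0 β η : ℝ} {C0 : ℕ} (h : NG G w w0 β η C0)
    (K : ℕ) (hβK : β * K ≤ 1 / 10 ^ 200)
    (hK : ∀ z, (univ.filter (fun y =>
      ee G w (cn G y \ cn G z) (cn G y \ cn G z) < 1 / 4 - 1 / 10 ^ 36)).card < K)
    (hsplit : ∀ y, nu w (cheap G w (1 / 10 ^ 36) y) ≤ 1 / 10 ^ 36 →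
      ∃ Y : Bool → Finset V, Spl G w (1 / 1000) y Y) :
    ∀ y, nu w (cheap G w (1 / 10 ^ 36) y) ≤ 1 / 10 ^ 36 := by
  set Gd : Finset V := univ.filter (fun y => nu w (cheap G w (1 / 10 ^ 36) y) ≤ 1 / 10 ^ 36)
    with hGd
  have hex : ∀ y, ∃ Y : Bool → Finset V, y ∈ Gd → Spl G w (1 / 1000) y Y := by
    intro y
    by_cases hy : y ∈ Gd
    · obtain ⟨Y, hY⟩ := hsplit y (mem_filter.1 hy).2
      exact ⟨Y, fun _ => hY⟩
    · exact ⟨fun _ => ∅, fun hh => absurd hh hy⟩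
  choose H hH using hex
  by_contra hcon
  push Not at hcon
  obtain ⟨y0, hy0⟩ := hcon
  have hne : Gdᶜ.Nonempty := by
    refine ⟨y0, ?_⟩
    rw [mem_compl]
    intro hh
    exact absurd (mem_filter.1 hh).2 (not_le.2 hy0)
  obtain ⟨y, hy, hy1⟩ := bad_exists h K hβK hK Gd hne
  have hyG : y ∉ Gd := mem_compl.1 hy
  have h2 := bad_W h hH hyG
  have hw := h.wnn
  apply hyG
  rw [hGd, mem_filter]
  refine ⟨mem_univ _, ?_⟩
  have h3 : cheap G w (1 / 10 ^ 36) y ⊆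
      ((cheap G w (1 / 10 ^ 36) y).filter (fun z => T2 G w Gd (1 / 10 ^ 39) z)) ∪
      ((cheap G w (1 / 10 ^ 36) y).filter (fun z => ¬ T2 G w Gd (1 / 10 ^ 39) z)) := by
    intro z hz
    rw [mem_union, mem_filter, mem_filter]
    tauto
  have h4 := nu_le_of_subset_union hw h3
  have h5 : (1 / 10 ^ 100 + 1 / 10 ^ 100 : ℝ) ≤ 1 / 10 ^ 36 := by norm_num
  linarith

end Pool.Agent.Lib.MP_4d044e_co.TW
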