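import Pool.Agent.Lib.MP_4d044e_co.TW.Defs

/-! Basic lemmas on `nu`, `ee`, `cn`. -/

set_option autoImplicit false
set_option linter.unusedSectionVars false

namespace Pool.Agent.Lib.MP_4d044e_co.TW

open Finset
open scoped Classical

variable {V : Type} [Fintype V] [DecidableEq V]

/-! ### neighbourhoods -/

theorem mem_nbr {G : SimpleGraph V} {u v : V} : u ∈ nbr G v ↔ G.Adj v u := by
  simp [nbr]

theorem mem_cn {G : SimpleGraph V} {u v : V} : u ∈ cn G v ↔ u = v ∨ G.Adj v u := by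
  simp [cn, mem_nbr]

theorem self_mem_cn (G : SimpleGraph V) (v : V) : v ∈ cn G v := by
  simp [cn]

theorem mem_cn_comm {G : SimpleGraph V} {u v : V} : u ∈ cn G v ↔ v ∈ cn G u := by
  rw [mem_cn, mem_cn]
  constructor
  · rintro (h | h)
    · exact Or.inl h.symm
    · exact Or.inr h.symm
  · rintro (h | h)
    · exact Or.inl h.symm
    · exact Or.inr h.symm

theorem mem_cN {G : SimpleGraph V} {T : Finset V} {u : V} :
    u ∈ cN G T ↔ ∃ t ∈ T, u ∈ cn G t := by
  simp [cN]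

theorem nbr_subset_cn (G : SimpleGraph V) (v : V) : nbr G v ⊆ cn G v := by
  intro u hu; rw [cn]; exact mem_insert_of_mem hu

theorem not_mem_nbr_self (G : SimpleGraph V) (v : V) : v ∉ nbr G v := by
  simp [mem_nbr]

/-! ### nu -/

section nu
variable {w : V → ℝ} (hw : ∀ v, 0 ≤ w v)

theorem nu_empty : nu w ∅ = 0 := by simp [nu]

theorem nu_singleton (v : V) : nu w {v} = w v := by simp [nu]

include hw in
theorem nu_nonneg (X : Finset V) : 0 ≤ nu w X := sum_nonneg fun v _ => hw v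

include hw in
theorem nu_mono {X Y : Finset V} (h : X ⊆ Y) : nu w X ≤ nu w Y :=
  sum_le_sum_of_subset_of_nonneg h fun v _ _ => hw v

include hw in
theorem nu_union_le (X Y : Finset V) : nu w (X ∪ Y) ≤ nu w X + nu w Y := by
  have := sum_union_inter (s₁ := X) (s₂ := Y) (f := w)
  have h2 := nu_nonneg hw (X ∩ Y)
  unfold nu at *
  linarith

theorem nu_union_of_disjoint {X Y : Finset V} (h : Disjoint X Y) :
    nu w (X ∪ Y) = nu w X + nu w Y := sum_union h

theorem nu_inter_add_sdiff (X Y : Finset V) : nu w (X ∩ Y) + nu w (X \ Y) = nu w X :=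
  sum_inter_add_sum_sdiff X Y w

theorem nu_sdiff_of_subset {X Y : Finset V} (h : Y ⊆ X) : nu w (X \ Y) = nu w X - nu w Y := by
  have := nu_inter_add_sdiff (w := w) X Y
  rw [inter_eq_right.mpr h] at this
  linarith

include hw in
theorem nu_insert_le (v : V) (X : Finset V) : nu w (insert v X) ≤ w v + nu w X := by
  rw [insert_eq]
  calc nu w ({v} ∪ X) ≤ nu w {v} + nu w X := nu_union_le hw _ _
    _ = _ := by rw [nu_singleton]

include hw in
theorem nu_le_of_subset_union {X Y Z : Finset V} (h : X ⊆ Y ∪ Z) :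
    nu w X ≤ nu w Y + nu w Z :=
  (nu_mono hw h).trans (nu_union_le hw Y Z)

include hw in
/-- triangle inequality for differences -/
theorem nu_sdiff_le (X Y Z : Finset V) : nu w (X \ Z) ≤ nu w (X \ Y) + nu w (Y \ Z) := by
  apply nu_le_of_subset_union hw
  intro v hv
  simp only [mem_sdiff, mem_union] at *
  tauto

include hw in
/-- if `nu X > sum of the masses`, then there is an element outside -/
theorem exists_mem_of_nu_pos {X : Finset V} (h : 0 < nu w X) : ∃ v ∈ X, 0 < w v := by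
  by_contra hcon
  push Not at hcon
  have : nu w X ≤ 0 := sum_nonpos fun v hv => hcon v hv
  linarith

end nu

/-! ### ee -/

section ee
variable {G : SimpleGraph V} {w : V → ℝ} (hw : ∀ v, 0 ≤ w v)

theorem ee_eq (X Y : Finset V) : ee G w X Y = ∑ u ∈ X, w u * nu w (nbr G u ∩ Y) := by
  unfold ee nu
  apply sum_congr rfl
  intro u _
  rw [mul_sum, nbr, filter_inter, univ_inter, sum_filter]

theorem ee_comm (X Y : Finset V) : ee G w X Y = ee G w Y X := by
  unfold ee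
  rw [sum_comm]
  apply sum_congr rfl; intro u _
  apply sum_congr rfl; intro v _
  by_cases h : G.Adj u v
  · rw [if_pos h, if_pos h.symm, mul_comm]
  · rw [if_neg h, if_neg (fun h' => h h'.symm)]

include hw in
theorem ee_nonneg (X Y : Finset V) : 0 ≤ ee G w X Y := by
  unfold ee
  refine sum_nonneg fun u _ => sum_nonneg fun v _ => ?_
  split_ifs
  · exact mul_nonneg (hw u) (hw v)
  · exact le_rfl

include hw in
theorem ee_mono {X X' Y Y' : Finset V} (hX : X ⊆ X') (hY : Y ⊆ Y') :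
    ee G w X Y ≤ ee G w X' Y' := by
  rw [ee_eq, ee_eq]
  calc ∑ u ∈ X, w u * nu w (nbr G u ∩ Y) ≤ ∑ u ∈ X, w u * nu w (nbr G u ∩ Y') :=
        sum_le_sum fun u _ => mul_le_mul_of_nonneg_left
          (nu_mono hw (inter_subset_inter_left hY)) (hw u)
    _ ≤ _ := sum_le_sum_of_subset_of_nonneg hX fun u _ _ =>
        mul_nonneg (hw u) (nu_nonneg hw _)

theorem ee_union_left {X X' : Finset V} (Y : Finset V) (h : Disjoint X X') :
    ee G w (X ∪ X') Y = ee G w X Y + ee G w X' Y := by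
  unfold ee
  rw [sum_union h]

include hw in
theorem ee_union_left_le (X X' Y : Finset V) :
    ee G w (X ∪ X') Y ≤ ee G w X Y + ee G w X' Y := by
  rw [ee_eq, ee_eq, ee_eq]
  have := sum_union_inter (s₁ := X) (s₂ := X') (f := fun u => w u * nu w (nbr G u ∩ Y))
  have h2 : 0 ≤ ∑ u ∈ X ∩ X', w u * nu w (nbr G u ∩ Y) :=
    sum_nonneg fun u _ => mul_nonneg (hw u) (nu_nonneg hw _)
  linarith

include hw in
theorem ee_union_right_le (X Y Y' : Finset V) :
    ee G w X (Y ∪ Y') ≤ ee G w X Y + ee G w X Y' := by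
  rw [ee_comm, ee_comm X Y, ee_comm X Y']
  exact ee_union_left_le hw _ _ _

include hw in
/-- `e(X ∪ D) ≤ e(X) + 2 e(D, X ∪ D)` -/
theorem ee_union_self_le (X D : Finset V) :
    ee G w (X ∪ D) (X ∪ D) ≤ ee G w X X + 2 * ee G w D (X ∪ D) := by
  have h1 := ee_union_left_le (G := G) hw X D (X ∪ D)
  have h2 := ee_union_right_le (G := G) hw X X D
  have h3 : ee G w X D ≤ ee G w D (X ∪ D) := by
    rw [ee_comm]
    exact ee_mono hw (Subset.refl _) subset_union_left
  linarith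

include hw in
theorem ee_le_nu_mul_nu (X Y : Finset V) : ee G w X Y ≤ nu w X * nu w Y := by
  rw [ee_eq]
  calc ∑ u ∈ X, w u * nu w (nbr G u ∩ Y) ≤ ∑ u ∈ X, w u * nu w Y :=
        sum_le_sum fun u _ => mul_le_mul_of_nonneg_left (nu_mono hw inter_subset_right) (hw u)
    _ = _ := by rw [← sum_mul]; rfl

include hw in
theorem ee_le_of_contact (X Y : Finset V) (t : ℝ) (h : ∀ u ∈ X, nu w (nbr G u ∩ Y) ≤ t) :
    ee G w X Y ≤ nu w X * t := by
  rw [ee_eq]
  calc ∑ u ∈ X, w u * nu w (nbr G u ∩ Y) ≤ ∑ u ∈ X, w u * t :=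
        sum_le_sum fun u hu => mul_le_mul_of_nonneg_left (h u hu) (hw u)
    _ = _ := by rw [← sum_mul]; rfl

end ee

/-! ### miss -/

section miss
variable {G : SimpleGraph V} {w : V → ℝ} (hw : ∀ v, 0 ≤ w v)

include hw in
theorem miss_nonneg (Q : Finset V) : 0 ≤ miss G w Q := by
  unfold miss
  refine sum_nonneg fun u _ => sum_nonneg fun v _ => ?_
  split_ifs
  · exact mul_nonneg (hw u) (hw v)
  · exact le_rfl

theorem miss_clique {Q : Finset V} (h : ∀ u ∈ Q, ∀ v ∈ Q, u ≠ v → G.Adj u v) :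
    miss G w Q = 0 := by
  unfold miss
  refine sum_eq_zero fun u hu => sum_eq_zero fun v hv => ?_
  rw [if_neg]
  rintro ⟨h1, h2⟩
  exact h2 (h u hu v hv h1)

theorem miss_eq (Q : Finset V) : miss G w Q = ∑ u ∈ Q, w u * nu w (Q \ cn G u) := by
  unfold miss nu
  apply sum_congr rfl
  intro u _
  rw [mul_sum, sdiff_eq_filter, sum_filter]
  apply sum_congr rfl
  intro v _
  have : (u ≠ v ∧ ¬ G.Adj u v) ↔ v ∉ cn G u := by
    rw [mem_cn]; push Not
    constructor
    · rintro ⟨h1, h2⟩; exact ⟨h1.symm, h2⟩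
    · rintro ⟨h1, h2⟩; exact ⟨h1.symm, h2⟩
  by_cases h : v ∉ cn G u
  · rw [if_pos (this.mpr h), if_pos h]
  · rw [if_neg (fun h' => h (this.mp h')), if_neg h]

include hw in
theorem miss_mono {Q Q' : Finset V} (h : Q ⊆ Q') : miss G w Q ≤ miss G w Q' := by
  rw [miss_eq, miss_eq]
  calc ∑ u ∈ Q, w u * nu w (Q \ cn G u) ≤ ∑ u ∈ Q, w u * nu w (Q' \ cn G u) :=
        sum_le_sum fun u _ => mul_le_mul_of_nonneg_left
          (nu_mono hw (sdiff_subset_sdiff h (Subset.refl _))) (hw u)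
    _ ≤ _ := sum_le_sum_of_subset_of_nonneg h fun u _ _ =>
        mul_nonneg (hw u) (nu_nonneg hw _)

include hw in
theorem miss_le_of_inn (Q : Finset V) (t : ℝ) (h : ∀ u ∈ Q, nu w (Q \ cn G u) ≤ t) :
    miss G w Q ≤ nu w Q * t := by
  rw [miss_eq]
  calc ∑ u ∈ Q, w u * nu w (Q \ cn G u) ≤ ∑ u ∈ Q, w u * t :=
        sum_le_sum fun u hu => mul_le_mul_of_nonneg_left (h u hu) (hw u)
    _ = _ := by rw [← sum_mul]; rfl

include hw in
/-- `miss (Q ∪ D) ≤ miss Q + 2 nu D nu (Q ∪ D)` -/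
theorem miss_union_le (Q D : Finset V) :
    miss G w (Q ∪ D) ≤ miss G w Q + 2 * (nu w D * nu w (Q ∪ D)) := by
  have key : ∀ X Y : Finset V, (∑ u ∈ X, ∑ v ∈ Y, if u ≠ v ∧ ¬ G.Adj u v then w u * w v else 0)
      ≤ nu w X * nu w Y := by
    intro X Y
    unfold nu
    rw [sum_mul_sum]
    refine sum_le_sum fun u _ => sum_le_sum fun v _ => ?_
    split_ifs
    · exact le_rfl
    · exact mul_nonneg (hw u) (hw v)
  have hsplit : ∀ f : V → ℝ, (∀ v, 0 ≤ f v) → ∑ v ∈ Q ∪ D, f v ≤ ∑ v ∈ Q, f v + ∑ v ∈ D, f v := by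
    intro f hf
    have h1 := sum_union_inter (s₁ := Q) (s₂ := D) (f := f)
    have h2 : 0 ≤ ∑ v ∈ Q ∩ D, f v := sum_nonneg fun v _ => hf v
    linarith
  have hnn : ∀ u v : V, 0 ≤ (if u ≠ v ∧ ¬ G.Adj u v then w u * w v else 0) := by
    intro u v
    split_ifs
    · exact mul_nonneg (hw u) (hw v)
    · exact le_rfl
  have h1 : miss G w (Q ∪ D) ≤ (∑ u ∈ Q, ∑ v ∈ Q ∪ D, if u ≠ v ∧ ¬ G.Adj u v then w u * w v else 0)
      + (∑ u ∈ D, ∑ v ∈ Q ∪ D, if u ≠ v ∧ ¬ G.Adj u v then w u * w v else 0) := by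
    unfold miss
    exact hsplit _ fun u => sum_nonneg fun v _ => hnn u v
  have h2 : (∑ u ∈ Q, ∑ v ∈ Q ∪ D, if u ≠ v ∧ ¬ G.Adj u v then w u * w v else 0)
      ≤ miss G w Q + ∑ u ∈ Q, ∑ v ∈ D, if u ≠ v ∧ ¬ G.Adj u v then w u * w v else 0 := by
    unfold miss
    rw [← sum_add_distrib]
    exact sum_le_sum fun u _ => hsplit _ fun v => hnn u v
  have h3 := key Q D
  have h4 := key D (Q ∪ D)
  have h5 : nu w Q * nu w D ≤ nu w D * nu w (Q ∪ D) := by
    rw [mul_comm]
    exact mul_le_mul_of_nonneg_left (nu_mono hw subset_union_left) (nu_nonneg hw _)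
  linarith

end miss

/-! ### facts from NG -/

section ng
variable {G : SimpleGraph V} {w : V → ℝ} {w0 β η : ℝ} {C0 : ℕ}

theorem NG.wpos (h : NG G w w0 β η C0) (v : V) : 0 < w v := by
  have h1 := h.wlo v
  have h2 := h.w0pos
  have : 0 < w0 * (99 / 100) := by positivity
  linarith

theorem NG.wnn (h : NG G w w0 β η C0) (v : V) : 0 ≤ w v := (h.wpos v).le

theorem NG.βpos (h : NG G w w0 β η C0) : 0 < β := lt_of_lt_of_le h.w0pos h.w0β

theorem NG.nbr_le (h : NG G w w0 β η C0) (v : V) : nu w (nbr G v) ≤ 1 + 2 * β :=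
  (nu_mono h.wnn (nbr_subset_cn G v)).trans (h.cls v)

/-- `e(X, Y) ≤ nu X (1 + 2 β)` -/
theorem NG.ee_le (h : NG G w w0 β η C0) (X Y : Finset V) :
    ee G w X Y ≤ nu w X * (1 + 2 * β) :=
  ee_le_of_contact h.wnn X Y _ fun u _ =>
    (nu_mono h.wnn inter_subset_left).trans (h.nbr_le u)

/-- `e(X) ≤ e(X') + 2 (1 + 2β) nu(X - X')` for `X' ⊆ X` -/
theorem NG.ee_sub_le (h : NG G w w0 β η C0) {X X' : Finset V} (hX : X' ⊆ X) :
    ee G w X X ≤ ee G w X' X' + 2 * (nu w (X \ X') * (1 + 2 * β)) := by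
  have h1 := ee_union_self_le (G := G) h.wnn X' (X \ X')
  rw [union_sdiff_of_subset hX] at h1
  have h2 := h.ee_le (X \ X') X
  linarith

end ng

end Pool.Agent.Lib.MP_4d044e_co.TW
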