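import Pool.Agent.Lib.MP_4d044e_co.TW.BAS

/-! Consistency of near-cliques with the halves of a split vertex. -/

set_option autoImplicit false
set_option linter.unusedSectionVars false

namespace Pool.Agent.Lib.MP_4d044e_co.TW

open Finset
open scoped Classical

variable {V : Type} [Fintype V] [DecidableEq V]

theorem NG.β_small {G : SimpleGraph V} {w : V → ℝ} {w0 β η : ℝ} {C0 : ℕ}
    (h : NG G w w0 β η C0) : β ≤ 1 / 10 ^ 6 := by
  refine h.βsm.trans ?_
  norm_num

theorem NG.cls' {G : SimpleGraph V} {w : V → ℝ} {w0 β η : ℝ} {C0 : ℕ}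
    (h : NG G w w0 β η C0) (v : V) : nu w (cn G v) ≤ 1 + 2 / 10 ^ 6 := by
  have := h.cls v
  have h2 := h.β_small
  linarith

/-- the rest of the neighbourhood outside both halves -/
theorem spl_rest {G : SimpleGraph V} {w : V → ℝ} {w0 β η : ℝ} {C0 : ℕ}
    (h : NG G w w0 β η C0) {y : V} {Y : Bool → Finset V} (hY : Spl G w (1 / 1000) y Y) :
    nu w (cn G y \ (Y true ∪ Y false)) ≤ 21 / 10000 := by
  have hsub : Y true ∪ Y false ⊆ cn G y := union_subset (hY.sub true) (hY.sub false)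
  rw [nu_sdiff_of_subset hsub, nu_union_of_disjoint hY.disj]
  have h1 := hY.lo true
  have h2 := hY.lo false
  have h3 := h.cls' y
  norm_num at *
  linarith

theorem Spl.nc {G : SimpleGraph V} {w : V → ℝ} {ε : ℝ} {y : V} {Y : Bool → Finset V}
    (hY : Spl G w ε y Y) (i : Bool) : NC G w ε (Y i) :=
  ⟨hY.lo i, hY.hi i, hY.inn i⟩

theorem cons {G : SimpleGraph V} {w : V → ℝ} {w0 β η : ℝ} {C0 : ℕ} (h : NG G w w0 β η C0)
    {y : V} {Y : Bool → Finset V} {Z : Finset V} (hY : Spl G w (1 / 1000) y Y)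
    (hZ : NC G w (1 / 1000) Z) (hZy : nu w (Z \ cn G y) ≤ 1 / 1000) :
    ∃ i, Z ∩ Y (!i) = ∅ ∧ nu w (Z \ Y i) ≤ 4 / 1000 ∧ nu w (Y i \ Z) ≤ 6 / 1000 := by
  have hJ := spl_rest h hY
  have hnn := h.wnn
  have key : ∀ i, (Z ∩ Y i).Nonempty → nu w (Z ∩ Y (!i)) ≤ 2 / 1000 := by
    rintro i ⟨u, hu⟩
    rw [mem_inter] at hu
    have h1 : Z ∩ Y (!i) ⊆ (cn G u ∩ Y (!i)) ∪ (Z \ cn G u) := by
      intro v hv
      simp only [mem_inter, mem_union, mem_sdiff] at *
      tauto
    have h2 := nu_le_of_subset_union hnn h1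
    have h3 := hY.cross i u hu.2
    have h4 := hZ.inn u hu.1
    linarith
  have hcover : nu w Z ≤ nu w (Z ∩ Y true) + nu w (Z ∩ Y false)
      + nu w (cn G y \ (Y true ∪ Y false)) + nu w (Z \ cn G y) := by
    have h1 : Z ⊆ ((Z ∩ Y true) ∪ (Z ∩ Y false)) ∪ ((cn G y \ (Y true ∪ Y false)) ∪ (Z \ cn G y)) := by
      intro v hv
      simp only [mem_inter, mem_union, mem_sdiff]
      tauto
    have h2 := nu_le_of_subset_union hnn h1
    have h3 := nu_union_le hnn (Z ∩ Y true) (Z ∩ Y false)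
    have h4 := nu_union_le hnn (cn G y \ (Y true ∪ Y false)) (Z \ cn G y)
    linarith
  have hlo := hZ.lo
  have hex : ∃ i, Z ∩ Y (!i) = ∅ := by
    by_cases h1 : (Z ∩ Y false) = ∅
    · exact ⟨true, h1⟩
    · refine ⟨false, ?_⟩
      by_contra h2
      have h3 := key false (nonempty_iff_ne_empty.mpr h1)
      have h4 := key true (nonempty_iff_ne_empty.mpr h2)
      simp only [Bool.not_false, Bool.not_true] at h3 h4
      linarith
  obtain ⟨i, hi⟩ := hex
  have hZi : nu w (Z \ Y i) ≤ 4 / 1000 := by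
    have h1 : Z \ Y i ⊆ (cn G y \ (Y true ∪ Y false)) ∪ (Z \ cn G y) := by
      intro v hv
      have h5 : v ∉ Z ∩ Y (!i) := by rw [hi]; simp
      cases i <;> simp only [mem_inter, mem_union, mem_sdiff, Bool.not_true, Bool.not_false] at * <;> tauto
    have h2 := nu_le_of_subset_union hnn h1
    linarith
  refine ⟨i, hi, hZi, ?_⟩
  have h1 := nu_inter_add_sdiff (w := w) (Y i) Z
  have h2 := nu_inter_add_sdiff (w := w) Z (Y i)
  rw [inter_comm] at h2
  have h3 := hY.hi i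
  linarith

end Pool.Agent.Lib.MP_4d044e_co.TW
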