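import Pool.Agent.Lib.MP_4d044e_co.TW.Defs

/-! The structure `CS` of the Spec, imported by STR, WTS, TRA, IDN, FIN. -/

set_option autoImplicit false

namespace Pool.Agent.Lib.MP_4d044e_co.TW

open Finset
open scoped Classical

variable {V : Type} [Fintype V] [DecidableEq V]

/-- the final cluster system (Spec of helper52) -/
structure CS (G : SimpleGraph V) (w : V → ℝ) (CC : Finset (Finset V)) : Prop where
  clique : ∀ C ∈ CC, ∀ u ∈ C, ∀ v ∈ C, u ≠ v → G.Adj u v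
  two : ∀ v, (CC.filter (fun C => v ∈ C)).card = 2
  share : ∀ C ∈ CC, ∀ C' ∈ CC, C ≠ C' → (C ∩ C').card ≤ 1
  lo : ∀ C ∈ CC, 49 / 100 ≤ nu w C
  hi : ∀ C ∈ CC, nu w C ≤ 51 / 100
  xdeg : ∀ v, nu w ((nbr G v).filter (fun u => ¬ ∃ C ∈ CC, v ∈ C ∧ u ∈ C)) ≤ 1 / 10 ^ 37
  contact : ∀ C ∈ CC, ∀ x, x ∉ C → nu w (cn G x ∩ C) ≤ 20 / 1000

end Pool.Agent.Lib.MP_4d044e_co.TW
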