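import Pool.Agent.Lib.MP_4d044e_co.TW.Defs

/-!
Cutting a graph of bounded tree-width into small pieces (blueprint, section 10).
`A K` is the mass of the pieces which are already attached to the clique `K`.
-/

set_option autoImplicit false

namespace Pool.Agent.Lib.MP_4d044e_co.TW

open Finset
open scoped Classical

variable {V : Type} [Fintype V] [DecidableEq V]

theorem cut_aux {k : ℕ} {G : SimpleGraph V} {R : Finset V} (h : Good k G R) {s : ℕ}
    (hs : 1 ≤ s) : ∀ A : Finset V → ℕ,
    (∀ K, A K ≠ 0 → K ⊆ R ∧ ∀ u ∈ K, ∀ v ∈ K, u ≠ v → G.Adj u v) →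
    ∃ D, D ⊆ R ∧ s * D.card ≤ (k + 1) * (R.card + ∑ K, A K) ∧ ∃ lab : V → ℕ,
      (∀ u ∈ R \ D, ∀ v ∈ R \ D, G.Adj u v → lab u = lab v) ∧
      ∀ l, ((R \ D).filter (fun x => lab x = l)).card +
        ∑ K ∈ univ.filter (fun K : Finset V => ∃ x ∈ K \ D, lab x = l), A K < s := by
  induction h with
  | empty G =>
    intro A hA
    refine ⟨∅, subset_rfl, by simp, fun _ => 0, by simp, fun l => ?_⟩
    have h1 : ∑ K ∈ univ.filter (fun K : Finset V => ∃ x ∈ K \ ∅, (fun _ : V => 0) x = l), A K
        = 0 := by
      apply Finset.sum_eq_zero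
      intro K hK
      by_contra h0
      obtain ⟨x, hx, -⟩ := (Finset.mem_filter.1 hK).2
      have h2 := (hA K h0).1 (Finset.mem_sdiff.1 hx).1
      simp at h2
    rw [h1]
    simp
    omega
  | step G R K t ht hK hc hN hR ih =>
    intro A hA
    set acc : ℕ := 1 + ∑ K' ∈ univ.filter (fun K' : Finset V => t ∈ K'), A K' with hacc
    have hsplit : ∑ K', A K' = (∑ K' ∈ univ.filter (fun K' : Finset V => t ∈ K'), A K') +
        ∑ K' ∈ univ.filter (fun K' : Finset V => ¬ t ∈ K'), A K' :=
      (Finset.sum_filter_add_sum_filter_not _ _ _).symm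
    have hnt : ∀ K' : Finset V, A K' ≠ 0 → t ∉ K' → K' ⊆ R := by
      intro K' h0 h1 x hx
      rcases Finset.mem_insert.1 ((hA K' h0).1 hx) with rfl | h2
      · exact absurd hx h1
      · exact h2
    have hin : ∀ K' : Finset V, A K' ≠ 0 → t ∈ K' → ∀ x ∈ K', x ≠ t → x ∈ K := by
      intro K' h0 h1 x hx hxt
      have h2 : G.Adj t x := (hA K' h0).2 t h1 x hx (Ne.symm hxt)
      have h3 : x ∈ R := (Finset.mem_insert.1 ((hA K' h0).1 hx)).resolve_left hxt
      exact hN x h3 h2
    have hcard : (insert t R).card = R.card + 1 := Finset.card_insert_of_notMem ht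
    by_cases hlt : acc < s
    · -- the piece of `t` is attached to `K`
      set A' : Finset V → ℕ := fun K' => (if t ∈ K' then 0 else A K') + (if K' = K then acc else 0)
        with hA'
      obtain ⟨D, hD, hDc, lab, hlab, hcls⟩ := ih A' (by
        intro K' h0
        by_cases h1 : K' = K
        · subst h1
          exact ⟨hK, fun u hu v hv huv => Or.inr ⟨huv, hu, hv⟩⟩
        · have h2 : t ∉ K' := by
            intro h3
            simp [hA', h1, h3] at h0
          have h3 : A K' ≠ 0 := by
            simpa [hA', h1, h2] using h0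
          exact ⟨hnt K' h3 h2, fun u hu v hv huv => Or.inl ((hA K' h3).2 u hu v hv huv)⟩)
      have htD : t ∉ D := fun h => ht (hD h)
      have hsum : ∑ K', A' K' = (∑ K' ∈ univ.filter (fun K' : Finset V => ¬ t ∈ K'), A K') + acc := by
        simp only [hA', Finset.sum_add_distrib]
        congr 1
        · rw [Finset.sum_filter]
          apply Finset.sum_congr rfl
          intro K' _
          by_cases h1 : t ∈ K' <;> simp [h1]
        · simp
      -- the label of `t`
      obtain ⟨lt, hlt1, hlt2⟩ : ∃ lt : ℕ, (∀ x ∈ K \ D, lab x = lt) ∧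
          (K \ D = ∅ → ∀ x, lab x ≠ lt) := by
        rcases (K \ D).eq_empty_or_nonempty with h0 | ⟨x, hx⟩
        · refine ⟨(univ.sup lab) + 1, by simp [h0], fun _ x h1 => ?_⟩
          have h2 : lab x ≤ univ.sup lab := Finset.le_sup (Finset.mem_univ x)
          omega
        · refine ⟨lab x, fun y hy => ?_, fun h0 => ?_⟩
          · by_cases hxy : y = x
            · rw [hxy]
            · have h1 := Finset.mem_sdiff.1 hx
              have h2 := Finset.mem_sdiff.1 hy
              exact hlab y (Finset.mem_sdiff.2 ⟨hK h2.1, h2.2⟩) x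
                (Finset.mem_sdiff.2 ⟨hK h1.1, h1.2⟩) (Or.inr ⟨hxy, h2.1, h1.1⟩)
          · rw [h0] at hx
            simp at hx
      set lab' : V → ℕ := fun x => if x = t then lt else lab x with hlab'
      have hl1 : lab' t = lt := by simp [hlab']
      have hl2 : ∀ x, x ≠ t → lab' x = lab x := fun x hx => by simp [hlab', hx]
      refine ⟨D, hD.trans (Finset.subset_insert _ _), ?_, lab', ?_, ?_⟩
      · rw [hcard]
        refine hDc.trans (Nat.mul_le_mul_left _ ?_)
        rw [hsum, hsplit, hacc]
        omega
      · -- edges
        have key : ∀ v ∈ insert t R \ D, G.Adj t v → lab' v = lt := by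
          intro v hv hadj
          obtain ⟨hv1, hv2⟩ := Finset.mem_sdiff.1 hv
          have hvt : v ≠ t := fun h => by rw [h] at hadj; exact hadj.ne rfl
          have hvR : v ∈ R := (Finset.mem_insert.1 hv1).resolve_left hvt
          rw [hl2 v hvt]
          exact hlt1 v (Finset.mem_sdiff.2 ⟨hN v hvR hadj, hv2⟩)
        intro u hu v hv hadj
        by_cases h1 : u = t
        · subst h1
          rw [hl1, key v hv hadj]
        · by_cases h2 : v = t
          · subst h2
            rw [hl1, key u hu hadj.symm]
          · obtain ⟨hu1, hu2⟩ := Finset.mem_sdiff.1 hu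
            obtain ⟨hv1, hv2⟩ := Finset.mem_sdiff.1 hv
            have huR : u ∈ R := (Finset.mem_insert.1 hu1).resolve_left h1
            have hvR : v ∈ R := (Finset.mem_insert.1 hv1).resolve_left h2
            rw [hl2 u h1, hl2 v h2]
            exact hlab u (Finset.mem_sdiff.2 ⟨huR, hu2⟩) v (Finset.mem_sdiff.2 ⟨hvR, hv2⟩)
              (Or.inl hadj)
      · -- classes
        intro l
        -- the class of the vertices
        have hc1 : ((insert t R \ D).filter (fun x => lab' x = l)).card =
            ((R \ D).filter (fun x => lab x = l)).card + (if l = lt then 1 else 0) := by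
          have h1 : insert t R \ D = insert t (R \ D) := by
            ext x
            simp only [Finset.mem_sdiff, Finset.mem_insert]
            constructor
            · rintro ⟨h1 | h1, h2⟩
              · exact Or.inl h1
              · exact Or.inr ⟨h1, h2⟩
            · rintro (h1 | ⟨h1, h2⟩)
              · subst h1
                exact ⟨Or.inl rfl, htD⟩
              · exact ⟨Or.inr h1, h2⟩
          have h2 : (R \ D).filter (fun x => lab' x = l) = (R \ D).filter (fun x => lab x = l) := by
            apply Finset.filter_congr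
            intro x hx
            have hxt : x ≠ t := by
              rintro rfl
              exact ht (Finset.mem_sdiff.1 hx).1
            rw [hl2 x hxt]
          rw [h1, Finset.filter_insert, hl1, h2]
          by_cases h3 : l = lt
          · subst h3
            rw [if_pos rfl, if_pos rfl, Finset.card_insert_of_notMem]
            intro h4
            exact ht (Finset.mem_sdiff.1 (Finset.mem_filter.1 h4).1).1
          · rw [if_neg (Ne.symm h3), if_neg h3, add_zero]
        -- the attached pieces
        have hc2 : ∑ K' ∈ univ.filter (fun K' : Finset V => ∃ x ∈ K' \ D, lab' x = l), A K' ≤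
            (∑ K' ∈ univ.filter (fun K' : Finset V => ¬ t ∈ K' ∧ ∃ x ∈ K' \ D, lab x = l), A K') +
            (if l = lt then ∑ K' ∈ univ.filter (fun K' : Finset V => t ∈ K'), A K' else 0) := by
          rw [← Finset.sum_filter_add_sum_filter_not _ (fun K' : Finset V => ¬ t ∈ K'),
            Finset.filter_filter, Finset.filter_filter]
          refine Nat.add_le_add ?_ ?_
          · apply Finset.sum_le_sum_of_subset
            intro K' hK'
            obtain ⟨-, ⟨x, hx, hxl⟩, h2⟩ := Finset.mem_filter.1 hK'
            refine Finset.mem_filter.2 ⟨Finset.mem_univ _, h2, x, hx, ?_⟩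
            rw [← hl2 x, hxl]
            rintro rfl
            exact h2 (Finset.mem_sdiff.1 hx).1
          · by_cases h3 : l = lt
            · rw [if_pos h3]
              apply Finset.sum_le_sum_of_subset
              intro K' hK'
              obtain ⟨-, -, h2⟩ := Finset.mem_filter.1 hK'
              exact Finset.mem_filter.2 ⟨Finset.mem_univ _, not_not.1 h2⟩
            · rw [if_neg h3]
              apply le_of_eq
              apply Finset.sum_eq_zero
              intro K' hK'
              by_contra h0
              obtain ⟨-, ⟨x, hx, hxl⟩, h2⟩ := Finset.mem_filter.1 hK'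
              obtain ⟨hx1, hx2⟩ := Finset.mem_sdiff.1 hx
              by_cases hxt : x = t
              · rw [hxt, hl1] at hxl
                exact h3 hxl.symm
              · rw [hl2 x hxt, hlt1 x (Finset.mem_sdiff.2 ⟨hin K' h0 (not_not.1 h2) x hx1 hxt, hx2⟩)]
                  at hxl
                exact h3 hxl.symm
        have hih := hcls l
        have hc3 : ∑ K' ∈ univ.filter (fun K' : Finset V => ∃ x ∈ K' \ D, lab x = l), A' K' =
            (∑ K' ∈ univ.filter (fun K' : Finset V => ¬ t ∈ K' ∧ ∃ x ∈ K' \ D, lab x = l), A K') +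
            (if ∃ x ∈ K \ D, lab x = l then acc else 0) := by
          simp only [hA', Finset.sum_add_distrib]
          congr 1
          · rw [Finset.sum_filter, Finset.sum_filter]
            apply Finset.sum_congr rfl
            intro K' _
            by_cases h1 : t ∈ K'
            · rw [if_pos h1, ite_self, if_neg (fun h => h.1 h1)]
            · rw [if_neg h1]
              by_cases h2 : ∃ x ∈ K' \ D, lab x = l
              · rw [if_pos h2, if_pos ⟨h1, h2⟩]
              · rw [if_neg h2, if_neg (fun h => h2 h.2)]
          · rw [Finset.sum_filter]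
            by_cases h1 : ∃ x ∈ K \ D, lab x = l
            · rw [if_pos h1, Finset.sum_eq_single K]
              · rw [if_pos h1, if_pos rfl]
              · intro K' _ h2
                simp [h2]
              · intro h2
                exact absurd (Finset.mem_univ _) h2
            · rw [if_neg h1]
              apply Finset.sum_eq_zero
              intro K' _
              by_cases h2 : K' = K
              · subst h2
                rw [if_neg h1]
              · simp [h2]
        rw [hc3] at hih
        rw [hc1]
        by_cases h3 : l = lt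
        · rw [if_pos h3] at hc2 ⊢
          rcases (K \ D).eq_empty_or_nonempty with h0 | ⟨x, hx⟩
          · -- a new label
            have h4 := hlt2 h0
            have h5 : ((R \ D).filter (fun x => lab x = l)).card = 0 := by
              rw [Finset.card_eq_zero, Finset.filter_eq_empty_iff]
              intro x _ h6
              exact h4 x (h6.trans h3)
            have h6 : ∑ K' ∈ univ.filter
                (fun K' : Finset V => ¬ t ∈ K' ∧ ∃ x ∈ K' \ D, lab x = l), A K' = 0 := by
              rw [Finset.filter_eq_empty_iff.2, Finset.sum_empty]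
              rintro K' _ ⟨-, x, -, h7⟩
              exact h4 x (h7.trans h3)
            rw [h6] at hc2
            rw [h5]
            omega
          · rw [if_pos ⟨x, hx, (hlt1 x hx).trans h3.symm⟩] at hih
            omega
        · rw [if_neg h3] at hc2 ⊢
          omega
    · -- `t` and `K` are deleted
      set A' : Finset V → ℕ := fun K' => if t ∈ K' then 0 else A K' with hA'
      obtain ⟨D, hD, hDc, lab, hlab, hcls⟩ := ih A' (by
        intro K' h0
        have h2 : t ∉ K' := by
          intro h3
          simp [hA', h3] at h0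
        have h3 : A K' ≠ 0 := by
          simpa [hA', h2] using h0
        exact ⟨hnt K' h3 h2, fun u hu v hv huv => Or.inl ((hA K' h3).2 u hu v hv huv)⟩)
      have hsum : ∑ K', A' K' = ∑ K' ∈ univ.filter (fun K' : Finset V => ¬ t ∈ K'), A K' := by
        rw [Finset.sum_filter]
        apply Finset.sum_congr rfl
        intro K' _
        by_cases h1 : t ∈ K' <;> simp [hA', h1]
      have hsub : insert t R \ (D ∪ insert t K) ⊆ R \ D := by
        intro x hx
        simp only [Finset.mem_sdiff, Finset.mem_union, Finset.mem_insert, not_or] at hx ⊢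
        exact ⟨hx.1.resolve_left hx.2.2.1, hx.2.1⟩
      refine ⟨D ∪ insert t K, ?_, ?_, lab, ?_, ?_⟩
      · apply Finset.union_subset (hD.trans (Finset.subset_insert _ _))
        exact Finset.insert_subset_insert _ hK
      · have h1 : (D ∪ insert t K).card ≤ D.card + (k + 1) := by
          refine (Finset.card_union_le _ _).trans (Nat.add_le_add_left ?_ _)
          exact (Finset.card_insert_le _ _).trans (by omega)
        rw [hcard]
        calc s * (D ∪ insert t K).card ≤ s * (D.card + (k + 1)) := Nat.mul_le_mul_left _ h1
          _ = s * D.card + s * (k + 1) := by ring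
          _ ≤ (k + 1) * (R.card + ∑ K', A' K') + acc * (k + 1) :=
              Nat.add_le_add hDc (Nat.mul_le_mul_right _ (by omega))
          _ = (k + 1) * (R.card + ∑ K', A' K' + acc) := by ring
          _ ≤ (k + 1) * (R.card + 1 + ∑ K', A K') := by
              apply Nat.mul_le_mul_left
              rw [hsum, hsplit, hacc]
              omega
      · intro u hu v hv hadj
        exact hlab u (hsub hu) v (hsub hv) (Or.inl hadj)
      · intro l
        refine lt_of_le_of_lt (Nat.add_le_add ?_ ?_) (hcls l)
        · exact Finset.card_le_card (Finset.filter_subset_filter _ hsub)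
        · rw [Finset.sum_filter, Finset.sum_filter]
          apply Finset.sum_le_sum
          intro K' _
          by_cases h1 : ∃ x ∈ K' \ (D ∪ insert t K), lab x = l
          · rw [if_pos h1]
            by_cases h0 : A K' = 0
            · rw [h0]
              exact Nat.zero_le _
            obtain ⟨x, hx, hxl⟩ := h1
            simp only [Finset.mem_sdiff, Finset.mem_union, Finset.mem_insert, not_or] at hx
            have h2 : t ∉ K' := fun h2 => hx.2.2.2 (hin K' h0 h2 x hx.1 hx.2.2.1)
            rw [if_pos ⟨x, Finset.mem_sdiff.2 ⟨hx.1, hx.2.1⟩, hxl⟩]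
            simp [hA', h2]
          · rw [if_neg h1]
            exact Nat.zero_le _

/-- CUT, with labels in `ℕ`. -/
theorem cut_nat {k : ℕ} {G : SimpleGraph V} {R : Finset V} (h : Good k G R) {s : ℕ}
    (hs : 1 ≤ s) :
    ∃ D, D ⊆ R ∧ s * D.card ≤ (k + 1) * R.card ∧ ∃ lab : V → ℕ,
      (∀ u ∈ R \ D, ∀ v ∈ R \ D, G.Adj u v → lab u = lab v) ∧
      ∀ l, ((R \ D).filter (fun x => lab x = l)).card < s := by
  obtain ⟨D, hD, hDc, lab, hlab, hcls⟩ := cut_aux h hs (fun _ => 0) (fun K h0 => absurd rfl h0)
  refine ⟨D, hD, by simpa using hDc, lab, hlab, fun l => ?_⟩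
  simpa using hcls l

/-- CUT. -/
theorem cut {k : ℕ} {G : SimpleGraph V} {R : Finset V} (h : Good k G R) (s : ℕ) (hs : 1 ≤ s) :
    ∃ D : Finset V, D ⊆ R ∧ s * D.card ≤ (k + 1) * R.card ∧ ∃ lab : V → V,
      (∀ u ∈ R \ D, ∀ v ∈ R \ D, G.Adj u v → lab u = lab v) ∧
      ∀ l, ((R \ D).filter (fun u => lab u = l)).card ≤ s := by
  obtain ⟨D, hD, hDc, lab, hlab, hcls⟩ := cut_nat h hs
  set rep : ℕ → V → V := fun l u => if h : ∃ v, v ∈ R \ D ∧ lab v = l then h.choose else u
    with hrep
  have h1 : ∀ l u, (∃ v, v ∈ R \ D ∧ lab v = l) → lab (rep l u) = l := by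
    intro l u hl
    simp only [hrep, dif_pos hl]
    exact hl.choose_spec.2
  have h2 : ∀ l u u', (∃ v, v ∈ R \ D ∧ lab v = l) → rep l u = rep l u' := by
    intro l u u' hl
    simp only [hrep, dif_pos hl]
  refine ⟨D, hD, hDc, fun u => rep (lab u) u, fun u hu v hv huv => ?_, fun l => ?_⟩
  · have h3 := hlab u hu v hv huv
    simp only
    rw [h3]
    exact h2 _ _ _ ⟨v, hv, rfl⟩
  · refine le_trans (Finset.card_le_card ?_) (hcls (lab l)).le
    intro u hu
    obtain ⟨hu1, hu2⟩ := Finset.mem_filter.1 hu
    refine Finset.mem_filter.2 ⟨hu1, ?_⟩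
    rw [← hu2]
    exact (h1 _ _ ⟨u, hu1, rfl⟩).symm

end Pool.Agent.Lib.MP_4d044e_co.TW
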