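import Mathlib

/-!
Definitions for the stability proof of S08642 (MP_4d044e_co).
Blueprint: team store file MP_4d044e_h52_BP.md.
-/

set_option autoImplicit false

namespace Pool.Agent.Lib.MP_4d044e_co.TW

open Finset
open scoped Classical

variable {V : Type} [Fintype V] [DecidableEq V]

/-- the complete graph on the set `K` (no other edges) -/
def clq (K : Finset V) : SimpleGraph V where
  Adj u v := u ≠ v ∧ u ∈ K ∧ v ∈ K
  symm := ⟨fun _ _ h => ⟨h.1.symm, h.2.2, h.2.1⟩⟩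
  loopless := ⟨fun _ h => h.1 rfl⟩

/-- `Good k G R`: the graph induced on `R` has an elimination order of width at most `k`
(tree-width at most `k`). -/
inductive Good (k : ℕ) : SimpleGraph V → Finset V → Prop
  | empty (G : SimpleGraph V) : Good k G ∅
  | step (G : SimpleGraph V) (R K : Finset V) (t : V) (ht : t ∉ R) (hK : K ⊆ R)
      (hc : K.card ≤ k) (hN : ∀ r ∈ R, G.Adj t r → r ∈ K) (hR : Good k (G ⊔ clq K) R) :
      Good k G (insert t R)

/-- mass of a set -/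
noncomputable def nu (w : V → ℝ) (X : Finset V) : ℝ := ∑ v ∈ X, w v

/-- open neighbourhood -/
noncomputable def nbr (G : SimpleGraph V) (v : V) : Finset V := univ.filter (fun u => G.Adj v u)

/-- closed neighbourhood -/
noncomputable def cn (G : SimpleGraph V) (v : V) : Finset V := insert v (nbr G v)

/-- closed neighbourhood of a set -/
noncomputable def cN (G : SimpleGraph V) (T : Finset V) : Finset V := T.biUnion (cn G)

/-- mass of ordered adjacent pairs in `X × Y` -/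
noncomputable def ee (G : SimpleGraph V) (w : V → ℝ) (X Y : Finset V) : ℝ :=
  ∑ u ∈ X, ∑ v ∈ Y, if G.Adj u v then w u * w v else 0

/-- mass of ordered non-adjacent pairs of different vertices of `Q` -/
noncomputable def miss (G : SimpleGraph V) (w : V → ℝ) (Q : Finset V) : ℝ :=
  ∑ u ∈ Q, ∑ v ∈ Q, if u ≠ v ∧ ¬ G.Adj u v then w u * w v else 0

/-- the potential; `w0 = 1/(d+2)` -/
noncomputable def FF (η w0 : ℝ) (G : SimpleGraph V) (w : V → ℝ) : ℝ :=
  ∑ v, (8 * w v - 8 * w v ^ 2 - 8 * η * (w v * Real.log (w v / w0) - w v + w0))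
    - 4 * ee G w univ univ

/-- everything that the local analysis uses about a minimal counterexample.
`ng1`: keep `T`, delete `N[T]`.  `ng2`: keep `t`, delete `X ∋ t`, complete `N(t) - X`.
`ng3a`, `ng3b`: keep two vertices. -/
structure NG (G : SimpleGraph V) (w : V → ℝ) (w0 β η : ℝ) (C0 : ℕ) : Prop where
  hη : η = 1 / 10 ^ 39
  w0pos : 0 < w0
  w0β : w0 ≤ β
  βsm : β ≤ 1 / 10 ^ 200
  wlo : ∀ v, w0 * (99 / 100) ≤ w v
  whi : ∀ v, w v ≤ β
  foc : ∀ v, nu w (nbr G v) + 2 * w v + η * Real.log (w v / w0) = 1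
  cls : ∀ v, nu w (cn G v) ≤ 1 + 2 * β
  ng1 : ∀ T : Finset V, T.Nonempty → T.card ≤ C0 →
    (1 - η) * T.card ≤ 4 * (ee G w (cN G T) (cN G T) + 3 * η * nu w (cN G T))
  ng2 : ∀ (t : V) (X : Finset V), t ∈ X →
    (1 - η) ≤ 4 * (ee G w X X + 3 * η * nu w X + miss G w (nbr G t \ X))
  ng3a : ∀ (u v : V) (X : Finset V), u ∈ X → v ∈ X → u ≠ v → ¬ G.Adj u v →
    (1 - η) * 2 ≤ 4 * (ee G w X X + 3 * η * nu w X + miss G w (nbr G u \ X)
      + miss G w (nbr G v \ X))
  ng3b : ∀ (u v : V) (X : Finset V), u ∈ X → v ∈ X → G.Adj u v →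
    (1 - η) * 2 ≤ 4 * (ee G w X X + 3 * η * nu w X + miss G w ((nbr G u ∪ nbr G v) \ X))

/-- the cheap centres of `y` -/
noncomputable def cheap (G : SimpleGraph V) (w : V → ℝ) (c : ℝ) (y : V) : Finset V :=
  (cn G y).filter (fun z => ee G w (cn G y \ cn G z) (cn G y \ cn G z) < 1 / 4 - c)

/-- `Y true`, `Y false` are two near-cliques of mass about 1/2 in `N[y]` -/
structure Spl (G : SimpleGraph V) (w : V → ℝ) (ε : ℝ) (y : V) (Y : Bool → Finset V) : Prop where
  sub : ∀ i, Y i ⊆ cn G y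
  disj : Disjoint (Y true) (Y false)
  lo : ∀ i, 1 / 2 - ε ≤ nu w (Y i)
  hi : ∀ i, nu w (Y i) ≤ 1 / 2 + ε
  inn : ∀ i, ∀ u ∈ Y i, nu w (Y i \ cn G u) ≤ ε
  cross : ∀ i, ∀ u ∈ Y i, nu w (cn G u ∩ Y (!i)) ≤ ε

/-- near-clique of mass about 1/2 -/
structure NC (G : SimpleGraph V) (w : V → ℝ) (ε : ℝ) (Z : Finset V) : Prop where
  lo : 1 / 2 - ε ≤ nu w Z
  hi : nu w Z ≤ 1 / 2 + ε
  inn : ∀ u ∈ Z, nu w (Z \ cn G u) ≤ ε

/-- `Gd` = good vertices with chosen halves `H`; `z` is type 2 -/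
def T2 (G : SimpleGraph V) (w : V → ℝ) (Gd : Finset V) (lam : ℝ) (z : V) : Prop :=
  z ∈ Gd ∧ nu w (cn G z \ Gd) ≤ lam

/-- the cluster of the flag `(z, i)` -/
noncomputable def Mc (w : V → ℝ) (H : V → Bool → Finset V) (Gd : Finset V) (z : V) (i : Bool) :
    Finset V :=
  Gd.filter (fun x => ∃ a, 1 / 4 ≤ nu w (H x a ∩ H z i))

end Pool.Agent.Lib.MP_4d044e_co.TW
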