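import Pool.Agent.Lib.MP_4d044e_co.TW.CS

/-!
The identity of section 9 of the blueprint.
-/

set_option autoImplicit false

namespace Pool.Agent.Lib.MP_4d044e_co.TW

open Finset
open scoped Classical

variable {V : Type} [Fintype V] [DecidableEq V]

theorem idn_two {G : SimpleGraph V} {w : V → ℝ} {CC : Finset (Finset V)} (hCS : CS G w CC)
    (φ : V → ℝ) : ∑ C ∈ CC, ∑ v ∈ C, φ v = 2 * ∑ v, φ v := by
  have h1 : ∀ C ∈ CC, ∑ v ∈ C, φ v = ∑ v, if v ∈ C then φ v else 0 := by
    intro C _
    rw [← Finset.sum_filter]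
    refine Finset.sum_congr ?_ fun _ _ => rfl
    ext v; simp
  rw [Finset.sum_congr rfl h1, Finset.sum_comm, Finset.mul_sum]
  refine Finset.sum_congr rfl fun v _ => ?_
  rw [← Finset.sum_filter, Finset.sum_const, hCS.two v, nsmul_eq_mul]
  norm_num

theorem idn_sq {G : SimpleGraph V} {w : V → ℝ} (hw : ∀ v, 0 ≤ w v) {CC : Finset (Finset V)}
    (hCS : CS G w CC) :
    ∑ C ∈ CC, nu w C ^ 2 ≤ 2 * ∑ v, w v ^ 2 + ee G w univ univ := by
  have h1 : ∀ C ∈ CC, nu w C ^ 2 = ∑ u, ∑ v, if u ∈ C ∧ v ∈ C then w u * w v else 0 := by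
    intro C _
    unfold nu
    rw [sq, Finset.sum_mul_sum]
    have e1 : ∑ u, ∑ v, (if u ∈ C ∧ v ∈ C then w u * w v else 0)
        = ∑ u, if u ∈ C then (∑ v ∈ C, w u * w v) else 0 := by
      refine Finset.sum_congr rfl fun u _ => ?_
      by_cases hu : u ∈ C
      · simp only [hu, true_and, if_true]
        rw [← Finset.sum_filter]
        refine Finset.sum_congr ?_ fun _ _ => rfl
        ext v; simp
      · simp [hu]
    rw [e1, ← Finset.sum_filter]
    refine Finset.sum_congr ?_ fun _ _ => rfl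
    ext v; simp
  rw [Finset.sum_congr rfl h1, Finset.sum_comm]
  have h2 : ∀ u ∈ (univ : Finset V), ∑ C ∈ CC, ∑ v, (if u ∈ C ∧ v ∈ C then w u * w v else 0)
      ≤ 2 * w u ^ 2 + ∑ v, if G.Adj u v then w u * w v else 0 := by
    intro u _
    rw [Finset.sum_comm]
    have h3 : ∀ v ∈ (univ : Finset V), ∑ C ∈ CC, (if u ∈ C ∧ v ∈ C then w u * w v else 0)
        ≤ (if u = v then 2 * w u ^ 2 else 0) + (if G.Adj u v then w u * w v else 0) := by
      intro v _
      rw [← Finset.sum_filter, Finset.sum_const, nsmul_eq_mul]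
      by_cases huv : u = v
      · subst huv
        have e : CC.filter (fun C => u ∈ C ∧ u ∈ C) = CC.filter (fun C => u ∈ C) := by
          ext C; simp
        rw [e, hCS.two u]
        simp only [if_true]
        rw [if_neg (G.loopless.irrefl u)]
        have : ((2 : ℕ) : ℝ) * (w u * w u) = 2 * w u ^ 2 + 0 := by push_cast; ring
        exact this.le
      · rw [if_neg huv, zero_add]
        have hwuv : 0 ≤ w u * w v := mul_nonneg (hw u) (hw v)
        rcases Finset.eq_empty_or_nonempty (CC.filter (fun C => u ∈ C ∧ v ∈ C)) with he | ⟨C, hC⟩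
        · rw [he]
          simp only [Finset.card_empty, Nat.cast_zero, zero_mul]
          split_ifs
          · exact hwuv
          · exact le_refl 0
        · rw [Finset.mem_filter] at hC
          have hadj : G.Adj u v := hCS.clique C hC.1 u hC.2.1 v hC.2.2 huv
          rw [if_pos hadj]
          have hcard : (CC.filter (fun C => u ∈ C ∧ v ∈ C)).card ≤ 1 := by
            rw [Finset.card_le_one]
            intro C1 h1 C2 h2
            rw [Finset.mem_filter] at h1 h2
            by_contra hne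
            have hs := hCS.share C1 h1.1 C2 h2.1 hne
            have h3 : ({u, v} : Finset V) ⊆ C1 ∩ C2 := by
              intro x hx
              rw [Finset.mem_insert, Finset.mem_singleton] at hx
              rw [Finset.mem_inter]
              rcases hx with rfl | rfl
              · exact ⟨h1.2.1, h2.2.1⟩
              · exact ⟨h1.2.2, h2.2.2⟩
            have h4 := Finset.card_le_card h3
            rw [Finset.card_pair huv] at h4
            omega
          have hcard' : ((CC.filter (fun C => u ∈ C ∧ v ∈ C)).card : ℝ) ≤ 1 := by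
            exact_mod_cast hcard
          have := mul_le_mul_of_nonneg_right hcard' hwuv
          linarith
    refine (Finset.sum_le_sum h3).trans (le_of_eq ?_)
    rw [Finset.sum_add_distrib, Finset.sum_ite_eq]
    simp
  refine (Finset.sum_le_sum h2).trans (le_of_eq ?_)
  rw [Finset.sum_add_distrib, Finset.mul_sum]
  rfl

theorem idn {G : SimpleGraph V} {w : V → ℝ} (η w0 : ℝ) (hw : ∀ v, 0 ≤ w v)
    {CC : Finset (Finset V)} (hCS : CS G w CC) :
    FF η w0 G w ≤ CC.card - ∑ C ∈ CC, ((1 - 2 * nu w C) ^ 2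
      + ∑ v ∈ C, 4 * η * (w v * Real.log (w v / w0) - w v + w0)) := by
  have h1 := idn_two hCS (fun v => 4 * η * (w v * Real.log (w v / w0) - w v + w0))
  have h2 := idn_two hCS w
  have h3 := idn_sq hw hCS
  have e1 : ∑ C ∈ CC, (1 - 2 * nu w C) ^ 2
      = CC.card - 4 * (∑ C ∈ CC, ∑ v ∈ C, w v) + 4 * ∑ C ∈ CC, nu w C ^ 2 := by
    have : ∀ C ∈ CC, (1 - 2 * nu w C) ^ 2 = 1 - 4 * (∑ v ∈ C, w v) + 4 * nu w C ^ 2 := by
      intro C _
      unfold nu
      ring
    rw [Finset.sum_congr rfl this, Finset.sum_add_distrib, Finset.sum_sub_distrib,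
      Finset.sum_const, nsmul_eq_mul, mul_one, ← Finset.mul_sum, ← Finset.mul_sum]
  have e2 : FF η w0 G w = 8 * ∑ v, w v - 8 * ∑ v, w v ^ 2
      - 2 * ∑ v, 4 * η * (w v * Real.log (w v / w0) - w v + w0) - 4 * ee G w univ univ := by
    unfold FF
    rw [Finset.sum_sub_distrib, Finset.sum_sub_distrib, Finset.mul_sum, Finset.mul_sum,
      Finset.mul_sum]
    congr 2
    refine Finset.sum_congr rfl fun v _ => ?_
    ring
  rw [Finset.sum_add_distrib, e1, e2, h1, h2]
  linarith

end Pool.Agent.Lib.MP_4d044e_co.TW
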