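import Pool.Agent.Lib.MP_4d044e_co.TW.Defs

/-!
MP_4d044e_co, module GOOD: closure properties of `Good k G R` (sets inducing a graph of
tree-width at most `k`).
-/

set_option autoImplicit false

namespace Pool.Agent.Lib.MP_4d044e_co.TW

open Finset

namespace Good

variable {V : Type} [DecidableEq V]

/-- Fewer edges inside `R`. -/
theorem mono {k : ℕ} {G' : SimpleGraph V} {R : Finset V} (h : Good k G' R) :
    ∀ {G : SimpleGraph V}, (∀ u ∈ R, ∀ v ∈ R, G.Adj u v → G'.Adj u v) → Good k G R := by
  induction h with
  | empty G' => intro G _; exact Good.empty G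
  | step G' R K t ht hK hc hN hR ih =>
    intro G hG
    refine Good.step G R K t ht hK hc ?_ ?_
    · intro r hr hadj
      exact hN r hr (hG t (mem_insert_self _ _) r (mem_insert_of_mem hr) hadj)
    · apply ih
      intro u hu v hv huv
      rcases huv with huv | huv
      · exact Or.inl (hG u (mem_insert_of_mem hu) v (mem_insert_of_mem hv) huv)
      · exact Or.inr huv

/-- Subsets. -/
theorem subset {k : ℕ} {G : SimpleGraph V} {R : Finset V} (h : Good k G R) :
    ∀ {S : Finset V}, S ⊆ R → Good k G S := by
  induction h with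
  | empty G => intro S hS; rw [subset_empty.1 hS]; exact Good.empty G
  | step G R K t ht hK hc hN hR ih =>
    intro S hS
    by_cases hts : t ∈ S
    · have h1 : insert t (S.erase t) = S := insert_erase hts
      have hsub : S.erase t ⊆ R := by
        intro x hx
        rcases mem_insert.1 (hS (mem_of_mem_erase hx)) with h | h
        · exact absurd h (ne_of_mem_erase hx)
        · exact h
      rw [← h1]
      refine Good.step G _ (K ∩ S.erase t) t (notMem_erase _ _) inter_subset_right ?_ ?_ ?_
      · exact (card_le_card inter_subset_left).trans hc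
      · intro r hr hadj
        exact mem_inter.2 ⟨hN r (hsub hr) hadj, hr⟩
      · refine (ih hsub).mono ?_
        intro u _ v _ huv
        rcases huv with huv | ⟨h1, h2, h3⟩
        · exact Or.inl huv
        · exact Or.inr ⟨h1, (mem_inter.1 h2).1, (mem_inter.1 h3).1⟩
    · have hsub : S ⊆ R := by
        intro x hx
        rcases mem_insert.1 (hS hx) with h | h
        · exact absurd (h ▸ hx) hts
        · exact h
      refine (ih hsub).mono ?_
      intro u _ v _ huv
      exact Or.inl huv

/-- Larger width. -/
theorem mono_k {k k' : ℕ} (hk : k ≤ k') {G : SimpleGraph V} {R : Finset V} (h : Good k G R) :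
    Good k' G R := by
  induction h with
  | empty G => exact Good.empty G
  | step G R K t ht hK hc hN hR ih => exact Good.step G R K t ht hK (hc.trans hk) hN ih

/-- Transport along an injective map. -/
theorem map {V' : Type} [DecidableEq V'] {k : ℕ} {G' : SimpleGraph V'} {R' : Finset V'}
    (f : V' → V) (hf : Function.Injective f) (h : Good k G' R') :
    ∀ {G : SimpleGraph V}, (∀ a ∈ R', ∀ b ∈ R', G.Adj (f a) (f b) → G'.Adj a b) →
      Good k G (R'.image f) := by
  induction h with
  | empty G' => intro G _; rw [image_empty]; exact Good.empty G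
  | step G' R K t ht hK hc hN hR ih =>
    intro G hG
    rw [image_insert]
    refine Good.step G (R.image f) (K.image f) (f t) ?_ (image_subset_image hK) ?_ ?_ ?_
    · intro h
      obtain ⟨x, hx, hxt⟩ := mem_image.1 h
      exact ht (hf hxt ▸ hx)
    · exact card_image_le.trans hc
    · intro r hr hadj
      obtain ⟨x, hx, rfl⟩ := mem_image.1 hr
      exact mem_image_of_mem f
        (hN x hx (hG t (mem_insert_self _ _) x (mem_insert_of_mem hx) hadj))
    · apply ih
      intro a ha b hb hab
      rcases hab with hab | ⟨h1, h2, h3⟩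
      · exact Or.inl (hG a (mem_insert_of_mem ha) b (mem_insert_of_mem hb) hab)
      · obtain ⟨x, hx, hxa⟩ := mem_image.1 h2
        obtain ⟨y, hy, hyb⟩ := mem_image.1 h3
        refine Or.inr ⟨fun h => h1 (by rw [h]), ?_, ?_⟩
        · rw [← hf hxa]; exact hx
        · rw [← hf hyb]; exact hy

/-- Transport along an embedding. -/
theorem emb {W : Type} [Fintype W] [DecidableEq W] {k : ℕ} (f : W ↪ V)
    {H : SimpleGraph W} {R : Finset W} (h : Good k H R) (G : SimpleGraph V)
    (hle : ∀ a ∈ R, ∀ b ∈ R, G.Adj (f a) (f b) → H.Adj a b) : Good k G (R.map f) := by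
  rw [map_eq_image]
  exact Good.map f f.injective h hle

/-- From a graph on the subtype of the vertices outside `X`. -/
theorem of_subtype {k : ℕ} {p : V → Prop} {G' : SimpleGraph {v : V // p v}}
    {R' : Finset {v : V // p v}} (h : Good k G' R') {G : SimpleGraph V}
    (hG : ∀ a ∈ R', ∀ b ∈ R', G.Adj a.1 b.1 → G'.Adj a b) :
    Good k G (R'.image Subtype.val) :=
  h.map Subtype.val Subtype.val_injective hG

/-- **Hanging a set.** `T` is hung on the clique `K` of the completed graph. -/
theorem add_hang {k : ℕ} {R K : Finset V} (hK : K ⊆ R) :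
    ∀ (T : Finset V) {G : SimpleGraph V}, Disjoint T R → K.card + T.card ≤ k + 1 →
      (∀ t ∈ T, ∀ r ∈ R, G.Adj t r → r ∈ K) → Good k (G ⊔ clq K) R → Good k G (R ∪ T) := by
  intro T
  induction T using Finset.induction_on with
  | empty =>
    intro G _ _ _ h
    rw [union_empty]
    exact h.mono fun u _ v _ huv => Or.inl huv
  | insert t T1 ht ih =>
    intro G hd hc hN h
    rw [disjoint_insert_left] at hd
    rw [card_insert_of_notMem ht] at hc
    rw [union_insert]
    refine Good.step G (R ∪ T1) (K ∪ T1) t ?_ (union_subset_union_left hK) ?_ ?_ ?_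
    · rw [mem_union, not_or]; exact ⟨hd.1, ht⟩
    · have := card_union_le K T1
      omega
    · intro r hr hadj
      rcases mem_union.1 hr with hr | hr
      · exact mem_union_left _ (hN t (mem_insert_self _ _) r hr hadj)
      · exact mem_union_right _ hr
    · have hdis : ∀ x ∈ R, x ∈ K ∪ T1 → x ∈ K := by
        intro x hx hx'
        rcases mem_union.1 hx' with h | h
        · exact h
        · exact absurd hx (disjoint_left.1 hd.2 h)
      apply ih hd.2 (by omega)
      · intro t' ht' r hr hadj
        rcases hadj with hadj | ⟨_, _, h3⟩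
        · exact hN t' (mem_insert_of_mem ht') r hr hadj
        · exact hdis r hr h3
      · refine h.mono ?_
        intro u hu v hv huv
        rcases huv with (huv | ⟨h1, h2, h3⟩) | huv
        · exact Or.inl huv
        · exact Or.inr ⟨h1, hdis u hu h2, hdis v hv h3⟩
        · exact Or.inr huv

/-- (b) Adding a small set without edges to `R`. -/
theorem add_set {k : ℕ} {G : SimpleGraph V} {R T : Finset V} (h : Good k G R)
    (hT : T.card ≤ k) (hd : Disjoint T R) (hN : ∀ t ∈ T, ∀ r ∈ R, ¬ G.Adj t r) :
    Good k G (T ∪ R) := by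
  rw [union_comm]
  refine add_hang (K := ∅) (empty_subset _) T hd (by rw [card_empty]; omega) ?_ ?_
  · intro t ht r hr hadj; exact absurd hadj (hN t ht r hr)
  · refine h.mono ?_
    intro u _ v _ huv
    rcases huv with huv | ⟨_, h2, _⟩
    · exact huv
    · exact absurd h2 (notMem_empty _)

/-- (c) One vertex. -/
theorem add_one {k : ℕ} {G : SimpleGraph V} {R Q : Finset V} {t : V}
    (h : Good k (G ⊔ clq Q) R) (ht : t ∉ R) (hQ : Q.card ≤ k)
    (hN : ∀ r ∈ R, G.Adj t r → r ∈ Q) : Good k G (insert t R) := by
  refine Good.step G R (Q ∩ R) t ht inter_subset_right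
    ((card_le_card inter_subset_left).trans hQ) ?_ ?_
  · intro r hr hadj
    exact mem_inter.2 ⟨hN r hr hadj, hr⟩
  · refine h.mono ?_
    intro a _ b _ hab
    rcases hab with hab | ⟨h1, h2, h3⟩
    · exact Or.inl hab
    · exact Or.inr ⟨h1, (mem_inter.1 h2).1, (mem_inter.1 h3).1⟩

/-- (d) Two nonadjacent vertices. -/
theorem add_two_nonadj {k : ℕ} {G : SimpleGraph V} {R Qu Qv : Finset V} {u v : V}
    (h : Good k (G ⊔ clq Qu ⊔ clq Qv) R) (hu : u ∉ R) (hv : v ∉ R) (huv : u ≠ v)
    (hna : ¬ G.Adj u v) (hQu : Qu.card ≤ k) (hQv : Qv.card ≤ k)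
    (hNu : ∀ r ∈ R, G.Adj u r → r ∈ Qu) (hNv : ∀ r ∈ R, G.Adj v r → r ∈ Qv) :
    Good k G (insert u (insert v R)) := by
  have huR : u ∉ insert v R := by rw [mem_insert, not_or]; exact ⟨huv, hu⟩
  refine add_one (Q := Qu ∩ R) ?_ huR ((card_le_card inter_subset_left).trans hQu) ?_
  · refine add_one (Q := Qv) ?_ hv hQv ?_
    · refine h.mono ?_
      intro a _ b _ hab
      rcases hab with (hab | ⟨h1, h2, h3⟩) | hab
      · exact Or.inl (Or.inl hab)
      · exact Or.inl (Or.inr ⟨h1, (mem_inter.1 h2).1, (mem_inter.1 h3).1⟩)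
      · exact Or.inr hab
    · intro r hr hadj
      rcases hadj with hadj | ⟨_, h2, _⟩
      · exact hNv r hr hadj
      · exact absurd (mem_inter.1 h2).2 hv
  · intro r hr hadj
    rcases mem_insert.1 hr with rfl | hr
    · exact absurd hadj hna
    · exact mem_inter.2 ⟨hNu r hr hadj, hr⟩

/-- (d) Two vertices (adjacent or not), hung together. -/
theorem add_two_adj {k : ℕ} {G : SimpleGraph V} {R Q : Finset V} {u v : V}
    (h : Good k (G ⊔ clq Q) R) (hu : u ∉ R) (hv : v ∉ R) (huv : u ≠ v)
    (hQ : Q.card + 1 ≤ k) (hN : ∀ r ∈ R, G.Adj u r ∨ G.Adj v r → r ∈ Q) :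
    Good k G (insert u (insert v R)) := by
  have h0 : Good k (G ⊔ clq (Q ∩ R)) R := by
    refine h.mono ?_
    intro a _ b _ hab
    rcases hab with hab | ⟨h1, h2, h3⟩
    · exact Or.inl hab
    · exact Or.inr ⟨h1, (mem_inter.1 h2).1, (mem_inter.1 h3).1⟩
  have hc : (Q ∩ R).card ≤ Q.card := card_le_card inter_subset_left
  have h1 := add_hang (k := k) (inter_subset_right : Q ∩ R ⊆ R) {u, v} (G := G) ?_ ?_ ?_ h0
  · have h2 : R ∪ {u, v} = insert u (insert v R) := by
      ext x; simp only [mem_union, mem_insert, mem_singleton]; tauto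
    rw [← h2]; exact h1
  · rw [disjoint_left]
    intro x hx hxR
    rcases mem_insert.1 hx with rfl | hx
    · exact hu hxR
    · rw [mem_singleton] at hx
      exact hv (hx ▸ hxR)
  · rw [card_pair huv]; omega
  · intro t ht r hr hadj
    rcases mem_insert.1 ht with rfl | ht
    · exact mem_inter.2 ⟨hN r hr (Or.inl hadj), hr⟩
    · rw [mem_singleton] at ht
      exact mem_inter.2 ⟨hN r hr (Or.inr (ht ▸ hadj)), hr⟩

/-- Sets inducing a graph of maximum degree at most two. -/
theorem of_deg2 {k : ℕ} (hk : 2 ≤ k) : ∀ (n : ℕ) {G : SimpleGraph V} {R : Finset V},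
    R.card = n → (∀ v ∈ R, ∃ a b : V, ∀ u ∈ R, G.Adj v u → u = a ∨ u = b) → Good k G R := by
  classical
  intro n
  induction n with
  | zero =>
    intro G R hR _
    rw [card_eq_zero.1 hR]
    exact Good.empty G
  | succ n ih =>
    intro G R hR hdeg
    have hne : R.Nonempty := by rw [← card_pos, hR]; omega
    obtain ⟨t, ht⟩ := hne
    rw [← insert_erase ht]
    set K : Finset V := (R.erase t).filter fun r => G.Adj t r with hKdef
    obtain ⟨a, b, hab⟩ := hdeg t ht
    have hKab : K ⊆ {a, b} := by
      intro x hx
      rw [hKdef, mem_filter] at hx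
      rw [mem_insert, mem_singleton]
      exact hab x (mem_of_mem_erase hx.1) hx.2
    refine Good.step G _ K t (notMem_erase _ _) (filter_subset _ _)
      ((card_le_card hKab).trans (card_le_two.trans hk)) ?_ ?_
    · intro r hr hadj
      exact mem_filter.2 ⟨hr, hadj⟩
    · apply ih
      · rw [card_erase_of_mem ht, hR]; omega
      · intro v hv
        have hvR := mem_of_mem_erase hv
        obtain ⟨p, q, hpq⟩ := hdeg v hvR
        by_cases hvK : v ∈ K
        · -- one neighbour is `t`
          have hadj : G.Adj v t := ((mem_filter.1 hvK).2).symm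
          have hother : ∃ o : V, ∀ x ∈ K, x ≠ v → x = o := by
            rcases (mem_insert.1 (hKab hvK)) with h | h
            · refine ⟨b, fun x hx hxv => ?_⟩
              rcases (mem_insert.1 (hKab hx)) with h' | h'
              · exact absurd (h'.trans h.symm) hxv
              · exact mem_singleton.1 h'
            · rw [mem_singleton] at h
              refine ⟨a, fun x hx hxv => ?_⟩
              rcases (mem_insert.1 (hKab hx)) with h' | h'
              · exact h'
              · exact absurd ((mem_singleton.1 h').trans h.symm) hxv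
          obtain ⟨o, ho⟩ := hother
          have hone : ∃ c : V, ∀ u ∈ R.erase t, G.Adj v u → u = c := by
            rcases hpq t ht hadj with h | h
            · refine ⟨q, fun u hu hvu => ?_⟩
              rcases hpq u (mem_of_mem_erase hu) hvu with h' | h'
              · exact absurd (h'.trans h.symm) (ne_of_mem_erase hu)
              · exact h'
            · refine ⟨p, fun u hu hvu => ?_⟩
              rcases hpq u (mem_of_mem_erase hu) hvu with h' | h'
              · exact h'
              · exact absurd (h'.trans h.symm) (ne_of_mem_erase hu)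
          obtain ⟨c, hc⟩ := hone
          refine ⟨c, o, fun u hu hadj' => ?_⟩
          rcases hadj' with hadj' | ⟨h1, _, h3⟩
          · exact Or.inl (hc u hu hadj')
          · exact Or.inr (ho u h3 (Ne.symm h1))
        · refine ⟨p, q, fun u hu hadj' => ?_⟩
          rcases hadj' with hadj' | ⟨_, h2, _⟩
          · exact hpq u (mem_of_mem_erase hu) hadj'
          · exact absurd h2 hvK

open scoped Classical in
/-- The same, with the number of the neighbours. -/
theorem of_card_deg2 {k : ℕ} (hk : 2 ≤ k) {G : SimpleGraph V} {R : Finset V}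
    (h : ∀ v ∈ R, (R.filter fun u => G.Adj v u).card ≤ 2) : Good k G R := by
  refine of_deg2 hk R.card rfl fun v hv => ?_
  have h1 := h v hv
  have h2 : (R.filter fun u => G.Adj v u).card = 0 ∨ (R.filter fun u => G.Adj v u).card = 1 ∨
      (R.filter fun u => G.Adj v u).card = 2 := by omega
  rcases h2 with h2 | h2 | h2
  · refine ⟨v, v, fun u hu hadj => ?_⟩
    have := card_eq_zero.1 h2
    exact absurd (mem_filter.2 ⟨hu, hadj⟩) (by rw [this]; exact notMem_empty _)
  · obtain ⟨a, ha⟩ := card_eq_one.1 h2
    refine ⟨a, a, fun u hu hadj => Or.inl ?_⟩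
    have : u ∈ R.filter fun u => G.Adj v u := mem_filter.2 ⟨hu, hadj⟩
    rw [ha] at this
    exact mem_singleton.1 this
  · obtain ⟨a, b, _, hab⟩ := card_eq_two.1 h2
    refine ⟨a, b, fun u hu hadj => ?_⟩
    have : u ∈ R.filter fun u => G.Adj v u := mem_filter.2 ⟨hu, hadj⟩
    rw [hab, mem_insert, mem_singleton] at this
    exact this

end Good

end Pool.Agent.Lib.MP_4d044e_co.TW
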