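import Pool.Agent.Lib.MP_4d044e_co.TW.Defs

/-!
# The optimal weights (section 1 of the blueprint of S08642)
-/

set_option autoImplicit false

namespace Pool.Agent.Lib.MP_4d044e_co.TW

open Finset
open scoped Classical

variable {V : Type} [Fintype V] [DecidableEq V]

namespace OPTM

/-- the restriction of the potential to one coordinate, up to a constant -/
noncomputable def ph (η w0 ν t : ℝ) : ℝ :=
  8 * t - 8 * t ^ 2 - 8 * η * (t * Real.log (t / w0) - t) - 8 * t * ν

theorem ee_update (G : SimpleGraph V) (w : V → ℝ) (v : V) (t : ℝ) :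
    ee G (Function.update w v t) univ univ =
      ee G (Function.update w v 0) univ univ + 2 * t * nu w (nbr G v) := by
  have h1 : ∀ x : V, Function.update w v t x = Function.update w v 0 x + (if x = v then t else 0) := by
    intro x
    by_cases hx : x = v
    · subst hx; simp
    · simp [hx]
  have h2 : nu w (nbr G v) = ∑ x, if G.Adj v x then Function.update w v 0 x else 0 := by
    unfold nu nbr
    rw [Finset.sum_filter]
    refine Finset.sum_congr rfl fun x _ => ?_
    by_cases hx : G.Adj v x
    · have : x ≠ v := fun h => (G.ne_of_adj hx) h.symm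
      simp [hx, this]
    · simp [hx]
  have h3 : ∀ u x : V, (if G.Adj u x then Function.update w v t u * Function.update w v t x else 0) =
      (if G.Adj u x then Function.update w v 0 u * Function.update w v 0 x else 0) +
      (if u = v then t * (if G.Adj v x then Function.update w v 0 x else 0) else 0) +
      (if x = v then t * (if G.Adj v u then Function.update w v 0 u else 0) else 0) := by
    intro u x
    rw [h1 u, h1 x]
    by_cases hux : G.Adj u x
    · by_cases hu : u = v
      · subst hu
        have hx : x ≠ u := fun h => (G.ne_of_adj hux) h.symm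
        simp [hux, hx]
      · by_cases hx : x = v
        · subst hx
          have : G.Adj x u := hux.symm
          simp [hux, this, hu]
          ring
        · simp [hux, hu, hx]
    · by_cases hu : u = v
      · subst hu
        by_cases hx : x = u
        · subst hx; simp
        · simp [hux, hx]
      · by_cases hx : x = v
        · subst hx
          have : ¬ G.Adj x u := fun h => hux h.symm
          simp [hux, this, hu]
        · simp [hux, hu, hx]
  unfold ee
  simp only [h3, Finset.sum_add_distrib]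
  have h4 : ∑ u : V, ∑ x : V, (if u = v then t * (if G.Adj v x then Function.update w v 0 x else 0) else 0)
      = t * nu w (nbr G v) := by
    rw [h2, Finset.mul_sum, Finset.sum_comm]
    refine Finset.sum_congr rfl fun x _ => ?_
    rw [Finset.sum_ite_eq' univ v]
    simp
  have h5 : ∑ u : V, ∑ x : V, (if x = v then t * (if G.Adj v u then Function.update w v 0 u else 0) else 0)
      = t * nu w (nbr G v) := by
    rw [h2, Finset.mul_sum]
    refine Finset.sum_congr rfl fun u _ => ?_
    rw [Finset.sum_ite_eq' univ v]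
    simp
  rw [h4, h5]
  ring

theorem FF_update (η w0 : ℝ) (G : SimpleGraph V) (w : V → ℝ) (v : V) (t : ℝ) :
    FF η w0 G (Function.update w v t) =
      FF η w0 G (Function.update w v 0) + ph η w0 (nu w (nbr G v)) t := by
  unfold FF
  rw [ee_update G w v t]
  have h1 : ∀ x : V, (8 * Function.update w v t x - 8 * Function.update w v t x ^ 2 -
      8 * η * (Function.update w v t x * Real.log (Function.update w v t x / w0) -
        Function.update w v t x + w0)) =
      (8 * Function.update w v 0 x - 8 * Function.update w v 0 x ^ 2 -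
      8 * η * (Function.update w v 0 x * Real.log (Function.update w v 0 x / w0) -
        Function.update w v 0 x + w0)) +
      (if x = v then 8 * t - 8 * t ^ 2 - 8 * η * (t * Real.log (t / w0) - t) else 0) := by
    intro x
    by_cases hx : x = v
    · subst hx; simp; ring
    · simp [hx]
  simp only [h1, Finset.sum_add_distrib]
  rw [Finset.sum_ite_eq' univ v]
  simp only [Finset.mem_univ, if_true]
  unfold ph
  ring

theorem cont (η w0 : ℝ) (hw0 : 0 < w0) (G : SimpleGraph V) : Continuous (FF η w0 G) := by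
  have h0 : Continuous fun t : ℝ => t * Real.log (t / w0) := by
    have h : (fun t : ℝ => t * Real.log (t / w0)) = fun t : ℝ => w0 * ((t / w0) * Real.log (t / w0)) := by
      funext t
      field_simp
    rw [h]
    exact continuous_const.mul (Real.continuous_mul_log.comp (continuous_id.div_const w0))
  have h1 : ∀ v : V, Continuous fun w : V → ℝ =>
      8 * w v - 8 * w v ^ 2 - 8 * η * (w v * Real.log (w v / w0) - w v + w0) := by
    intro v
    have hv : Continuous fun w : V → ℝ => w v := continuous_apply v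
    have h2 : Continuous fun w : V → ℝ => w v * Real.log (w v / w0) := h0.comp hv
    exact ((continuous_const.mul hv).sub (continuous_const.mul (hv.pow 2))).sub
      (continuous_const.mul ((h2.sub hv).add continuous_const))
  have h3 : Continuous fun w : V → ℝ => ee G w univ univ := by
    unfold ee
    refine continuous_finsetSum _ fun u _ => continuous_finsetSum _ fun x _ => ?_
    by_cases hux : G.Adj u x
    · simp only [hux, if_true]
      exact (continuous_apply u).mul (continuous_apply x)
    · simp only [hux, if_false]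
      exact continuous_const
  unfold FF
  exact (continuous_finsetSum _ fun v _ => h1 v).sub (continuous_const.mul h3)

theorem ph_zero (η w0 ν : ℝ) : ph η w0 ν 0 = 0 := by
  unfold ph; simp

theorem pos_pt (η w0 ν : ℝ) (hη : 0 < η) (hw0 : 0 < w0) (hw1 : w0 ≤ 1 / 2) (hν : 0 ≤ ν) :
    ∃ t : ℝ, 0 ≤ t ∧ t ≤ 1 ∧ 0 < ph η w0 ν t := by
  refine ⟨w0 * Real.exp (-((1 + ν) / η)), by positivity, ?_, ?_⟩
  · have h1 : Real.exp (-((1 + ν) / η)) ≤ 1 := by
      rw [Real.exp_le_one_iff]
      have : 0 ≤ (1 + ν) / η := by positivity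
      linarith
    nlinarith [Real.exp_pos (-((1 + ν) / η))]
  · set t := w0 * Real.exp (-((1 + ν) / η)) with ht
    have ht0 : 0 < t := by positivity
    have ht1 : t ≤ 1 / 2 := by
      have h1 : Real.exp (-((1 + ν) / η)) ≤ 1 := by
        rw [Real.exp_le_one_iff]
        have : 0 ≤ (1 + ν) / η := by positivity
        linarith
      nlinarith [Real.exp_pos (-((1 + ν) / η))]
    have hlog : Real.log (t / w0) = -((1 + ν) / η) := by
      rw [ht, mul_div_assoc, mul_comm, div_mul_cancel₀ _ hw0.ne', Real.log_exp]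
    have h2 : ph η w0 ν t = 8 * t * (2 - t + η) := by
      unfold ph
      rw [hlog]
      field_simp
      ring
    rw [h2]
    have : 0 < 2 - t + η := by linarith
    positivity

theorem one_lt (η w0 ν : ℝ) (hη : 0 < η) (hw0 : 0 < w0) (hw1 : w0 ≤ 1 / 2) (hν : 0 ≤ ν) :
    ph η w0 ν 1 < ph η w0 ν (1 / 2) := by
  have hL : Real.log (1 / w0) = - Real.log w0 := by rw [one_div, Real.log_inv]
  have hL2 : Real.log (1 / 2 / w0) = - Real.log 2 - Real.log w0 := by
    rw [Real.log_div (by norm_num) hw0.ne', one_div, Real.log_inv]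
  have h2 : Real.log w0 ≤ - Real.log 2 := by
    have : Real.log w0 ≤ Real.log (1 / 2) := Real.log_le_log hw0 hw1
    rwa [one_div, Real.log_inv] at this
  have h3 := Real.log_two_gt_d9
  unfold ph
  rw [hL, hL2]
  have h4 : 0 ≤ η * (-Real.log 2 - Real.log w0) := mul_nonneg hη.le (by linarith)
  have h5 : 0 ≤ η * (Real.log 2 - 1 / 2) := mul_nonneg hη.le (by linarith)
  nlinarith

theorem ph_deriv (η w0 ν t : ℝ) (hw0 : 0 < w0) (ht : 0 < t) :
    HasDerivAt (ph η w0 ν) (8 - 16 * t - 8 * η * Real.log (t / w0) - 8 * ν) t := by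
  have h1 : HasDerivAt (fun t : ℝ => t / w0) (1 / w0) t := (hasDerivAt_id t).div_const w0
  have h2 : HasDerivAt (fun t : ℝ => Real.log (t / w0)) (1 / w0 / (t / w0)) t :=
    h1.log (by positivity)
  have h3 : HasDerivAt (fun t : ℝ => t * Real.log (t / w0))
      (1 * Real.log (t / w0) + t * (1 / w0 / (t / w0))) t := (hasDerivAt_id t).mul h2
  have h4 : HasDerivAt (fun t : ℝ => 8 * t) (8 * 1) t := (hasDerivAt_id t).const_mul 8
  have h5 : HasDerivAt (fun t : ℝ => 8 * t ^ 2) (8 * (2 * t)) t := by
    have := (hasDerivAt_pow 2 t).const_mul 8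
    simpa using this
  have h6 : HasDerivAt (fun t : ℝ => 8 * η * (t * Real.log (t / w0) - t))
      (8 * η * (1 * Real.log (t / w0) + t * (1 / w0 / (t / w0)) - 1)) t :=
    (h3.sub (hasDerivAt_id t)).const_mul (8 * η)
  have h7 : HasDerivAt (fun t : ℝ => 8 * t * ν) (8 * 1 * ν) t := h4.mul_const ν
  have h8 := ((h4.sub h5).sub h6).sub h7
  have h9 : t * (1 / w0 / (t / w0)) = 1 := by field_simp
  rw [h9] at h8
  have h10 : (8 * 1 - 8 * (2 * t) - 8 * η * (1 * Real.log (t / w0) + 1 - 1) - 8 * 1 * ν : ℝ) =
      8 - 16 * t - 8 * η * Real.log (t / w0) - 8 * ν := by ring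
  rw [h10] at h8
  exact h8

end OPTM

open OPTM in
theorem opt (η w0 : ℝ) (hη : 0 < η) (hw0 : 0 < w0) (hw1 : w0 ≤ 1 / 2) (G : SimpleGraph V) :
    ∃ w : V → ℝ, (∀ v, 0 < w v ∧ w v < 1) ∧
      (∀ u : V → ℝ, (∀ v, 0 ≤ u v ∧ u v ≤ 1) → FF η w0 G u ≤ FF η w0 G w) ∧
      (∀ v, nu w (nbr G v) + 2 * w v + η * Real.log (w v / w0) = 1) := by
  have hK : IsCompact (Set.pi Set.univ fun _ : V => Set.Icc (0 : ℝ) 1) :=
    isCompact_univ_pi fun _ => isCompact_Icc
  have hne : (Set.pi Set.univ fun _ : V => Set.Icc (0 : ℝ) 1).Nonempty :=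
    ⟨fun _ => 0, fun _ _ => ⟨le_refl 0, zero_le_one⟩⟩
  obtain ⟨w, hw, hmax⟩ := hK.exists_isMaxOn hne (cont η w0 hw0 G).continuousOn
  have hw' : ∀ v, 0 ≤ w v ∧ w v ≤ 1 := fun v => hw v (Set.mem_univ v)
  have hmax' : ∀ u : V → ℝ, (∀ v, 0 ≤ u v ∧ u v ≤ 1) → FF η w0 G u ≤ FF η w0 G w :=
    fun u hu => hmax fun v _ => hu v
  have hν : ∀ v, 0 ≤ nu w (nbr G v) := fun v => Finset.sum_nonneg fun x _ => (hw' x).1
  have hph : ∀ (v : V) (t : ℝ), 0 ≤ t → t ≤ 1 →
      ph η w0 (nu w (nbr G v)) t ≤ ph η w0 (nu w (nbr G v)) (w v) := by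
    intro v t h0 h1
    have h2 := hmax' (Function.update w v t) (by
      intro x
      by_cases hx : x = v
      · subst hx; simp [h0, h1]
      · simp [hx, (hw' x).1, (hw' x).2])
    have h3 := FF_update η w0 G w v (w v)
    rw [Function.update_eq_self] at h3
    rw [FF_update η w0 G w v t, h3] at h2
    linarith
  have hpos : ∀ v, 0 < w v := by
    intro v
    rcases lt_or_eq_of_le (hw' v).1 with h | h
    · exact h
    · exfalso
      obtain ⟨t, ht0, ht1, ht⟩ := pos_pt η w0 (nu w (nbr G v)) hη hw0 hw1 (hν v)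
      have h1 := hph v t ht0 ht1
      rw [← h, ph_zero] at h1
      linarith
  have hlt : ∀ v, w v < 1 := by
    intro v
    rcases lt_or_eq_of_le (hw' v).2 with h | h
    · exact h
    · exfalso
      have h1 := hph v (1 / 2) (by norm_num) (by norm_num)
      rw [h] at h1
      have h2 := one_lt η w0 (nu w (nbr G v)) hη hw0 hw1 (hν v)
      linarith
  refine ⟨w, fun v => ⟨hpos v, hlt v⟩, hmax', fun v => ?_⟩
  have hloc : IsLocalMax (ph η w0 (nu w (nbr G v))) (w v) := by
    have hnh : Set.Ioo (0 : ℝ) 1 ∈ nhds (w v) := Ioo_mem_nhds (hpos v) (hlt v)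
    filter_upwards [hnh] with t ht
    exact hph v t ht.1.le ht.2.le
  have h1 := hloc.hasDerivAt_eq_zero (ph_deriv η w0 (nu w (nbr G v)) (w v) hw0 (hpos v))
  linarith

end Pool.Agent.Lib.MP_4d044e_co.TW
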