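import Pool.Agent.Lib.MP_4d044e_co.TW.Defs

/-!
The removal formula (section 1 of the blueprint).
-/

set_option autoImplicit false

namespace Pool.Agent.Lib.MP_4d044e_co.TW

open Finset
open scoped Classical

variable {V : Type} [Fintype V] [DecidableEq V]

namespace REM

theorem ee_row (G : SimpleGraph V) (w : V → ℝ) (X : Finset V) :
    ee G w X univ = ∑ v ∈ X, w v * nu w (nbr G v) := by
  unfold ee nu nbr
  refine Finset.sum_congr rfl fun u _ => ?_
  rw [Finset.sum_filter, Finset.mul_sum]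
  refine Finset.sum_congr rfl fun v _ => ?_
  split_ifs <;> simp

theorem ee_symm (G : SimpleGraph V) (w : V → ℝ) (X Y : Finset V) : ee G w X Y = ee G w Y X := by
  unfold ee
  rw [Finset.sum_comm]
  refine Finset.sum_congr rfl fun u _ => Finset.sum_congr rfl fun v _ => ?_
  by_cases h : G.Adj u v
  · rw [if_pos h, if_pos h.symm, mul_comm]
  · rw [if_neg h, if_neg (fun h' => h h'.symm)]

theorem ee_split_right (G : SimpleGraph V) (w : V → ℝ) (X Y : Finset V) :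
    ee G w Y univ = ee G w Y X + ee G w Y Xᶜ := by
  unfold ee
  rw [← Finset.sum_add_distrib]
  refine Finset.sum_congr rfl fun u _ => ?_
  exact (Finset.sum_add_sum_compl X _).symm

theorem ee_split (G : SimpleGraph V) (w : V → ℝ) (X : Finset V) :
    ee G w univ univ = 2 * ee G w X univ - ee G w X X + ee G w Xᶜ Xᶜ := by
  have h1 : ee G w univ univ = ee G w X univ + ee G w Xᶜ univ := by
    unfold ee
    exact (Finset.sum_add_sum_compl X _).symm
  have h2 := ee_split_right G w X X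
  have h3 := ee_split_right G w X Xᶜ
  have h4 := ee_symm G w Xᶜ X
  linarith

end REM

open REM

theorem rem (η w0 : ℝ) (G H : SimpleGraph V) (hGH : G ≤ H) (w : V → ℝ) (X : Finset V)
    (hfoc : ∀ v ∈ X, nu w (nbr G v) + 2 * w v + η * Real.log (w v / w0) = 1) :
    FF η w0 (H.comap (Subtype.val : {v // v ∉ X} → V)) (fun x => w x.1)
      = FF η w0 G w - 4 * (ee G w X X + ∑ v ∈ X, (2 * w v ^ 2 + 2 * η * (w v - w0)))
        - 4 * (∑ u ∈ Xᶜ, ∑ v ∈ Xᶜ, if H.Adj u v ∧ ¬ G.Adj u v then w u * w v else 0) := by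
  set φ : V → ℝ := fun v => 8 * w v - 8 * w v ^ 2
    - 8 * η * (w v * Real.log (w v / w0) - w v + w0) with hφ
  have hsub : ∀ f : V → ℝ, ∑ x : {v // v ∉ X}, f x.1 = ∑ v ∈ Xᶜ, f v := by
    intro f
    exact (Finset.sum_subtype (Xᶜ) (fun x => by simp) f).symm
  have e1 : FF η w0 (H.comap (Subtype.val : {v // v ∉ X} → V)) (fun x => w x.1)
      = ∑ v ∈ Xᶜ, φ v - 4 * ∑ u ∈ Xᶜ, ∑ v ∈ Xᶜ, (if H.Adj u v then w u * w v else 0) := by
    unfold FF ee
    rw [← hsub φ, ← hsub (fun u => ∑ v ∈ Xᶜ, (if H.Adj u v then w u * w v else 0))]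
    congr 2
    refine Finset.sum_congr rfl fun x _ => ?_
    rw [← hsub (fun v => if H.Adj x.1 v then w x.1 * w v else 0)]
    refine Finset.sum_congr rfl fun y _ => ?_
    simp only [SimpleGraph.comap_adj]
  have e2 : ∑ u ∈ Xᶜ, ∑ v ∈ Xᶜ, (if H.Adj u v then w u * w v else 0)
      = ee G w Xᶜ Xᶜ
        + ∑ u ∈ Xᶜ, ∑ v ∈ Xᶜ, if H.Adj u v ∧ ¬ G.Adj u v then w u * w v else 0 := by
    unfold ee
    rw [← Finset.sum_add_distrib]
    refine Finset.sum_congr rfl fun u _ => ?_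
    rw [← Finset.sum_add_distrib]
    refine Finset.sum_congr rfl fun v _ => ?_
    by_cases hG : G.Adj u v
    · have hH : H.Adj u v := hGH hG
      simp [hG, hH]
    · by_cases hH : H.Adj u v
      · simp [hG, hH]
      · simp [hG, hH]
  have e3 : FF η w0 G w = ∑ v ∈ X, φ v + ∑ v ∈ Xᶜ, φ v - 4 * ee G w univ univ := by
    unfold FF
    rw [Finset.sum_add_sum_compl X φ]
  have e4 := ee_split G w X
  have e5 := ee_row G w X
  have e6 : ∑ v ∈ X, φ v - 8 * ∑ v ∈ X, w v * nu w (nbr G v)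
      = 4 * ∑ v ∈ X, (2 * w v ^ 2 + 2 * η * (w v - w0)) := by
    rw [Finset.mul_sum, Finset.mul_sum, ← Finset.sum_sub_distrib]
    refine Finset.sum_congr rfl fun v hv => ?_
    have h := hfoc v hv
    have h2 : nu w (nbr G v) = 1 - 2 * w v - η * Real.log (w v / w0) := by linarith
    rw [h2, hφ]
    ring
  rw [e1, e2, e3, e4, e5]
  linarith

theorem rem_add1 (G : SimpleGraph V) (w : V → ℝ) (hw : ∀ v, 0 ≤ w v) (X Q : Finset V) :
    (∑ u ∈ Xᶜ, ∑ v ∈ Xᶜ, if (G ⊔ clq Q).Adj u v ∧ ¬ G.Adj u v then w u * w v else 0)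
      ≤ miss G w Q := by
  have hm : miss G w Q = ∑ u, ∑ v,
      if (u ∈ Q ∧ v ∈ Q) ∧ (u ≠ v ∧ ¬ G.Adj u v) then w u * w v else 0 := by
    unfold miss
    have h1 : ∀ u ∈ (univ : Finset V), (∑ v, if (u ∈ Q ∧ v ∈ Q) ∧ (u ≠ v ∧ ¬ G.Adj u v)
        then w u * w v else 0)
        = if u ∈ Q then (∑ v ∈ Q, if u ≠ v ∧ ¬ G.Adj u v then w u * w v else 0) else 0 := by
      intro u _
      by_cases hu : u ∈ Q
      · rw [if_pos hu]
        have h2 : ∀ v ∈ (univ : Finset V), (if (u ∈ Q ∧ v ∈ Q) ∧ (u ≠ v ∧ ¬ G.Adj u v)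
            then w u * w v else 0)
            = if v ∈ Q then (if u ≠ v ∧ ¬ G.Adj u v then w u * w v else 0) else 0 := by
          intro v _
          by_cases hv : v ∈ Q
          · simp [hu, hv]
          · simp [hv]
        rw [Finset.sum_congr rfl h2, ← Finset.sum_filter]
        refine (Finset.sum_congr ?_ fun _ _ => rfl)
        ext v; simp
      · simp [hu]
    rw [Finset.sum_congr rfl h1, ← Finset.sum_filter]
    refine (Finset.sum_congr ?_ fun _ _ => rfl)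
    ext v; simp
  rw [hm]
  have hn : ∀ u v, 0 ≤ (if (u ∈ Q ∧ v ∈ Q) ∧ (u ≠ v ∧ ¬ G.Adj u v) then w u * w v else 0) := by
    intro u v
    split_ifs
    · exact mul_nonneg (hw u) (hw v)
    · exact le_refl 0
  have h1 : (∑ u ∈ Xᶜ, ∑ v ∈ Xᶜ, if (G ⊔ clq Q).Adj u v ∧ ¬ G.Adj u v then w u * w v else 0)
      ≤ ∑ u ∈ Xᶜ, ∑ v ∈ Xᶜ,
        if (u ∈ Q ∧ v ∈ Q) ∧ (u ≠ v ∧ ¬ G.Adj u v) then w u * w v else 0 := by
    refine Finset.sum_le_sum fun u _ => Finset.sum_le_sum fun v _ => ?_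
    by_cases h : (G ⊔ clq Q).Adj u v ∧ ¬ G.Adj u v
    · rw [if_pos h]
      have h2 : (u ∈ Q ∧ v ∈ Q) ∧ (u ≠ v ∧ ¬ G.Adj u v) := by
        rcases h.1 with h3 | h3
        · exact absurd h3 h.2
        · exact ⟨⟨h3.2.1, h3.2.2⟩, h3.1, h.2⟩
      rw [if_pos h2]
    · rw [if_neg h]
      exact hn u v
  refine h1.trans ?_
  refine (Finset.sum_le_sum fun u _ => Finset.sum_le_sum_of_subset_of_nonneg
    (Finset.subset_univ _) (fun v _ _ => hn u v)).trans ?_
  exact Finset.sum_le_sum_of_subset_of_nonneg (Finset.subset_univ _)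
    (fun u _ _ => Finset.sum_nonneg fun v _ => hn u v)

theorem rem_add2 (G : SimpleGraph V) (w : V → ℝ) (hw : ∀ v, 0 ≤ w v) (X Q Q' : Finset V) :
    (∑ u ∈ Xᶜ, ∑ v ∈ Xᶜ, if (G ⊔ clq Q ⊔ clq Q').Adj u v ∧ ¬ G.Adj u v then w u * w v else 0)
      ≤ miss G w Q + miss G w Q' := by
  have h1 := rem_add1 G w hw X Q
  have h2 := rem_add1 G w hw X Q'
  refine le_trans ?_ (add_le_add h1 h2)
  rw [← Finset.sum_add_distrib]
  refine Finset.sum_le_sum fun u _ => ?_
  rw [← Finset.sum_add_distrib]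
  refine Finset.sum_le_sum fun v _ => ?_
  have hwuv : 0 ≤ w u * w v := mul_nonneg (hw u) (hw v)
  have hn1 : 0 ≤ (if (G ⊔ clq Q).Adj u v ∧ ¬ G.Adj u v then w u * w v else 0) := by
    split_ifs
    · exact hwuv
    · exact le_refl 0
  have hn2 : 0 ≤ (if (G ⊔ clq Q').Adj u v ∧ ¬ G.Adj u v then w u * w v else 0) := by
    split_ifs
    · exact hwuv
    · exact le_refl 0
  by_cases h : (G ⊔ clq Q ⊔ clq Q').Adj u v ∧ ¬ G.Adj u v
  · rw [if_pos h]
    rcases h.1 with h3 | h3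
    · rw [if_pos ⟨h3, h.2⟩]
      linarith
    · rw [if_pos (show (G ⊔ clq Q').Adj u v ∧ ¬ G.Adj u v from ⟨Or.inr h3, h.2⟩)]
      linarith
  · rw [if_neg h]
    linarith

end Pool.Agent.Lib.MP_4d044e_co.TW
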