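import Pool.Agent.Lib.MP_4d044e_co.TW.BAS
import Pool.Agent.Lib.MP_4d044e_co.TW.Good
import Pool.Agent.Lib.MP_4d044e_co.TW.OPT
import Pool.Agent.Lib.MP_4d044e_co.TW.REM

/-!
# The minimal counterexample (section 2 of the blueprint of S08642)
-/

set_option autoImplicit false
set_option linter.unusedSectionVars false

namespace Pool.Agent.Lib.MP_4d044e_co.TW

open Finset
open scoped Classical

namespace INDM

variable {V : Type} [Fintype V] [DecidableEq V]

/-- The general step: delete `X`, pass to `H ≥ G`, glue `t` vertices. -/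
theorem gstep (η w0 δ : ℝ) (k : ℕ) (G : SimpleGraph V)
    (w : V → ℝ) (hw : ∀ v, 0 < w v ∧ w v < 1)
    (hfoc : ∀ v, nu w (nbr G v) + 2 * w v + η * Real.log (w v / w0) = 1)
    (ih : ∀ (V' : Type) [Fintype V'] [DecidableEq V'] (G' : SimpleGraph V'),
      Fintype.card V' < Fintype.card V → ∃ R : Finset V', Good k G' R ∧
        ∀ u : V' → ℝ, (∀ v, 0 ≤ u v ∧ u v ≤ 1) → (1 + δ) * FF η w0 G' u ≤ R.card)
    (hno : ∀ R : Finset V, Good k G R → (R.card : ℝ) < (1 + δ) * FF η w0 G w)
    (X : Finset V) (hX : X.Nonempty) (H : SimpleGraph V) (hGH : G ≤ H) (t : ℕ)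
    (glue : ∀ R' : Finset V, Disjoint R' X → Good k H R' →
      ∃ R : Finset V, Good k G R ∧ R.card = R'.card + t) :
    (t : ℝ) < (1 + δ) * (4 * ((ee G w X X + ∑ v ∈ X, (2 * w v ^ 2 + 2 * η * (w v - w0))) +
      (∑ u ∈ Xᶜ, ∑ v ∈ Xᶜ, if H.Adj u v ∧ ¬ G.Adj u v then w u * w v else 0))) := by
  obtain ⟨x0, hx0⟩ := hX
  have hcard : Fintype.card {v // v ∉ X} < Fintype.card V :=
    Fintype.card_subtype_lt (x := x0) (by simpa using hx0)
  obtain ⟨R0, hR0, hR0'⟩ := ih {v // v ∉ X} (H.comap (Subtype.val : {v // v ∉ X} → V)) hcard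
  have h1 := hR0' (fun x => w x.1) (fun x => ⟨(hw x.1).1.le, (hw x.1).2.le⟩)
  rw [rem η w0 G H hGH w X fun v _ => hfoc v] at h1
  have h2 : Good k H (R0.image Subtype.val) := hR0.of_subtype (p := fun v => v ∉ X)
    (fun a _ b _ hab => hab)
  obtain ⟨R, hR, hRc⟩ := glue (R0.image Subtype.val) (by
    rw [Finset.disjoint_left]
    intro v hv hvX
    obtain ⟨a, -, rfl⟩ := mem_image.1 hv
    exact a.2 hvX) h2
  have h3 := hno R hR
  rw [card_image_of_injective _ Subtype.val_injective] at hRc
  have h4 : (R.card : ℝ) = R0.card + t := by exact_mod_cast hRc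
  rw [h4] at h3
  nlinarith

theorem card_mul_le {w : V → ℝ} {a : ℝ} (X : Finset V) (h : ∀ v ∈ X, a ≤ w v) :
    (X.card : ℝ) * a ≤ nu w X := by
  unfold nu
  have := Finset.card_nsmul_le_sum X w a h
  rwa [nsmul_eq_mul] at this

theorem glue_one {k : ℕ} (G : SimpleGraph V) (t : V) (X : Finset V) (ht : t ∈ X)
    (hdeg : (nbr G t).card ≤ k) (R' : Finset V) (hd : Disjoint R' X)
    (h : Good k (G ⊔ clq (nbr G t \ X)) R') : ∃ R : Finset V, Good k G R ∧ R.card = R'.card + 1 := by
  have hRX : ∀ r ∈ R', r ∉ X := fun r hr => Finset.disjoint_left.1 hd hr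
  have htR : t ∉ R' := fun h => hRX t h ht
  refine ⟨insert t R', Good.add_one h htR ((card_le_card sdiff_subset).trans hdeg) ?_,
    card_insert_of_notMem htR⟩
  intro r hr hadj
  exact mem_sdiff.2 ⟨mem_nbr.2 hadj, hRX r hr⟩

theorem glue_two {k : ℕ} (G : SimpleGraph V) (u v : V) (X : Finset V) (hu : u ∈ X) (hv : v ∈ X)
    (huv : u ≠ v) (hna : ¬ G.Adj u v) (hdu : (nbr G u).card ≤ k) (hdv : (nbr G v).card ≤ k)
    (R' : Finset V) (hd : Disjoint R' X)
    (h : Good k (G ⊔ clq (nbr G u \ X) ⊔ clq (nbr G v \ X)) R') :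
    ∃ R : Finset V, Good k G R ∧ R.card = R'.card + 2 := by
  have hRX : ∀ r ∈ R', r ∉ X := fun r hr => Finset.disjoint_left.1 hd hr
  have huR : u ∉ R' := fun h => hRX u h hu
  have hvR : v ∉ R' := fun h => hRX v h hv
  refine ⟨insert u (insert v R'), Good.add_two_nonadj h huR hvR huv hna
    ((card_le_card sdiff_subset).trans hdu) ((card_le_card sdiff_subset).trans hdv)
    (fun r hr hadj => mem_sdiff.2 ⟨mem_nbr.2 hadj, hRX r hr⟩)
    (fun r hr hadj => mem_sdiff.2 ⟨mem_nbr.2 hadj, hRX r hr⟩), ?_⟩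
  rw [card_insert_of_notMem, card_insert_of_notMem hvR]
  rw [mem_insert, not_or]
  exact ⟨huv, huR⟩

theorem glue_adj {k : ℕ} (G : SimpleGraph V) (u v : V) (X : Finset V) (hu : u ∈ X) (hv : v ∈ X)
    (huv : u ≠ v) (hdk : (nbr G u).card + (nbr G v).card + 1 ≤ k)
    (R' : Finset V) (hd : Disjoint R' X)
    (h : Good k (G ⊔ clq ((nbr G u ∪ nbr G v) \ X)) R') :
    ∃ R : Finset V, Good k G R ∧ R.card = R'.card + 2 := by
  have hRX : ∀ r ∈ R', r ∉ X := fun r hr => Finset.disjoint_left.1 hd hr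
  have huR : u ∉ R' := fun h => hRX u h hu
  have hvR : v ∉ R' := fun h => hRX v h hv
  refine ⟨insert u (insert v R'), Good.add_two_adj h huR hvR huv ?_ ?_, ?_⟩
  · have h1 := card_le_card (sdiff_subset : (nbr G u ∪ nbr G v) \ X ⊆ nbr G u ∪ nbr G v)
    have h2 := card_union_le (nbr G u) (nbr G v)
    omega
  · intro r hr hadj
    refine mem_sdiff.2 ⟨?_, hRX r hr⟩
    rcases hadj with hadj | hadj
    · exact mem_union_left _ (mem_nbr.2 hadj)
    · exact mem_union_right _ (mem_nbr.2 hadj)
  · rw [card_insert_of_notMem, card_insert_of_notMem hvR]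
    rw [mem_insert, not_or]
    exact ⟨huv, huR⟩

theorem glue_set {k C0 : ℕ} (hk : C0 ≤ k) (G : SimpleGraph V) (T : Finset V) (hT : T.card ≤ C0)
    (R' : Finset V) (hd : Disjoint R' (cN G T)) (h : Good k G R') :
    ∃ R : Finset V, Good k G R ∧ R.card = R'.card + T.card := by
  have hRX : ∀ r ∈ R', r ∉ cN G T := fun r hr => Finset.disjoint_left.1 hd hr
  have hdis : Disjoint T R' := by
    rw [Finset.disjoint_left]
    intro t ht hr
    exact hRX t hr (mem_cN.2 ⟨t, ht, self_mem_cn G t⟩)
  refine ⟨T ∪ R', Good.add_set h (hT.trans hk) hdis ?_, ?_⟩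
  · intro t ht r hr hadj
    exact hRX r hr (mem_cN.2 ⟨t, ht, mem_cn.2 (Or.inr hadj)⟩)
  · rw [card_union_of_disjoint hdis, add_comm]

theorem addH1 (G H : SimpleGraph V) (w : V → ℝ) (hw : ∀ v, 0 ≤ w v) (X Q : Finset V)
    (hH : H = G ⊔ clq Q) :
    (∑ u ∈ Xᶜ, ∑ v ∈ Xᶜ, if H.Adj u v ∧ ¬ G.Adj u v then w u * w v else 0) ≤ miss G w Q := by
  subst hH
  refine le_trans (le_of_eq ?_) (rem_add1 G w hw X Q)
  refine sum_congr rfl fun u _ => sum_congr rfl fun v _ => ?_
  split_ifs <;> rfl

theorem addH2 (G H : SimpleGraph V) (w : V → ℝ) (hw : ∀ v, 0 ≤ w v) (X Q Q' : Finset V)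
    (hH : H = G ⊔ clq Q ⊔ clq Q') :
    (∑ u ∈ Xᶜ, ∑ v ∈ Xᶜ, if H.Adj u v ∧ ¬ G.Adj u v then w u * w v else 0) ≤
      miss G w Q + miss G w Q' := by
  subst hH
  refine le_trans (le_of_eq ?_) (rem_add2 G w hw X Q Q')
  refine sum_congr rfl fun u _ => sum_congr rfl fun v _ => ?_
  split_ifs <;> rfl

theorem L_le (G : SimpleGraph V) {w : V → ℝ} {η w0 : ℝ} (hη : 0 < η) (hw0 : 0 < w0)
    (h0 : ∀ v, 0 ≤ w v) (hhi : ∀ v, 2 * w v ≤ η) (X : Finset V) :
    ee G w X X + ∑ v ∈ X, (2 * w v ^ 2 + 2 * η * (w v - w0)) ≤ ee G w X X + 3 * η * nu w X := by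
  have h1 : ∑ v ∈ X, (2 * w v ^ 2 + 2 * η * (w v - w0)) ≤ 3 * η * nu w X := by
    unfold nu
    rw [mul_sum]
    refine sum_le_sum fun v _ => ?_
    have h2 : 2 * w v ^ 2 ≤ η * w v := by
      have := mul_le_mul_of_nonneg_right (hhi v) (h0 v)
      nlinarith
    have h3 : 0 < η * w0 := mul_pos hη hw0
    nlinarith
  linarith

end INDM

open INDM in
theorem ind (η w0 β δ : ℝ) (k C0 : ℕ) (hη : η = 1 / 10 ^ 39) (hw0 : 0 < w0)
    (hβ : β = w0 * Real.exp (1 / η)) (hβ1 : β ≤ 1 / 10 ^ 200) (hδ : 0 ≤ δ) (hδη : δ ≤ η)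
    (hk : C0 ≤ k) (hk2 : 4 / w0 ≤ k)
    (final : ∀ (V : Type) [Fintype V] [DecidableEq V] (G : SimpleGraph V) (w : V → ℝ),
      NG G w w0 β η C0 → (∀ v, (nbr G v).card + 1 ≤ k) →
      ∃ R : Finset V, Good k G R ∧ (1 + δ) * FF η w0 G w ≤ R.card) :
    ∀ (V : Type) [Fintype V] [DecidableEq V] (G : SimpleGraph V),
      ∃ R : Finset V, Good k G R ∧
        ∀ u : V → ℝ, (∀ v, 0 ≤ u v ∧ u v ≤ 1) → (1 + δ) * FF η w0 G u ≤ R.card := by
  have hη0 : 0 < η := by rw [hη]; positivity
  have hexp : (1 : ℝ) ≤ Real.exp (1 / η) := Real.one_le_exp (by positivity)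
  have hw0β : w0 ≤ β := by
    rw [hβ]
    nlinarith
  have hw0s : w0 ≤ 1 / 10 ^ 200 := hw0β.trans hβ1
  have hw0h : w0 ≤ 1 / 2 := hw0s.trans (by norm_num)
  have hβη : 2 * β ≤ η := by
    rw [hη]
    have : (2 : ℝ) * (1 / 10 ^ 200) ≤ 1 / 10 ^ 39 := by norm_num
    linarith
  have hinv : (1 : ℝ) ≤ 1 / w0 := by
    rw [le_div_iff₀ hw0]
    linarith
  have main : ∀ n : ℕ, ∀ (V : Type) [Fintype V] [DecidableEq V] (G : SimpleGraph V),
      Fintype.card V = n → ∃ R : Finset V, Good k G R ∧
        ∀ u : V → ℝ, (∀ v, 0 ≤ u v ∧ u v ≤ 1) → (1 + δ) * FF η w0 G u ≤ R.card := by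
    intro n
    induction n using Nat.strong_induction_on with
    | _ n ih =>
      intro V _ _ G hn
      obtain ⟨w, hw, hmax, hfoc⟩ := opt η w0 hη0 hw0 hw0h G
      by_contra hcon
      have hno : ∀ R : Finset V, Good k G R → (R.card : ℝ) < (1 + δ) * FF η w0 G w := by
        intro R hR
        by_contra h
        refine hcon ⟨R, hR, fun u hu => ?_⟩
        exact (mul_le_mul_of_nonneg_left (hmax u hu) (by linarith)).trans (not_lt.1 h)
      have ih' : ∀ (V' : Type) [Fintype V'] [DecidableEq V'] (G' : SimpleGraph V'),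
          Fintype.card V' < Fintype.card V → ∃ R : Finset V', Good k G' R ∧
          ∀ u : V' → ℝ, (∀ v, 0 ≤ u v ∧ u v ≤ 1) → (1 + δ) * FF η w0 G' u ≤ R.card :=
        fun V' _ _ G' h => ih (Fintype.card V') (hn ▸ h) V' G' rfl
      have w0' : ∀ v, 0 ≤ w v := fun v => (hw v).1.le
      have step := gstep η w0 δ k G w hw hfoc ih' hno
      have addG : ∀ X : Finset V,
          (∑ u ∈ Xᶜ, ∑ v ∈ Xᶜ, if G.Adj u v ∧ ¬ G.Adj u v then w u * w v else 0) = 0 := by
        intro X
        refine sum_eq_zero fun u _ => sum_eq_zero fun v _ => ?_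
        rw [if_neg]
        exact fun h => h.2 h.1
      -- the deletion of one vertex
      have hquad : ∀ v, 0 < w v ^ 2 + η * (w v - w0) := by
        intro v
        have h1 := step {v} (singleton_nonempty v) G le_rfl 0 (fun R' _ h => ⟨R', h, rfl⟩)
        rw [addG {v}, sum_singleton] at h1
        have h2 : ee G w {v} {v} = 0 := by simp [ee]
        rw [h2] at h1
        push_cast at h1
        have h3 : 0 < 1 + δ := by linarith
        by_contra hc
        have h4 : 4 * (0 + (2 * w v ^ 2 + 2 * η * (w v - w0)) + 0) ≤ 0 := by linarith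
        have h5 := mul_nonpos_of_nonneg_of_nonpos h3.le h4
        linarith
      have wlo : ∀ v, w0 * (99 / 100) ≤ w v := by
        intro v
        by_contra hc
        have hc' := not_le.1 hc
        have h1 := hquad v
        have h2 : w v ^ 2 ≤ w0 * (1 / 10 ^ 200) := by
          have h3 : w v ≤ w0 := by linarith
          calc w v ^ 2 = w v * w v := by ring
            _ ≤ w0 * w0 := mul_le_mul h3 h3 (w0' v) hw0.le
            _ ≤ _ := mul_le_mul_of_nonneg_left hw0s hw0.le
        have h3 : η * (w v - w0) ≤ η * (-(w0 / 100)) :=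
          mul_le_mul_of_nonneg_left (by linarith) hη0.le
        have h4 : w0 * (1 / 10 ^ 200) + η * (-(w0 / 100)) ≤ 0 := by
          rw [hη]
          have : w0 * (1 / 10 ^ 200) + 1 / 10 ^ 39 * (-(w0 / 100)) =
              w0 * (1 / 10 ^ 200 - 1 / 10 ^ 41) := by ring
          rw [this]
          exact mul_nonpos_of_nonneg_of_nonpos hw0.le (by norm_num)
        linarith
      have hν : ∀ v, 0 ≤ nu w (nbr G v) := fun v => nu_nonneg w0' _
      have whi : ∀ v, w v ≤ β := by
        intro v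
        have h1 := hfoc v
        have h2 : Real.log (w v / w0) ≤ 1 / η := by
          rw [le_div_iff₀ hη0]
          have := (hw v).1
          linarith [hν v]
        have h3 : w v / w0 ≤ Real.exp (1 / η) := by
          rwa [← Real.log_le_iff_le_exp (div_pos (hw v).1 hw0)]
        rw [div_le_iff₀ hw0] at h3
        rw [hβ]
        linarith
      have hcn : ∀ v, nu w (cn G v) ≤ 1 := by
        intro v
        have h1 := hfoc v
        have h2 : nu w (cn G v) = w v + nu w (nbr G v) := by
          unfold nu cn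
          rw [sum_insert (not_mem_nbr_self G v)]
        have hwv := (hw v).1
        have h3 : - Real.log (w v / w0) ≤ w0 / w v - 1 := by
          rw [← Real.log_inv, inv_div]
          exact Real.log_le_sub_one_of_pos (div_pos hw0 hwv)
        have h4 : η * (w0 / w v - 1) ≤ w v := by
          have h5 : w0 / w v - 1 = (w0 - w v) / w v := by field_simp
          rw [h5, ← mul_div_assoc, div_le_iff₀ hwv]
          nlinarith [hquad v]
        have h5 := mul_le_mul_of_nonneg_left h3 hη0.le
        rw [h2]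
        linarith
      have hnb1 : ∀ v, nu w (nbr G v) ≤ 1 := fun v =>
        (nu_mono w0' (nbr_subset_cn G v)).trans (hcn v)
      have hdeg : ∀ v, ((nbr G v).card : ℝ) ≤ 3 / 2 * (1 / w0) := by
        intro v
        have h1 := card_mul_le (w := w) (nbr G v) (fun u _ => wlo u)
        have h2 := hnb1 v
        rw [← mul_div_assoc, le_div_iff₀ hw0]
        nlinarith
      have h4w : 4 * (1 / w0) ≤ (k : ℝ) := by
        have : 4 * (1 / w0) = 4 / w0 := by ring
        rw [this]; exact hk2
      have hdk2 : ∀ u v, (nbr G u).card + (nbr G v).card + 1 ≤ k := by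
        intro u v
        have h1 := hdeg u
        have h2 := hdeg v
        have : (((nbr G u).card + (nbr G v).card + 1 : ℕ) : ℝ) ≤ (k : ℝ) := by
          push_cast
          linarith
        exact_mod_cast this
      have hdk : ∀ v, (nbr G v).card + 1 ≤ k := fun v => by
        have := hdk2 v v
        omega
      -- the main step
      have hfac : (1 - η) * (1 + δ) ≤ 1 := by nlinarith [sq_nonneg η]
      have h1η : 0 ≤ 1 - η := by
        rw [hη]; norm_num
      have mstep : ∀ (X : Finset V), X.Nonempty → ∀ H : SimpleGraph V, G ≤ H → ∀ (t : ℕ) (M : ℝ),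
          0 ≤ M → (∑ u ∈ Xᶜ, ∑ v ∈ Xᶜ, if H.Adj u v ∧ ¬ G.Adj u v then w u * w v else 0) ≤ M →
          (∀ R' : Finset V, Disjoint R' X → Good k H R' →
            ∃ R : Finset V, Good k G R ∧ R.card = R'.card + t) →
          (1 - η) * t ≤ 4 * (ee G w X X + 3 * η * nu w X + M) := by
        intro X hX H hGH t M hM hadd glue
        have h1 := step X hX H hGH t glue
        have h2 := L_le G hη0 hw0 w0' (fun v => by linarith [whi v]) X
        have h3 : 0 ≤ ee G w X X + 3 * η * nu w X + M := by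
          have := ee_nonneg (G := G) w0' X X
          have := nu_nonneg w0' X
          positivity
        have h4 : (t : ℝ) ≤ (1 + δ) * (4 * (ee G w X X + 3 * η * nu w X + M)) := by
          refine h1.le.trans (mul_le_mul_of_nonneg_left ?_ (by linarith))
          linarith
        calc (1 - η) * (t : ℝ) ≤ (1 - η) * ((1 + δ) * (4 * (ee G w X X + 3 * η * nu w X + M))) :=
              mul_le_mul_of_nonneg_left h4 h1η
          _ = ((1 - η) * (1 + δ)) * (4 * (ee G w X X + 3 * η * nu w X + M)) := by ring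
          _ ≤ 1 * (4 * (ee G w X X + 3 * η * nu w X + M)) :=
              mul_le_mul_of_nonneg_right hfac (by linarith)
          _ = _ := by ring
      have hNG : NG G w w0 β η C0 :=
        { hη := hη
          w0pos := hw0
          w0β := hw0β
          βsm := hβ1
          wlo := wlo
          whi := whi
          foc := hfoc
          cls := fun v => by
            have := hcn v
            linarith
          ng1 := by
            intro T hT hTc
            obtain ⟨t, ht⟩ := hT
            have h1 := mstep (cN G T) ⟨t, mem_cN.2 ⟨t, ht, self_mem_cn G t⟩⟩ G le_rfl T.card 0 le_rfl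
              (addG _).le (fun R' hd h => glue_set hk G T hTc R' hd h)
            rwa [add_zero] at h1
          ng2 := by
            intro t X ht
            have h1 := mstep X ⟨t, ht⟩ (G ⊔ clq (nbr G t \ X)) le_sup_left 1
              (miss G w (nbr G t \ X)) (miss_nonneg w0' _) (addH1 G _ w w0' X _ rfl)
              (fun R' hd h => glue_one G t X ht (by have := hdk t; omega) R' hd h)
            rwa [Nat.cast_one, mul_one] at h1
          ng3a := by
            intro u v X hu hv huv hna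
            have h1 := mstep X ⟨u, hu⟩ (G ⊔ clq (nbr G u \ X) ⊔ clq (nbr G v \ X))
              (le_sup_left.trans le_sup_left) 2
              (miss G w (nbr G u \ X) + miss G w (nbr G v \ X))
              (add_nonneg (miss_nonneg w0' _) (miss_nonneg w0' _)) (addH2 G _ w w0' X _ _ rfl)
              (fun R' hd h => glue_two G u v X hu hv huv hna (by have := hdk u; omega)
                (by have := hdk v; omega) R' hd h)
            rw [Nat.cast_ofNat] at h1
            linarith
          ng3b := by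
            intro u v X hu hv huv
            have h1 := mstep X ⟨u, hu⟩ (G ⊔ clq ((nbr G u ∪ nbr G v) \ X)) le_sup_left 2
              (miss G w ((nbr G u ∪ nbr G v) \ X)) (miss_nonneg w0' _) (addH1 G _ w w0' X _ rfl)
              (fun R' hd h => glue_adj G u v X hu hv (G.ne_of_adj huv) (hdk2 u v) R' hd h)
            rwa [Nat.cast_ofNat] at h1 }
      obtain ⟨R, hR, hR'⟩ := final V G w hNG hdk
      exact absurd (hno R hR) (not_lt.2 hR')
  intro V _ _ G
  exact main (Fintype.card V) V G rfl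

end Pool.Agent.Lib.MP_4d044e_co.TW
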