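import Pool.Agent.Lib.MP_4d044e_co.TW.Defs

/-!
The margin of one cluster for odd `d` (section 9 of the blueprint).
-/

set_option autoImplicit false

namespace Pool.Agent.Lib.MP_4d044e_co.TW

open Finset
open scoped Classical

variable {V : Type} [Fintype V] [DecidableEq V]

/-- `x log x - x + 1 ≥ (x-1)^2 / 64` for `0 < x ≤ 40` -/
theorem ent_lb (x : ℝ) (hx : 0 < x) (hx2 : x ≤ 40) :
    (x - 1) ^ 2 / 64 ≤ x * Real.log x - x + 1 := by
  set y : ℝ := Real.sqrt x with hy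
  have hy0 : 0 < y := Real.sqrt_pos.mpr hx
  have hyx : y ^ 2 = x := Real.sq_sqrt hx.le
  have hy7 : y ≤ 7 := by nlinarith
  have hlog : Real.log x = 2 * Real.log y := by
    rw [← hyx, Real.log_pow]; norm_num
  have h1 : Real.log (1 / y) ≤ 1 / y - 1 := Real.log_le_sub_one_of_pos (by positivity)
  rw [one_div, Real.log_inv] at h1
  have h2 : y * (1 - y⁻¹) ≤ y * Real.log y := by
    apply mul_le_mul_of_nonneg_left _ hy0.le
    linarith
  have h3 : y * (1 - y⁻¹) = y - 1 := by field_simp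
  rw [h3] at h2
  have h4 : x * Real.log x = 2 * y * (y * Real.log y) := by rw [hlog, ← hyx]; ring
  have h5 : 2 * y * (y - 1) ≤ x * Real.log x := by
    rw [h4]
    exact mul_le_mul_of_nonneg_left h2 (by positivity)
  have h6 : (y - 1) ^ 2 ≤ x * Real.log x - x + 1 := by
    rw [← hyx]
    rw [← hyx] at h5
    nlinarith
  refine le_trans ?_ h6
  rw [div_le_iff₀ (by norm_num), ← hyx]
  have h7 : (y ^ 2 - 1) ^ 2 = (y - 1) ^ 2 * (y + 1) ^ 2 := by ring
  rw [h7]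
  apply mul_le_mul_of_nonneg_left _ (sq_nonneg _)
  nlinarith

theorem ent_lb_w (w0 u : ℝ) (hw0 : 0 < w0) (hu : 0 < u) (hu2 : u ≤ 40 * w0) :
    (u - w0) ^ 2 / (64 * w0) ≤ u * Real.log (u / w0) - u + w0 := by
  have hx : 0 < u / w0 := by positivity
  have hx2 : u / w0 ≤ 40 := by rw [div_le_iff₀ hw0]; exact hu2
  have h := mul_le_mul_of_nonneg_left (ent_lb (u / w0) hx hx2) hw0.le
  have e1 : w0 * ((u / w0 - 1) ^ 2 / 64) = (u - w0) ^ 2 / (64 * w0) := by
    field_simp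
  have e2 : w0 * (u / w0 * Real.log (u / w0) - u / w0 + 1)
      = u * Real.log (u / w0) - u + w0 := by
    field_simp
  rw [e1, e2] at h
  exact h

theorem margin (d : ℕ) (hd : Odd d) (η w0 : ℝ) (hw0 : w0 = 1 / (d + 2)) (hη : 0 < η)
    (hη1 : η ≤ 1) (C : Finset V) (w : V → ℝ) (hlo : ∀ v ∈ C, w0 * (99 / 100) ≤ w v)
    (hhi : ∀ v ∈ C, w v ≤ 40 * w0) (hC : nu w C ≤ 51 / 100) :
    η * w0 ^ 3 / 256 ≤ (1 - 2 * nu w C) ^ 2
      + ∑ v ∈ C, 4 * η * (w v * Real.log (w v / w0) - w v + w0) := by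
  have hd0 : (0 : ℝ) < (d : ℝ) + 2 := by positivity
  have hw0pos : 0 < w0 := by rw [hw0]; positivity
  have hw01 : w0 ≤ 1 := by
    rw [hw0, div_le_one hd0]
    have : (0 : ℝ) ≤ d := Nat.cast_nonneg d
    linarith
  have hwd : w0 * ((d : ℝ) + 2) = 1 := by rw [hw0]; field_simp
  set S : ℝ := ∑ v ∈ C, (w v - w0) with hS
  set n : ℝ := (C.card : ℝ) with hn
  have hnS : nu w C = n * w0 + S := by
    rw [hS, Finset.sum_sub_distrib, Finset.sum_const, nsmul_eq_mul]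
    unfold nu
    ring
  have hn0 : 0 ≤ n := Nat.cast_nonneg _
  -- n w0 ≤ 1
  have hnw : n * w0 ≤ 1 := by
    have h1 : n * (w0 * (99 / 100)) ≤ nu w C := by
      unfold nu
      rw [hn, ← nsmul_eq_mul, ← Finset.sum_const]
      exact Finset.sum_le_sum hlo
    linarith
  -- parity
  have hpar : w0 ≤ |1 - 2 * (n * w0)| := by
    have e : 1 - 2 * (n * w0) = w0 * (((d : ℤ) + 2 - 2 * (C.card : ℤ) : ℤ) : ℝ) := by
      push_cast
      rw [← hn]
      linear_combination -hwd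
    rw [e, abs_mul, abs_of_pos hw0pos]
    have hint : (1 : ℤ) ≤ |(d : ℤ) + 2 - 2 * (C.card : ℤ)| := by
      apply Int.one_le_abs
      intro h0
      obtain ⟨m, hm⟩ := hd
      omega
    have hint' : (1 : ℝ) ≤ |(((d : ℤ) + 2 - 2 * (C.card : ℤ) : ℤ) : ℝ)| := by
      rw [← Int.cast_abs]
      exact_mod_cast hint
    nlinarith
  -- the entropy terms
  have hent : ∀ v ∈ C, η * (w v - w0) ^ 2 / (16 * w0)
      ≤ 4 * η * (w v * Real.log (w v / w0) - w v + w0) := by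
    intro v hv
    have hwv : 0 < w v := by
      have := hlo v hv
      nlinarith
    have h := ent_lb_w w0 (w v) hw0pos hwv (hhi v hv)
    have h2 := mul_le_mul_of_nonneg_left h (show (0 : ℝ) ≤ 4 * η by linarith)
    refine le_trans (le_of_eq ?_) h2
    field_simp
    ring
  have hsum := Finset.sum_le_sum hent
  have hsq : S ^ 2 ≤ n * ∑ v ∈ C, (w v - w0) ^ 2 := by
    rw [hS, hn]
    exact sq_sum_le_card_mul_sum_sq
  have hQ : ∑ v ∈ C, η * (w v - w0) ^ 2 / (16 * w0)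
      = η / (16 * w0) * ∑ v ∈ C, (w v - w0) ^ 2 := by
    rw [Finset.mul_sum]
    refine Finset.sum_congr rfl fun v _ => ?_
    ring
  rw [hQ] at hsum
  set Q : ℝ := ∑ v ∈ C, (w v - w0) ^ 2 with hQdef
  have hQ0 : 0 ≤ Q := Finset.sum_nonneg fun v _ => sq_nonneg _
  have hηw : 0 ≤ η / (16 * w0) := by positivity
  have hent0 : 0 ≤ η / (16 * w0) * Q := mul_nonneg hηw hQ0
  have hw3 : η * w0 ^ 3 ≤ η * w0 ^ 2 := by
    apply mul_le_mul_of_nonneg_left _ hη.le
    nlinarith [sq_nonneg w0]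
  by_cases hcase : w0 / 2 ≤ |1 - 2 * nu w C|
  · have h1 : (w0 / 2) ^ 2 ≤ (1 - 2 * nu w C) ^ 2 := by
      rw [← sq_abs (1 - 2 * nu w C)]
      exact pow_le_pow_left₀ (by positivity) hcase 2
    have h2 : η * w0 ^ 2 ≤ 1 * w0 ^ 2 := mul_le_mul_of_nonneg_right hη1 (sq_nonneg w0)
    nlinarith
  · push Not at hcase
    have h1 : w0 / 4 ≤ |S| := by
      have e : 1 - 2 * (n * w0) = (1 - 2 * nu w C) + 2 * S := by rw [hnS]; ring
      rw [e] at hpar
      have h2 := abs_add_le (1 - 2 * nu w C) (2 * S)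
      rw [abs_mul, abs_of_pos (by norm_num : (0 : ℝ) < 2)] at h2
      linarith
    have h2 : (w0 / 4) ^ 2 ≤ S ^ 2 := by
      rw [← sq_abs S]
      exact pow_le_pow_left₀ (by positivity) h1 2
    have h3 : w0 ^ 2 / 16 ≤ n * Q := by nlinarith
    have h4 : w0 ^ 3 / 16 ≤ Q := by
      have h5 : w0 * (w0 ^ 2 / 16) ≤ w0 * (n * Q) := mul_le_mul_of_nonneg_left h3 hw0pos.le
      have h6 : w0 * (n * Q) = (n * w0) * Q := by ring
      have h7 : (n * w0) * Q ≤ 1 * Q := mul_le_mul_of_nonneg_right hnw hQ0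
      nlinarith
    have h5 : η / (16 * w0) * (w0 ^ 3 / 16) ≤ η / (16 * w0) * Q :=
      mul_le_mul_of_nonneg_left h4 hηw
    have h6 : η / (16 * w0) * (w0 ^ 3 / 16) = η * w0 ^ 2 / 256 := by
      field_simp
      ring
    rw [h6] at h5
    have h7 := sq_nonneg (1 - 2 * nu w C)
    linarith

end Pool.Agent.Lib.MP_4d044e_co.TW
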