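import Pool.Agent.Lib.MP_4d044e_co.TW.Defs

/-! PFG: a set of distinct representatives, one for each cluster, induces a graph of small
tree-width. -/

set_option autoImplicit false
set_option linter.unusedSectionVars false

namespace Pool.Agent.Lib.MP_4d044e_co.TW

open Finset
open scoped Classical

variable {V : Type} [Fintype V] [DecidableEq V]

/-- graphs of maximum degree at most two -/
theorem pfg_deg2 {k : ℕ} (hk : 2 ≤ k) (n : ℕ) : ∀ (R : Finset V) (G : SimpleGraph V),
    R.card = n → (∀ u ∈ R, ∃ S : Finset V, S.card ≤ 2 ∧ ∀ v ∈ R, G.Adj u v → v ∈ S) →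
      Good k G R := by
  induction n with
  | zero =>
    intro R G hR _
    rw [card_eq_zero] at hR
    subst hR
    exact Good.empty G
  | succ n ih =>
    intro R G hR hdeg
    obtain ⟨t, ht⟩ : R.Nonempty := by
      rw [← card_pos, hR]; omega
    have hins : insert t (R.erase t) = R := insert_erase ht
    rw [← hins]
    set K := (R.erase t).filter (fun v => G.Adj t v) with hK
    have hKc : K.card ≤ 2 := by
      obtain ⟨S, hS, hS2⟩ := hdeg t ht
      refine (card_le_card ?_).trans hS
      intro v hv
      rw [hK, mem_filter] at hv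
      exact hS2 v (mem_of_mem_erase hv.1) hv.2
    refine Good.step G (R.erase t) K t (notMem_erase t R) (filter_subset _ _) (hKc.trans hk) ?_ ?_
    · intro r hr hadj
      rw [hK, mem_filter]
      exact ⟨hr, hadj⟩
    · refine ih (R.erase t) (G ⊔ clq K) ?_ ?_
      · rw [card_erase_of_mem ht, hR]; rfl
      · intro u hu
        have huR : u ∈ R := mem_of_mem_erase hu
        obtain ⟨S, hS, hS2⟩ := hdeg u huR
        by_cases huK : u ∈ K
        · have htm : t ∈ S := by
            rw [hK, mem_filter] at huK
            exact hS2 t ht huK.2.symm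
          refine ⟨S.erase t ∪ K.erase u, ?_, ?_⟩
          · have h2 : (S.erase t).card ≤ 1 := by
              rw [card_erase_of_mem htm]
              omega
            have h3 : (K.erase u).card ≤ 1 := by
              rw [card_erase_of_mem huK]
              omega
            exact (card_union_le _ _).trans (by omega)
          · intro v hvR hv
            rw [mem_union, mem_erase, mem_erase]
            rcases hv with hv | hv
            · exact Or.inl ⟨ne_of_mem_erase hvR, hS2 v (mem_of_mem_erase hvR) hv⟩
            · exact Or.inr ⟨hv.1.symm, hv.2.2⟩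
        · refine ⟨S, hS, ?_⟩
          intro v hvR hv
          rcases hv with h | h
          · exact hS2 v (mem_of_mem_erase hvR) h
          · exact absurd h.2.1 huK

/-- the case in which every cluster has at least two vertices of `R` -/
theorem pfg_two {G : SimpleGraph V} {k : ℕ} (CC : Finset (Finset V)) (f : Finset V → V)
    (hinj : ∀ C ∈ CC, ∀ C' ∈ CC, f C = f C' → C = C')
    (htwo : ∀ v, (CC.filter (fun C => v ∈ C)).card ≤ 2) (hk : 2 ≤ k)
    (hadj : ∀ u ∈ CC.image f, ∀ v ∈ CC.image f, G.Adj u v → ∃ C ∈ CC, u ∈ C ∧ v ∈ C)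
    (h2 : ∀ C ∈ CC, 2 ≤ (C ∩ CC.image f).card) :
    Good k G (CC.image f) := by
  set R := CC.image f with hR
  have hRc : R.card = CC.card := by
    rw [hR, card_image_of_injOn]
    intro C hC C' hC' h
    exact hinj C hC C' hC' h
  -- double count
  have hdc : ∑ C ∈ CC, (C ∩ R).card ≤ 2 * R.card := by
    have h8 : ∑ C ∈ CC, (C ∩ R).card = ∑ v ∈ R, (CC.filter fun C => v ∈ C).card := by
      have h := sum_card_bipartiteAbove_eq_sum_card_bipartiteBelow (s := CC) (t := R)
        (fun C v => v ∈ C)
      refine Eq.trans (sum_congr rfl fun C hC => ?_) h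
      congr 1
      ext v
      simp only [bipartiteAbove, mem_filter, mem_inter]
      tauto
    rw [h8, mul_comm, ← smul_eq_mul]
    exact sum_le_card_nsmul _ _ _ fun v _ => htwo v
  have heq : ∀ C ∈ CC, (C ∩ R).card = 2 := by
    by_contra hcon
    push Not at hcon
    obtain ⟨C0, hC0, hne⟩ := hcon
    have hlt : ∑ C ∈ CC, 2 < ∑ C ∈ CC, (C ∩ R).card := by
      apply sum_lt_sum h2
      exact ⟨C0, hC0, lt_of_le_of_ne (h2 C0 hC0) (Ne.symm hne)⟩
    rw [sum_const, smul_eq_mul] at hlt
    omega
  refine pfg_deg2 hk R.card R G rfl ?_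
  intro u hu
  refine ⟨R.filter (fun v => G.Adj u v), ?_, fun v hv hadjv => mem_filter.mpr ⟨hv, hadjv⟩⟩
  have hsub : R.filter (fun v => G.Adj u v) ⊆
      (CC.filter (fun C => u ∈ C)).biUnion (fun C => (C ∩ R).erase u) := by
    intro v hv
    rw [mem_filter] at hv
    obtain ⟨C, hC, huC, hvC⟩ := hadj u hu v hv.1 hv.2
    rw [mem_biUnion]
    refine ⟨C, mem_filter.mpr ⟨hC, huC⟩, ?_⟩
    rw [mem_erase, mem_inter]
    exact ⟨hv.2.ne.symm, hvC, hv.1⟩
  calc (R.filter (fun v => G.Adj u v)).card ≤ _ := card_le_card hsub
    _ ≤ (CC.filter (fun C => u ∈ C)).card * 1 := by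
        apply card_biUnion_le_card_mul
        intro C hC
        rw [mem_filter] at hC
        rw [card_erase_of_mem (mem_inter.mpr ⟨hC.2, hu⟩), heq C hC.1]
    _ ≤ 2 := by
        rw [mul_one]
        exact htwo u

theorem pfg {G : SimpleGraph V} {k : ℕ} (CC : Finset (Finset V)) (f : Finset V → V)
    (hf : ∀ C ∈ CC, f C ∈ C) (hinj : ∀ C ∈ CC, ∀ C' ∈ CC, f C = f C' → C = C')
    (htwo : ∀ v, (CC.filter (fun C => v ∈ C)).card ≤ 2) (hk : 2 ≤ k)
    (hcard : ∀ C ∈ CC, (C ∩ CC.image f).card ≤ k)
    (hadj : ∀ u ∈ CC.image f, ∀ v ∈ CC.image f, G.Adj u v → ∃ C ∈ CC, u ∈ C ∧ v ∈ C) :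
    Good k G (CC.image f) := by
  induction hn : CC.card generalizing CC G with
  | zero =>
    rw [card_eq_zero] at hn
    subst hn
    rw [image_empty]
    exact Good.empty G
  | succ n ih =>
    by_cases h2 : ∀ C ∈ CC, 2 ≤ (C ∩ CC.image f).card
    · exact pfg_two CC f hinj htwo hk hadj h2
    · push Not at h2
      obtain ⟨C, hC, hlt⟩ := h2
      set r := f C with hr
      have hrR : r ∈ CC.image f := mem_image_of_mem f hC
      have hrC : r ∈ C := hf C hC
      have hone : ∀ v ∈ C, v ∈ CC.image f → v = r := by
        intro v hv hvR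
        have h1 : (C ∩ CC.image f).card ≤ 1 := by omega
        rw [card_le_one] at h1
        exact h1 v (mem_inter.mpr ⟨hv, hvR⟩) r (mem_inter.mpr ⟨hrC, hrR⟩)
      set CC' := CC.erase C with hCC'
      have hR' : CC.image f = insert r (CC'.image f) := by
        rw [hr, ← image_insert, hCC', insert_erase hC]
      have hrn : r ∉ CC'.image f := by
        intro hcon
        rw [mem_image] at hcon
        obtain ⟨C1, hC1, he⟩ := hcon
        rw [hCC', mem_erase] at hC1
        exact hC1.1 (hinj C1 hC1.2 C hC he)
      have hsub' : CC'.image f ⊆ CC.image f := image_subset_image (erase_subset _ _)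
      -- the other cluster(s) of r
      set K := (CC'.image f).filter (fun v => ∃ C1 ∈ CC', r ∈ C1 ∧ v ∈ C1) with hKdef
      have hone1 : ∀ C1 ∈ CC', ∀ C2 ∈ CC', r ∈ C1 → r ∈ C2 → C1 = C2 := by
        intro C1 hC1 C2 hC2 h1 h2
        by_contra hne
        have h3 : ({C, C1, C2} : Finset (Finset V)) ⊆ CC.filter (fun C => r ∈ C) := by
          intro D hD
          simp only [mem_insert, mem_singleton] at hD
          rw [mem_filter]
          rcases hD with rfl | rfl | rfl
          · exact ⟨hC, hrC⟩
          · exact ⟨mem_of_mem_erase hC1, h1⟩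
          · exact ⟨mem_of_mem_erase hC2, h2⟩
        have h4 : ({C, C1, C2} : Finset (Finset V)).card = 3 := by
          rw [card_eq_three]
          exact ⟨C, C1, C2, (ne_of_mem_erase hC1).symm, (ne_of_mem_erase hC2).symm, hne, rfl⟩
        have h5 := card_le_card h3
        have h6 := htwo r
        omega
      have hKc : K.card ≤ k := by
        by_cases hex : ∃ C1 ∈ CC', r ∈ C1
        · obtain ⟨C1, hC1, hrC1⟩ := hex
          have h1 : K ⊆ C1 ∩ CC.image f := by
            intro v hv
            rw [hKdef, mem_filter] at hv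
            obtain ⟨hv1, C2, hC2, hr2, hv2⟩ := hv
            rw [hone1 C1 hC1 C2 hC2 hrC1 hr2]
            exact mem_inter.mpr ⟨hv2, hsub' hv1⟩
          exact (card_le_card h1).trans (hcard C1 (mem_of_mem_erase hC1))
        · have h1 : K = ∅ := by
            rw [hKdef, filter_eq_empty_iff]
            rintro v _ ⟨C1, hC1, h1, _⟩
            exact hex ⟨C1, hC1, h1⟩
          rw [h1, card_empty]
          omega
      rw [hR']
      refine Good.step G (CC'.image f) K r hrn (filter_subset _ _) hKc ?_ ?_
      · intro v hv hadjv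
        rw [hKdef, mem_filter]
        refine ⟨hv, ?_⟩
        obtain ⟨C1, hC1, h1, h2⟩ := hadj r hrR v (hsub' hv) hadjv
        refine ⟨C1, ?_, h1, h2⟩
        rw [hCC', mem_erase]
        refine ⟨?_, hC1⟩
        rintro rfl
        have := hone v h2 (hsub' hv)
        rw [this] at hv
        exact hrn hv
      · refine ih CC' ?_ ?_ ?_ ?_ ?_ ?_
        · intro C1 hC1; exact hf C1 (mem_of_mem_erase hC1)
        · intro C1 hC1 C2 hC2; exact hinj C1 (mem_of_mem_erase hC1) C2 (mem_of_mem_erase hC2)
        · intro v
          exact (card_le_card (filter_subset_filter _ (erase_subset _ _))).trans (htwo v)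
        · intro C1 hC1
          exact (card_le_card (inter_subset_inter_left hsub')).trans
            (hcard C1 (mem_of_mem_erase hC1))
        · intro u hu v hv huv
          rcases huv with huv | huv
          · obtain ⟨C1, hC1, h1, h2⟩ := hadj u (hsub' hu) v (hsub' hv) huv
            refine ⟨C1, ?_, h1, h2⟩
            rw [hCC', mem_erase]
            refine ⟨?_, hC1⟩
            rintro rfl
            have := hone v h2 (hsub' hv)
            rw [this] at hv
            exact hrn hv
          · obtain ⟨_, hu2, hv2⟩ := huv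
            rw [hKdef, mem_filter] at hu2 hv2
            obtain ⟨_, C1, hC1, hr1, hu1⟩ := hu2
            obtain ⟨_, C2, hC2, hr2, hv1⟩ := hv2
            have := hone1 C1 hC1 C2 hC2 hr1 hr2
            subst this
            exact ⟨C1, hC1, hu1, hv1⟩
        · rw [hCC', card_erase_of_mem hC, hn]; rfl

end Pool.Agent.Lib.MP_4d044e_co.TW
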