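import Pool.Agent.Lib.MP_4d044e_co.TW.SPLIT
import Pool.Agent.Lib.MP_4d044e_co.TW.CLU
import Pool.Agent.Lib.MP_4d044e_co.TW.ACC
import Pool.Agent.Lib.MP_4d044e_co.TW.CS

/-!
The final cluster system (blueprint, section 9).
-/

set_option autoImplicit false

namespace Pool.Agent.Lib.MP_4d044e_co.TW

open Finset
open scoped Classical

variable {V : Type} [Fintype V] [DecidableEq V]

/-- STR: the final cluster system. -/
theorem str {G : SimpleGraph V} {w : V → ℝ} {w0 β η : ℝ} {C0 : ℕ} (h : NG G w w0 β η C0)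
    (hC : 1 ≤ C0) (hg : ∀ y, nu w (cheap G w (1 / 10 ^ 36) y) ≤ 1 / 10 ^ 36) :
    ∃ CC : Finset (Finset V), CS G w CC := by
  choose H hH0 using fun y => split h hC y (hg y)
  have hH : ∀ v ∈ (univ : Finset V), Spl G w (1 / 1000) v (H v) := fun v _ => hH0 v
  have hT : ∀ z, T2 G w univ (1 / 10 ^ 39) z := by
    intro z
    refine ⟨Finset.mem_univ _, ?_⟩
    rw [Finset.sdiff_eq_empty_iff_subset.2 (Finset.subset_univ _), nu_empty]
    positivity
  have hhalf : ∀ z i, H z i ⊆ Mc w H univ z i := by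
    intro z i
    have h1 := clu_half h hH (hT z) i
    rwa [Finset.inter_univ] at h1
  have hlo : ∀ z i, 49 / 100 ≤ nu w (Mc w H univ z i) := by
    intro z i
    have h1 := nu_mono h.wnn (hhalf z i)
    have h2 := (hH0 z).lo i
    linarith
  have hβ := h.βsm
  have hne : ∀ z, Mc w H univ z true ≠ Mc w H univ z false := by
    intro z heq
    have h1 := clu_inter h hH (hT z)
    rw [heq, Finset.inter_self] at h1
    have h2 := hlo z false
    rw [h1, nu_singleton] at h2
    have h3 := h.whi z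
    norm_num at hβ h2
    linarith
  have hown : ∀ v z i, v ∈ Mc w H univ z i → ∃ a, Mc w H univ z i = Mc w H univ v a := by
    intro v z i hv
    obtain ⟨-, a, ha⟩ := Finset.mem_filter.1 hv
    refine ⟨a, clu_eq h hH (hT z) (hT v) (Finset.mem_univ v) ha ?_⟩
    rw [Finset.inter_self]
    have h2 := (hH0 v).lo a
    linarith
  refine ⟨(univ : Finset (V × Bool)).image (fun p => Mc w H univ p.1 p.2), ?_, ?_, ?_, ?_, ?_,
    ?_, ?_⟩
  · intro C hC u hu v hv huv
    obtain ⟨⟨z, i⟩, -, rfl⟩ := Finset.mem_image.1 hC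
    exact clu_adj h hH (hT z) i hu hv huv
  · intro v
    have h1 : (((univ : Finset (V × Bool)).image (fun p => Mc w H univ p.1 p.2)).filter
        (fun C => v ∈ C)) = {Mc w H univ v true, Mc w H univ v false} := by
      ext C
      rw [Finset.mem_filter, Finset.mem_insert, Finset.mem_singleton]
      constructor
      · rintro ⟨hC, hv⟩
        obtain ⟨⟨z, i⟩, -, rfl⟩ := Finset.mem_image.1 hC
        obtain ⟨a, ha⟩ := hown v z i hv
        cases a
        · exact Or.inr ha
        · exact Or.inl ha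
      · rintro (rfl | rfl)
        · exact ⟨Finset.mem_image.2 ⟨(v, true), Finset.mem_univ _, rfl⟩,
            clu_self h hH (hT v) true⟩
        · exact ⟨Finset.mem_image.2 ⟨(v, false), Finset.mem_univ _, rfl⟩,
            clu_self h hH (hT v) false⟩
    rw [h1, Finset.card_pair (hne v)]
  · intro C hC C' hC' hCC
    obtain ⟨⟨z, i⟩, -, rfl⟩ := Finset.mem_image.1 hC
    obtain ⟨⟨z', j⟩, -, rfl⟩ := Finset.mem_image.1 hC'
    exact clu_card_inter h hH (hT z) (hT z') hCC
  · intro C hC
    obtain ⟨⟨z, i⟩, -, rfl⟩ := Finset.mem_image.1 hC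
    exact hlo z i
  · intro C hC
    obtain ⟨⟨z, i⟩, -, rfl⟩ := Finset.mem_image.1 hC
    have h1 := clu_out h hH (hT z) i
    have h2 := (hH0 z).hi i
    have h3 := nu_inter_add_sdiff (w := w) (Mc w H univ z i) (H z i)
    have h4 : nu w (Mc w H univ z i ∩ H z i) ≤ nu w (H z i) :=
      nu_mono h.wnn Finset.inter_subset_right
    linarith
  · intro v
    have h1 := acc h hH (hT v)
    refine le_trans (nu_mono h.wnn (Y := cn G v \ (Mc w H univ v true ∪ Mc w H univ v false)) ?_)
      (h1.trans (by norm_num))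
    intro u hu
    obtain ⟨hu1, hu2⟩ := Finset.mem_filter.1 hu
    rw [Finset.mem_sdiff, Finset.mem_union, not_or]
    refine ⟨nbr_subset_cn G v hu1, fun h3 => hu2 ?_, fun h3 => hu2 ?_⟩
    · exact ⟨_, Finset.mem_image.2 ⟨(v, true), Finset.mem_univ _, rfl⟩,
        clu_self h hH (hT v) true, h3⟩
    · exact ⟨_, Finset.mem_image.2 ⟨(v, false), Finset.mem_univ _, rfl⟩,
        clu_self h hH (hT v) false, h3⟩
  · intro C hC x hx
    obtain ⟨⟨z, i⟩, -, rfl⟩ := Finset.mem_image.1 hC
    exact clu_contact h hH (hT z) i (Finset.mem_univ x) hx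

end Pool.Agent.Lib.MP_4d044e_co.TW
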