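import Pool.Agent.Lib.MP_4d044e_co.TW.CS
import Pool.Agent.Lib.MP_4d044e_co.TW.BAS
import Pool.Agent.Lib.MP_4d044e_co.AS.TRV

/-! TRA: representatives of the clusters, pairwise not adjacent outside the clusters. -/

set_option autoImplicit false
set_option linter.unusedSectionVars false

namespace Pool.Agent.Lib.MP_4d044e_co.TW

open Finset
open scoped Classical

variable {V : Type} [Fintype V] [DecidableEq V]

theorem tra [Nonempty V] {G : SimpleGraph V} {w : V → ℝ} {w0 β η : ℝ} {C0 : ℕ}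
    (h : NG G w w0 β η C0)
    {CC : Finset (Finset V)} (hCS : CS G w CC) (hw : ∀ v, w v ≤ 40 * w0) :
    ∃ f : Finset V → V, (∀ C ∈ CC, f C ∈ C) ∧ (∀ C ∈ CC, ∀ C' ∈ CC, f C = f C' → C = C') ∧
      (∀ C ∈ CC, ∀ C' ∈ CC, G.Adj (f C) (f C') → ∃ D ∈ CC, f C ∈ D ∧ f C' ∈ D) := by
  have hw0 := h.w0pos
  have hw0s : w0 ≤ 1 / 10 ^ 200 := h.w0β.trans h.βsm
  set X : SimpleGraph V :=
    { Adj := fun u v => G.Adj u v ∧ ¬ ∃ C ∈ CC, u ∈ C ∧ v ∈ C
      symm := ⟨fun u v huv => ⟨huv.1.symm, fun ⟨C, hC, h1, h2⟩ => huv.2 ⟨C, hC, h2, h1⟩⟩⟩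
      loopless := ⟨fun u huu => G.loopless.irrefl u huu.1⟩ } with hX
  set D : ℕ := ⌊1 / (10 ^ 37 * (w0 * (99 / 100)))⌋₊ with hD
  have hpos : (0 : ℝ) < w0 * (99 / 100) := by positivity
  have hcard : ∀ (S : Finset V), (S.card : ℝ) * (w0 * (99 / 100)) ≤ nu w S := by
    intro S
    unfold nu
    rw [← nsmul_eq_mul]
    exact card_nsmul_le_sum _ _ _ fun v _ => h.wlo v
  have hcard2 : ∀ (S : Finset V), nu w S ≤ (S.card : ℝ) * (40 * w0) := by
    intro S
    unfold nu
    rw [← nsmul_eq_mul]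
    exact sum_le_card_nsmul _ _ _ fun v _ => hw v
  have hd1 : ∀ v, (univ.filter fun u => X.Adj v u).card ≤ D := by
    intro v
    have h1 : (univ.filter fun u => X.Adj v u) =
        (nbr G v).filter (fun u => ¬ ∃ C ∈ CC, v ∈ C ∧ u ∈ C) := by
      ext u
      simp only [mem_filter, mem_univ, true_and, hX, nbr]
    rw [h1, hD]
    apply Nat.le_floor
    rw [le_div_iff₀ (by positivity)]
    have h2 := hCS.xdeg v
    have h3 := hcard ((nbr G v).filter (fun u => ¬ ∃ C ∈ CC, v ∈ C ∧ u ∈ C))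
    have h4 := h3.trans h2
    rw [le_div_iff₀ (by positivity)] at h4
    linarith
  have hd2 : ∀ v, (univ.filter fun i : {C // C ∈ CC} => v ∈ i.1).card ≤ 2 := by
    intro v
    rw [← hCS.two v]
    apply card_le_card_of_injOn (fun i => i.1)
    · intro i hi
      simp only [coe_filter, mem_univ, true_and, Set.mem_ofPred_eq] at hi ⊢
      exact ⟨i.2, hi⟩
    · intro i _ j _ hij
      exact Subtype.ext hij
  have hd3 : ∀ i : {C // C ∈ CC}, 4 * D + 2 ≤ (i.1).card := by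
    intro i
    have h1 := hCS.lo i.1 i.2
    have h2 := hcard2 i.1
    have h3 : (D : ℝ) ≤ 1 / (10 ^ 37 * (w0 * (99 / 100))) := Nat.floor_le (by positivity)
    rw [le_div_iff₀ (by positivity)] at h3
    have h5 : ((4 * D + 2 : ℕ) : ℝ) ≤ (i.1.card : ℝ) := by
      push_cast
      have h6 : (4 * (D : ℝ) + 2) * (40 * w0) ≤ (i.1.card : ℝ) * (40 * w0) := by
        have h7 : w0 ≤ 1 / 10000 := hw0s.trans (by norm_num)
        have h8 : (D : ℝ) * w0 ≤ 1 / 10 ^ 36 := by
          rw [le_div_iff₀ (by positivity)]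
          have h9 : (0 : ℝ) ≤ (D : ℝ) * w0 := by positivity
          nlinarith
        have h10 : (1 : ℝ) / 10 ^ 36 ≤ 1 / 10000 := by norm_num
        nlinarith
      exact le_of_mul_le_mul_right h6 (by positivity)
    exact_mod_cast h5
  obtain ⟨r, hrinj, hrmem, hrX⟩ := Pool.Agent.Lib.MP4d044e.AS.TRV.transversal X
    (fun C : {C // C ∈ CC} => C.1) D (fun v => by convert hd1 v) (fun v => by convert hd2 v) hd3
  refine ⟨fun C => if hC : C ∈ CC then r ⟨C, hC⟩ else Classical.arbitrary V, ?_, ?_, ?_⟩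
  · intro C hC
    simp only [dif_pos hC]
    exact hrmem ⟨C, hC⟩
  · intro C hC C' hC' he
    simp only [dif_pos hC, dif_pos hC'] at he
    have := hrinj he
    simpa using this
  · intro C hC C' hC' hadj
    simp only [dif_pos hC, dif_pos hC'] at hadj ⊢
    by_contra hcon
    have hne : (⟨C, hC⟩ : {C // C ∈ CC}) ≠ ⟨C', hC'⟩ := by
      intro he
      rw [he] at hadj
      exact G.loopless.irrefl _ hadj
    exact hrX _ _ hne ⟨hadj, hcon⟩

end Pool.Agent.Lib.MP_4d044e_co.TW
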