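import Pool.Agent.Lib.MP_4d044e_co.TW.CS

/-! WTS: the weights of a minimal counterexample are at most `40 w0` (section 9 of the blueprint). -/

set_option autoImplicit false

namespace Pool.Agent.Lib.MP_4d044e_co.TW

open Finset
open scoped Classical

variable {V : Type} [Fintype V] [DecidableEq V]

namespace WTS

theorem num1 (η m x ρ : ℝ) (hη : η = 1 / 10 ^ 39) (hm0 : 0 ≤ m) (hx0 : 0 ≤ x)
    (hx : x ≤ 1 / 10 ^ 37) (hmρ : 2 * m + x ≤ 1 - ρ)
    (h : 1 - η ≤ 4 * (m ^ 2 + 2 * (20 / 1000 * x) + x ^ 2 + 3 * η * (m + x))) :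
    ρ ≤ 36 / 10 * η := by
  by_contra hcon
  push Not at hcon
  have hη0 : 0 < η := by rw [hη]; norm_num
  have h1 : m ≤ 1 / 2 - 18 / 10 * η - x / 2 := by linarith
  have h2 : m ^ 2 ≤ (1 / 2 - 18 / 10 * η - x / 2) ^ 2 := pow_le_pow_left₀ hm0 h1 2
  have h3 : η * m ≤ η * (1 / 2) := mul_le_mul_of_nonneg_left (by linarith) hη0.le
  have h4 : x ^ 2 ≤ x * (1 / 10 ^ 37) := by rw [sq]; exact mul_le_mul_of_nonneg_left hx hx0
  have h5 : η * x ≤ 1 / 10 ^ 39 * x := by rw [hη]
  have h6 : η ^ 2 = η * (1 / 10 ^ 39) := by rw [sq, ← hη]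
  nlinarith

theorem exp_le : Real.exp (36 / 10) ≤ 40 := by
  have h1 : Real.exp (36 / 10) ^ 5 ≤ 40 ^ 5 := by
    rw [← Real.exp_nat_mul]
    have h2 : ((5 : ℕ) : ℝ) * (36 / 10) = ((18 : ℕ) : ℝ) * 1 := by norm_num
    rw [h2, Real.exp_nat_mul]
    have h3 : Real.exp 1 ≤ 2.7182818286 := Real.exp_one_lt_d9.le
    calc Real.exp 1 ^ 18 ≤ 2.7182818286 ^ 18 := pow_le_pow_left₀ (Real.exp_pos _).le h3 18
      _ ≤ 40 ^ 5 := by norm_num
  exact le_of_pow_le_pow_left₀ (by norm_num) (by norm_num) h1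

variable {G : SimpleGraph V} {w : V → ℝ}

theorem key {w0 β η : ℝ} {C0 : ℕ} (h : NG G w w0 β η C0) {CC : Finset (Finset V)}
    (hCS : CS G w CC) (y : V) (C1 C2 : Finset V) (hne : C1 ≠ C2)
    (hf : CC.filter (fun C => y ∈ C) = {C1, C2}) (hle : nu w C1 ≤ nu w C2) :
    w y ≤ 40 * w0 := by
  have hη0 : 0 < η := by rw [h.hη]; norm_num
  have hw : ∀ v, 0 < w v := fun v => lt_of_lt_of_le (by have := h.w0pos; positivity) (h.wlo v)
  have hC1 : C1 ∈ CC ∧ y ∈ C1 := by
    have : C1 ∈ CC.filter (fun C => y ∈ C) := by rw [hf]; simp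
    exact mem_filter.mp this
  have hC2 : C2 ∈ CC ∧ y ∈ C2 := by
    have : C2 ∈ CC.filter (fun C => y ∈ C) := by rw [hf]; simp
    exact mem_filter.mp this
  have hall : ∀ C ∈ CC, y ∈ C → C = C1 ∨ C = C2 := by
    intro C hC hy
    have : C ∈ CC.filter (fun C => y ∈ C) := mem_filter.mpr ⟨hC, hy⟩
    rw [hf] at this
    simpa using this
  have hint : ∀ u, u ∈ C1 → u ∈ C2 → u = y := by
    intro u h1 h2
    have h3 := hCS.share C1 hC1.1 C2 hC2.1 hne
    rw [card_le_one] at h3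
    exact h3 u (mem_inter.mpr ⟨h1, h2⟩) y (mem_inter.mpr ⟨hC1.2, hC2.2⟩)
  set NX : Finset V := (nbr G y).filter (fun u => ¬ ∃ C ∈ CC, y ∈ C ∧ u ∈ C) with hNX
  have hNX1 : Disjoint C1 NX := by
    rw [disjoint_left]
    intro u h1 h2
    exact (mem_filter.mp h2).2 ⟨C1, hC1.1, hC1.2, h1⟩
  have hNX2 : Disjoint C2 NX := by
    rw [disjoint_left]
    intro u h1 h2
    exact (mem_filter.mp h2).2 ⟨C2, hC2.1, hC2.2, h1⟩
  have hdec : nbr G y = (C1.erase y ∪ C2.erase y) ∪ NX := by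
    ext u
    constructor
    · intro hu
      by_cases hex : ∃ C ∈ CC, y ∈ C ∧ u ∈ C
      · obtain ⟨C, hC, hy, huC⟩ := hex
        have hadj : G.Adj y u := by simpa [nbr] using hu
        have huy : u ≠ y := hadj.ne'
        rcases hall C hC hy with rfl | rfl
        · exact mem_union_left _ (mem_union_left _ (mem_erase.mpr ⟨huy, huC⟩))
        · exact mem_union_left _ (mem_union_right _ (mem_erase.mpr ⟨huy, huC⟩))
      · exact mem_union_right _ (mem_filter.mpr ⟨hu, hex⟩)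
    · intro hu
      rcases mem_union.mp hu with hu | hu
      · rcases mem_union.mp hu with hu | hu
        · obtain ⟨h1, h2⟩ := mem_erase.mp hu
          simpa [nbr] using hCS.clique C1 hC1.1 y hC1.2 u h2 (Ne.symm h1)
        · obtain ⟨h1, h2⟩ := mem_erase.mp hu
          simpa [nbr] using hCS.clique C2 hC2.1 y hC2.2 u h2 (Ne.symm h1)
      · exact (mem_filter.mp hu).1
  have hd12 : Disjoint (C1.erase y) (C2.erase y) := by
    rw [disjoint_left]
    intro u h1 h2
    exact (mem_erase.mp h1).1 (hint u (mem_erase.mp h1).2 (mem_erase.mp h2).2)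
  have hd3 : Disjoint (C1.erase y ∪ C2.erase y) NX := by
    rw [disjoint_union_left]
    exact ⟨hNX1.mono_left (erase_subset _ _), hNX2.mono_left (erase_subset _ _)⟩
  have hnuE : ∀ C : Finset V, y ∈ C → nu w (C.erase y) = nu w C - w y := by
    intro C hy
    have := add_sum_erase C w hy
    unfold nu
    linarith
  have hmass : nu w (nbr G y) = nu w C1 - w y + (nu w C2 - w y) + nu w NX := by
    rw [hdec]
    unfold nu
    rw [sum_union hd3, sum_union hd12]
    have e1 := hnuE C1 hC1.2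
    have e2 := hnuE C2 hC2.2
    unfold nu at e1 e2
    rw [e1, e2]
  have hfoc := h.foc y
  have hx := hCS.xdeg y
  rw [← hNX] at hx
  have hnn : ∀ S : Finset V, 0 ≤ nu w S := fun S => sum_nonneg fun v _ => (hw v).le
  -- step (c) with the smaller cluster
  have hstep := h.ng2 y (C1 ∪ NX) (mem_union_left _ hC1.2)
  have hmiss : miss G w (nbr G y \ (C1 ∪ NX)) = 0 := by
    unfold miss
    refine sum_eq_zero fun u hu => sum_eq_zero fun v hv => ?_
    have hin : ∀ u ∈ nbr G y \ (C1 ∪ NX), u ∈ C2 := by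
      intro u hu
      obtain ⟨h1, h2⟩ := mem_sdiff.mp hu
      rw [hdec] at h1
      rcases mem_union.mp h1 with h1 | h1
      · rcases mem_union.mp h1 with h1 | h1
        · exact absurd (mem_union_left _ (mem_erase.mp h1).2) h2
        · exact (mem_erase.mp h1).2
      · exact absurd (mem_union_right _ h1) h2
    rw [if_neg]
    rintro ⟨hne, hna⟩
    exact hna (hCS.clique C2 hC2.1 u (hin u hu) v (hin v hv) hne)
  have hnuX : nu w (C1 ∪ NX) = nu w C1 + nu w NX := by
    unfold nu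
    rw [sum_union hNX1]
  -- the mass of the edges
  have hterm : ∀ u v, (if G.Adj u v then w u * w v else 0) ≤ w u * w v := by
    intro u v
    split_ifs
    · exact le_rfl
    · exact (mul_pos (hw u) (hw v)).le
  have hgen : ∀ S T : Finset V, (∑ u ∈ S, ∑ v ∈ T, if G.Adj u v then w u * w v else 0) ≤
      nu w S * nu w T := by
    intro S T
    unfold nu
    rw [sum_mul_sum]
    exact sum_le_sum fun u _ => sum_le_sum fun v _ => hterm u v
  have hc : (∑ u ∈ NX, ∑ v ∈ C1, if G.Adj u v then w u * w v else 0) ≤ 20 / 1000 * nu w NX := by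
    have h1 : ∀ u ∈ NX, (∑ v ∈ C1, if G.Adj u v then w u * w v else 0) ≤ w u * (20 / 1000) := by
      intro u hu
      have hun : u ∉ C1 := fun h1 => (disjoint_left.mp hNX1 h1 hu)
      have h2 := hCS.contact C1 hC1.1 u hun
      have h3 : (∑ v ∈ C1, if G.Adj u v then w u * w v else 0) ≤ w u * nu w (cn G u ∩ C1) := by
        unfold nu
        rw [mul_sum, ← sum_filter]
        refine sum_le_sum_of_subset_of_nonneg ?_ (fun v _ _ => (mul_pos (hw u) (hw v)).le)
        intro v hv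
        obtain ⟨h4, h5⟩ := mem_filter.mp hv
        refine mem_inter.mpr ⟨?_, h4⟩
        unfold cn nbr
        exact mem_insert_of_mem (mem_filter.mpr ⟨mem_univ _, h5⟩)
      exact h3.trans (mul_le_mul_of_nonneg_left h2 (hw u).le)
    refine (sum_le_sum h1).trans (le_of_eq ?_)
    unfold nu
    rw [← sum_mul, mul_comm]
  have hc' : (∑ u ∈ C1, ∑ v ∈ NX, if G.Adj u v then w u * w v else 0) ≤ 20 / 1000 * nu w NX := by
    refine le_trans (le_of_eq ?_) hc
    rw [sum_comm]
    refine sum_congr rfl fun u _ => sum_congr rfl fun v _ => ?_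
    simp only [G.adj_comm v u, mul_comm (w v)]
  have hee : ee G w (C1 ∪ NX) (C1 ∪ NX) ≤ nu w C1 ^ 2 + 2 * (20 / 1000 * nu w NX) + nu w NX ^ 2 := by
    unfold ee
    rw [sum_union hNX1]
    have e1 : (∑ u ∈ C1, ∑ v ∈ C1 ∪ NX, if G.Adj u v then w u * w v else 0) =
        (∑ u ∈ C1, ∑ v ∈ C1, if G.Adj u v then w u * w v else 0) +
          ∑ u ∈ C1, ∑ v ∈ NX, if G.Adj u v then w u * w v else 0 := by
      rw [← sum_add_distrib]
      exact sum_congr rfl fun u _ => sum_union hNX1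
    have e2 : (∑ u ∈ NX, ∑ v ∈ C1 ∪ NX, if G.Adj u v then w u * w v else 0) =
        (∑ u ∈ NX, ∑ v ∈ C1, if G.Adj u v then w u * w v else 0) +
          ∑ u ∈ NX, ∑ v ∈ NX, if G.Adj u v then w u * w v else 0 := by
      rw [← sum_add_distrib]
      exact sum_congr rfl fun u _ => sum_union hNX1
    rw [e1, e2]
    have g1 := hgen C1 C1
    have g2 := hgen NX NX
    nlinarith
  rw [hmiss, hnuX] at hstep
  have hρ : η * Real.log (w y / w0) ≤ 36 / 10 * η := by
    refine num1 η (nu w C1) (nu w NX) _ h.hη (hnn _) (hnn _) hx ?_ ?_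
    · linarith
    · have : 1 - η ≤ 4 * (ee G w (C1 ∪ NX) (C1 ∪ NX) + 3 * η * (nu w C1 + nu w NX)) := by
        linarith
      linarith
  have hlog : Real.log (w y / w0) ≤ 36 / 10 := by
    have : η * Real.log (w y / w0) ≤ η * (36 / 10) := by linarith
    exact le_of_mul_le_mul_left this hη0
  have hpos : 0 < w y / w0 := div_pos (hw y) h.w0pos
  have h1 : w y / w0 ≤ 40 := by
    calc w y / w0 = Real.exp (Real.log (w y / w0)) := (Real.exp_log hpos).symm
      _ ≤ Real.exp (36 / 10) := Real.exp_le_exp.mpr hlog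
      _ ≤ 40 := exp_le
  rwa [div_le_iff₀ h.w0pos] at h1

end WTS

/-- **WTS** -/
theorem wts {G : SimpleGraph V} {w : V → ℝ} {w0 β η : ℝ} {C0 : ℕ} (h : NG G w w0 β η C0)
    {CC : Finset (Finset V)} (hCS : CS G w CC) : ∀ v, w v ≤ 40 * w0 := by
  intro y
  obtain ⟨C1, C2, hne, hf⟩ := card_eq_two.mp (hCS.two y)
  rcases le_total (nu w C1) (nu w C2) with hle | hle
  · exact WTS.key h hCS y C1 C2 hne hf hle
  · exact WTS.key h hCS y C2 C1 hne.symm (by rw [hf, pair_comm]) hle

end Pool.Agent.Lib.MP_4d044e_co.TW
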