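import Pool.Agent.Lib.MP_4d044e_co.TW.BAD
import Pool.Agent.Lib.MP_4d044e_co.TW.STAR
import Pool.Agent.Lib.MP_4d044e_co.TW.STR
import Pool.Agent.Lib.MP_4d044e_co.TW.WTS
import Pool.Agent.Lib.MP_4d044e_co.TW.TRA
import Pool.Agent.Lib.MP_4d044e_co.TW.PFG
import Pool.Agent.Lib.MP_4d044e_co.TW.IDN
import Pool.Agent.Lib.MP_4d044e_co.TW.MARG
import Pool.Agent.Lib.MP_4d044e_co.TW.IND
import Pool.Agent.Lib.MP_4d044e_co.TW.BAS

/-! Assembly: the main theorem for all large odd `d`. -/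

set_option autoImplicit false
set_option linter.unusedSectionVars false

namespace Pool.Agent.Lib.MP_4d044e_co.TW

open Finset
open scoped Classical

/-- the transversal of the clusters is a good set of size `CC.card` -/
theorem fin_trans (k K C0 : ℕ) (η w0 β : ℝ) (hC0 : 1 ≤ C0) (hk2 : 2 ≤ k)
    (hβK : β * K ≤ 1 / 10 ^ 200)
    (hstar : ∀ (V : Type) [Fintype V] [DecidableEq V]
      (G : SimpleGraph V) (w : V → ℝ) (w0 β η : ℝ), NG G w w0 β η C0 →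
      ∀ z, (univ.filter (fun y =>
        ee G w (cn G y \ cn G z) (cn G y \ cn G z) < 1 / 4 - 1 / 10 ^ 36)).card < K)
    (V : Type) [Fintype V] [DecidableEq V] [Nonempty V] (G : SimpleGraph V) (w : V → ℝ)
    (h : NG G w w0 β η C0) (hdeg : ∀ v, (nbr G v).card + 1 ≤ k) :
    ∃ (CC : Finset (Finset V)) (R : Finset V), CS G w CC ∧ (∀ v, w v ≤ 40 * w0) ∧
      Good k G R ∧ R.card = CC.card := by
  have hbad := bad h hC0 K hβK (hstar V G w w0 β η h)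
  obtain ⟨CC, hCS⟩ := str h hC0 hbad
  have hw := wts h hCS
  obtain ⟨f, hf1, hf2, hf3⟩ := tra h hCS hw
  refine ⟨CC, CC.image f, hCS, hw, ?_, ?_⟩
  · apply pfg CC f hf1 hf2 (fun v => (hCS.two v).le) hk2
    · intro C hC
      have hne : C.Nonempty := by
        rw [nonempty_iff_ne_empty]
        rintro rfl
        have := hCS.lo ∅ hC
        rw [nu_empty] at this
        norm_num at this
      obtain ⟨v, hv⟩ := hne
      have hsub : C ∩ CC.image f ⊆ cn G v := by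
        intro u hu
        rw [mem_cn]
        by_cases huv : u = v
        · exact Or.inl huv
        · exact Or.inr (hCS.clique C hC v hv u (mem_inter.mp hu).1 (Ne.symm huv))
      calc (C ∩ CC.image f).card ≤ (cn G v).card := card_le_card hsub
        _ ≤ (nbr G v).card + 1 := card_insert_le _ _
        _ ≤ k := hdeg v
    · intro u hu v hv huv
      rw [mem_image] at hu hv
      obtain ⟨C, hC, rfl⟩ := hu
      obtain ⟨C', hC', rfl⟩ := hv
      exact hf3 C hC C' hC' huv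
  · exact card_image_of_injOn fun C hC C' hC' he => hf2 C hC C' hC' he

theorem FF_empty {V : Type} [Fintype V] [DecidableEq V] [IsEmpty V] (η w0 : ℝ)
    (G : SimpleGraph V) (w : V → ℝ) : FF η w0 G w = 0 := by
  unfold FF ee
  simp

/-- odd `d`: strict gain -/
theorem fin_final (d k K C0 : ℕ) (δ η w0 β : ℝ) (hd : Odd d) (hη : η = 1 / 10 ^ 39)
    (hw0 : w0 = 1 / ((d : ℝ) + 2)) (hδ : δ = η * w0 ^ 3 / 256) (hC0 : 1 ≤ C0) (hk2 : 2 ≤ k)
    (hβK : β * K ≤ 1 / 10 ^ 200)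
    (hstar : ∀ (V : Type) [Fintype V] [DecidableEq V]
      (G : SimpleGraph V) (w : V → ℝ) (w0 β η : ℝ), NG G w w0 β η C0 →
      ∀ z, (univ.filter (fun y =>
        ee G w (cn G y \ cn G z) (cn G y \ cn G z) < 1 / 4 - 1 / 10 ^ 36)).card < K)
    (V : Type) [Fintype V] [DecidableEq V] (G : SimpleGraph V) (w : V → ℝ)
    (h : NG G w w0 β η C0) (hdeg : ∀ v, (nbr G v).card + 1 ≤ k) :
    ∃ R : Finset V, Good k G R ∧ (1 + δ) * FF η w0 G w ≤ R.card := by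
  have hnn := h.wnn
  rcases isEmpty_or_nonempty V with hV | hV
  · refine ⟨∅, Good.empty G, ?_⟩
    rw [FF_empty]
    simp
  obtain ⟨CC, R, hCS, hw, hR, hcard⟩ := fin_trans k K C0 η w0 β hC0 hk2 hβK hstar V G w h hdeg
  have hη0 : 0 < η := by rw [hη]; norm_num
  have hη1 : η ≤ 1 := by rw [hη]; norm_num
  refine ⟨R, hR, ?_⟩
  rw [hcard]
  have h1 := idn (G := G) η w0 hnn hCS
  have h2 : ∑ C ∈ CC, δ ≤ ∑ C ∈ CC, ((1 - 2 * nu w C) ^ 2
    + ∑ v ∈ C, 4 * η * (w v * Real.log (w v / w0) - w v + w0)) := by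
    apply sum_le_sum
    intro C hC
    rw [hδ]
    exact margin d hd η w0 hw0 hη0 hη1 C w (fun v _ => h.wlo v) (fun v _ => hw v)
      (hCS.hi C hC)
  rw [sum_const, nsmul_eq_mul] at h2
  have hδ0 : 0 ≤ δ := by
    rw [hδ]
    have := h.w0pos
    positivity
  have hN : (0 : ℝ) ≤ CC.card := by positivity
  have h3 : FF η w0 G w ≤ CC.card - CC.card * δ := by linarith
  have h4 : (1 + δ) * FF η w0 G w ≤ (1 + δ) * (CC.card - CC.card * δ) :=
    mul_le_mul_of_nonneg_left h3 (by linarith)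
  nlinarith [mul_nonneg hN (mul_nonneg hδ0 hδ0)]

/-- any `d`: no loss -/
theorem fin_final0 (k K C0 : ℕ) (η w0 β : ℝ) (hη : η = 1 / 10 ^ 39)
    (hC0 : 1 ≤ C0) (hk2 : 2 ≤ k) (hβK : β * K ≤ 1 / 10 ^ 200)
    (hstar : ∀ (V : Type) [Fintype V] [DecidableEq V]
      (G : SimpleGraph V) (w : V → ℝ) (w0 β η : ℝ), NG G w w0 β η C0 →
      ∀ z, (univ.filter (fun y =>
        ee G w (cn G y \ cn G z) (cn G y \ cn G z) < 1 / 4 - 1 / 10 ^ 36)).card < K)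
    (V : Type) [Fintype V] [DecidableEq V] (G : SimpleGraph V) (w : V → ℝ)
    (h : NG G w w0 β η C0) (hdeg : ∀ v, (nbr G v).card + 1 ≤ k) :
    ∃ R : Finset V, Good k G R ∧ (1 + 0) * FF η w0 G w ≤ R.card := by
  have hnn := h.wnn
  rcases isEmpty_or_nonempty V with hV | hV
  · refine ⟨∅, Good.empty G, ?_⟩
    rw [FF_empty]
    simp
  obtain ⟨CC, R, hCS, hw, hR, hcard⟩ := fin_trans k K C0 η w0 β hC0 hk2 hβK hstar V G w h hdeg
  have hη0 : 0 < η := by rw [hη]; norm_num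
  refine ⟨R, hR, ?_⟩
  rw [hcard, add_zero, one_mul]
  have h1 := idn (G := G) η w0 hnn hCS
  have h2 : 0 ≤ ∑ C ∈ CC, ((1 - 2 * nu w C) ^ 2
    + ∑ v ∈ C, 4 * η * (w v * Real.log (w v / w0) - w v + w0)) := by
    refine sum_nonneg fun C _ => add_nonneg (sq_nonneg _) (sum_nonneg fun v _ => ?_)
    refine mul_nonneg (by linarith) ?_
    have hw0 := h.w0pos
    have hwv := h.wpos v
    -- x log x - x + 1 ≥ 0, from log (1/x) ≤ 1/x - 1
    have h3 := Real.log_le_sub_one_of_pos (div_pos hw0 hwv)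
    have h4 : Real.log (w v / w0) = - Real.log (w0 / w v) := by
      rw [← Real.log_inv, inv_div]
    rw [h4]
    have h5 : w v * Real.log (w0 / w v) ≤ w v * (w0 / w v - 1) :=
      mul_le_mul_of_nonneg_left h3 hwv.le
    have h6 : w v * (w0 / w v - 1) = w0 - w v := by field_simp
    rw [h6] at h5
    linarith
  linarith

/-- choice of the parameters -/
theorem fin_par (K : ℕ) : ∃ d0 : ℕ, ∀ d : ℕ, d0 ≤ d →
    1 / ((d : ℝ) + 2) * Real.exp (1 / (1 / 10 ^ 39)) ≤ 1 / 10 ^ 200 ∧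
    1 / ((d : ℝ) + 2) * Real.exp (1 / (1 / 10 ^ 39)) * K ≤ 1 / 10 ^ 200 := by
  set η : ℝ := 1 / 10 ^ 39 with hη
  obtain ⟨d0, hd0⟩ := exists_nat_ge (Real.exp (1 / η) * 10 ^ 200 * (K + 1))
  refine ⟨d0, fun d hd => ?_⟩
  set w0 : ℝ := 1 / ((d : ℝ) + 2) with hw0
  have hdp : (0 : ℝ) < (d : ℝ) + 2 := by positivity
  have hw0p : 0 < w0 := by positivity
  have hexp : 0 < Real.exp (1 / η) := Real.exp_pos _
  have hK0 : (0 : ℝ) ≤ K := by positivity
  have hdd : Real.exp (1 / η) * 10 ^ 200 * (K + 1) ≤ (d : ℝ) + 2 := by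
    have : (d0 : ℝ) ≤ d := by exact_mod_cast hd
    linarith
  have hβ' : w0 * Real.exp (1 / η) * (K + 1) ≤ 1 / 10 ^ 200 := by
    rw [hw0, le_div_iff₀ (by positivity)]
    have : 1 / ((d : ℝ) + 2) * Real.exp (1 / η) * (K + 1) * 10 ^ 200
        = (Real.exp (1 / η) * 10 ^ 200 * (K + 1)) / ((d : ℝ) + 2) := by ring
    rw [this, div_le_one hdp]
    exact hdd
  have h1 : 0 ≤ w0 * Real.exp (1 / η) := by positivity
  constructor <;> nlinarith [mul_nonneg h1 hK0]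

theorem fin_all : ∃ d0 : ℕ, ∀ d : ℕ, d0 ≤ d → Odd d → ∃ (k : ℕ) (δ : ℝ), 0 < δ ∧
    ∀ (V : Type) [Fintype V] [DecidableEq V] (G : SimpleGraph V),
      ∃ R : Finset V, Good k G R ∧
        ∀ u : V → ℝ, (∀ v, 0 ≤ u v ∧ u v ≤ 1) →
          (1 + δ) * FF (1 / 10 ^ 39) (1 / ((d : ℝ) + 2)) G u ≤ R.card := by
  obtain ⟨K, C0, hC0, hstar⟩ := star
  obtain ⟨d0, hd0⟩ := fin_par K
  refine ⟨d0, fun d hd hodd => ?_⟩
  obtain ⟨hβ1, hβK⟩ := hd0 d hd
  set η : ℝ := 1 / 10 ^ 39 with hη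
  have hη0 : 0 < η := by rw [hη]; norm_num
  set w0 : ℝ := 1 / ((d : ℝ) + 2) with hw0
  have hdp : (0 : ℝ) < (d : ℝ) + 2 := by positivity
  have hw0p : 0 < w0 := by positivity
  have hw01 : w0 ≤ 1 := by
    rw [hw0, div_le_one hdp]
    have : (0 : ℝ) ≤ d := by positivity
    linarith
  obtain ⟨k1, hk1⟩ := exists_nat_ge (4 / w0)
  refine ⟨max (max C0 k1) 2, η * w0 ^ 3 / 256, by positivity, ?_⟩
  have hk1' : 4 / w0 ≤ ((max (max C0 k1) 2 : ℕ) : ℝ) := by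
    refine hk1.trans ?_
    exact_mod_cast (le_max_right C0 k1).trans (le_max_left _ _)
  have hδη : η * w0 ^ 3 / 256 ≤ η := by
    have h3 : w0 ^ 3 ≤ 1 := pow_le_one₀ hw0p.le hw01
    nlinarith
  exact ind η w0 (w0 * Real.exp (1 / η)) (η * w0 ^ 3 / 256) _ C0 hη hw0p rfl hβ1
    (by positivity) hδη ((le_max_left C0 k1).trans (le_max_left _ _)) hk1'
    (fun V _ _ G w h hdeg => fin_final d _ K C0 _ η w0 _ hodd hη hw0 rfl hC0
      (le_max_right _ _) hβK hstar V G w h hdeg)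

/-- all large `d`, no loss -/
theorem fin_all0 : ∃ d0 : ℕ, ∀ d : ℕ, d0 ≤ d → ∃ k : ℕ,
    ∀ (V : Type) [Fintype V] [DecidableEq V] (G : SimpleGraph V),
      ∃ R : Finset V, Good k G R ∧
        ∀ u : V → ℝ, (∀ v, 0 ≤ u v ∧ u v ≤ 1) →
          FF (1 / 10 ^ 39) (1 / ((d : ℝ) + 2)) G u ≤ R.card := by
  obtain ⟨K, C0, hC0, hstar⟩ := star
  obtain ⟨d0, hd0⟩ := fin_par K
  refine ⟨d0, fun d hd => ?_⟩
  obtain ⟨hβ1, hβK⟩ := hd0 d hd
  set η : ℝ := 1 / 10 ^ 39 with hη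
  have hη0 : 0 < η := by rw [hη]; norm_num
  set w0 : ℝ := 1 / ((d : ℝ) + 2) with hw0
  have hdp : (0 : ℝ) < (d : ℝ) + 2 := by positivity
  have hw0p : 0 < w0 := by positivity
  obtain ⟨k1, hk1⟩ := exists_nat_ge (4 / w0)
  refine ⟨max (max C0 k1) 2, ?_⟩
  have hk1' : 4 / w0 ≤ ((max (max C0 k1) 2 : ℕ) : ℝ) := by
    refine hk1.trans ?_
    exact_mod_cast (le_max_right C0 k1).trans (le_max_left _ _)
  have H := ind η w0 (w0 * Real.exp (1 / η)) 0 _ C0 hη hw0p rfl hβ1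
    le_rfl hη0.le ((le_max_left C0 k1).trans (le_max_left _ _)) hk1'
    (fun V _ _ G w h hdeg => fin_final0 _ K C0 η w0 _ hη hC0
      (le_max_right _ _) hβK hstar V G w h hdeg)
  intro V _ _ G
  obtain ⟨R, hR, hR2⟩ := H V G
  refine ⟨R, hR, fun u hu => ?_⟩
  have := hR2 u hu
  linarith

theorem fin : ∃ (d : ℕ) (k : ℕ) (δ η : ℝ), 5 ≤ d ∧ Odd d ∧ 0 < δ ∧
    ∀ (V : Type) [Fintype V] [DecidableEq V] (G : SimpleGraph V),
      ∃ R : Finset V, Good k G R ∧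
        ∀ u : V → ℝ, (∀ v, 0 ≤ u v ∧ u v ≤ 1) →
          (1 + δ) * FF η (1 / ((d : ℝ) + 2)) G u ≤ R.card := by
  obtain ⟨d0, h⟩ := fin_all
  obtain ⟨k, δ, hδ, H⟩ := h (2 * (d0 + 2) + 1) (by omega) ⟨d0 + 2, by ring⟩
  exact ⟨2 * (d0 + 2) + 1, k, δ, 1 / 10 ^ 39, by omega, ⟨d0 + 2, by ring⟩, hδ, H⟩

end Pool.Agent.Lib.MP_4d044e_co.TW
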