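import Pool.Agent.Lib.MP_4d044e_co.TW.CUT

/-!
From large sets of bounded tree-width to the statement (blueprint, section 11).
-/

set_option autoImplicit false

namespace Pool.Agent.Lib.MP_4d044e_co.TW

open Finset
open scoped Classical

/-- The potential of the constant weight. -/
theorem FF_const {V : Type} [Fintype V] [DecidableEq V] (η w0 : ℝ) (hw0 : 0 < w0)
    (G : SimpleGraph V) (d : ℕ) (hdw : w0 * (d + 2) = 1) (hd : ∀ v, (nbr G v).card ≤ d) :
    4 * w0 * Fintype.card V ≤ FF η w0 G (fun _ => w0) := by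
  have h1 : ee G (fun _ => w0) univ univ ≤ Fintype.card V * (d * (w0 * w0)) := by
    unfold ee
    calc (∑ u ∈ (univ : Finset V), ∑ v ∈ univ, if G.Adj u v then w0 * w0 else 0)
        ≤ ∑ _u ∈ (univ : Finset V), (d : ℝ) * (w0 * w0) := by
          apply Finset.sum_le_sum
          intro u _
          rw [← Finset.sum_filter, Finset.sum_const, nsmul_eq_mul]
          have h2 : ((univ.filter (fun v => G.Adj u v)).card : ℝ) ≤ d := by
            exact_mod_cast hd u
          gcongr
      _ = Fintype.card V * (d * (w0 * w0)) := by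
          rw [Finset.sum_const, nsmul_eq_mul, Finset.card_univ]
  have h2 : FF η w0 G (fun _ => w0) = Fintype.card V * (8 * w0 - 8 * w0 ^ 2)
      - 4 * ee G (fun _ => w0) univ univ := by
    unfold FF
    congr 1
    beta_reduce
    rw [div_self hw0.ne', Real.log_one, Finset.sum_const, nsmul_eq_mul, Finset.card_univ]
    ring
  rw [h2]
  have h3 : (Fintype.card V : ℝ) * (8 * w0 - 8 * w0 ^ 2) - 4 * (Fintype.card V * (d * (w0 * w0)))
      = 4 * w0 * Fintype.card V * (2 - w0 * (d + 2)) := by ring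
  rw [hdw] at h3
  linarith

/-- WRAP. -/
theorem wrap (d k : ℕ) (δ η : ℝ) (hd : 5 ≤ d) (hδ : 0 < δ)
    (H : ∀ (V : Type) [Fintype V] [DecidableEq V] (G : SimpleGraph V),
      ∃ R : Finset V, Good k G R ∧
        ∀ u : V → ℝ, (∀ v, 0 ≤ u v ∧ u v ≤ 1) →
          (1 + δ) * FF η (1 / ((d : ℝ) + 2)) G u ≤ R.card) :
    ∃ ε : ℝ, 0 ≤ ε ∧ ε < ((d : ℝ) - 2) / ((d : ℝ) + 2) ∧ ∃ C : ℕ, ∀ (n : ℕ)
      (G : SimpleGraph (Fin n)), (∀ v : Fin n, (G.neighborSet v).ncard ≤ d) →
        ∃ X : Finset (Fin n), (X.card : ℝ) ≤ ε * (n : ℝ) ∧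
          ∀ c : (G.induce ((↑X : Set (Fin n))ᶜ)).ConnectedComponent, c.supp.ncard ≤ C := by
  have hd5 : (5 : ℝ) ≤ d := by exact_mod_cast hd
  have hdp : (0 : ℝ) < (d : ℝ) + 2 := by linarith
  set w0 : ℝ := 1 / ((d : ℝ) + 2) with hw0
  have hw0p : 0 < w0 := by positivity
  have hdw : w0 * (d + 2) = 1 := by
    rw [hw0]
    field_simp
  have hw01 : w0 ≤ 1 := by
    rw [hw0, div_le_one hdp]
    linarith
  obtain ⟨S, hS⟩ := exists_nat_gt (2 * (1 + δ) * (k + 1) / δ)
  have hSp : (0 : ℝ) < S := lt_of_le_of_lt (by positivity) hS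
  have hS1 : 1 ≤ S := by
    have : 0 < S := by exact_mod_cast hSp
    omega
  rw [div_lt_iff₀ hδ] at hS
  refine ⟨max 0 (1 - (1 + δ / 2) * (4 * w0)), le_max_left _ _, max_lt ?_ ?_, S, fun n G hG => ?_⟩
  · apply div_pos <;> linarith
  · have h1 : ((d : ℝ) - 2) / ((d : ℝ) + 2) = 1 - 4 * w0 := by
      rw [hw0]
      field_simp
      ring
    rw [h1]
    nlinarith [mul_pos hδ hw0p]
  · obtain ⟨R, hR, hRc⟩ := H (Fin n) G
    have hnb : ∀ v, (nbr G v).card ≤ d := by
      intro v
      rw [← Set.ncard_coe_finset]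
      convert hG v using 2
      ext u
      simp [nbr]
    have h1 := hRc (fun _ => w0) (fun _ => ⟨hw0p.le, hw01⟩)
    have h2 := FF_const η w0 hw0p G d hdw hnb
    rw [Fintype.card_fin] at h2
    have h3 : (1 + δ) * (4 * w0 * n) ≤ R.card := by
      refine le_trans ?_ h1
      have : (0 : ℝ) ≤ 1 + δ := by linarith
      gcongr
    obtain ⟨D, hD, hDc, lab, hlab, hcls⟩ := cut hR S hS1
    refine ⟨(R \ D)ᶜ, ?_, fun c => ?_⟩
    · have h4 : (((R \ D)ᶜ).card : ℝ) = n - (R.card - D.card) := by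
        rw [Finset.card_compl, Fintype.card_fin, Nat.cast_sub, Finset.card_sdiff_of_subset hD,
          Nat.cast_sub (Finset.card_le_card hD)]
        refine (Finset.card_le_univ _).trans (by simp)
      have h5 : (S : ℝ) * D.card ≤ (k + 1) * R.card := by exact_mod_cast hDc
      have h6 : (D.card : ℝ) * (2 * (1 + δ)) ≤ δ * R.card := by
        have h7 : (D.card : ℝ) * (2 * (1 + δ)) * (k + 1) * S ≤ δ * R.card * (k + 1) * S := by
          calc (D.card : ℝ) * (2 * (1 + δ)) * (k + 1) * S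
              = (2 * (1 + δ) * (k + 1)) * (S * D.card) := by ring
            _ ≤ (2 * (1 + δ) * (k + 1)) * ((k + 1) * R.card) := by gcongr
            _ = (2 * (1 + δ) * (k + 1)) * (R.card * (k + 1)) := by ring
            _ ≤ (S * δ) * (R.card * (k + 1)) := by gcongr
            _ = δ * R.card * (k + 1) * S := by ring
        have h8 : (0 : ℝ) < (k + 1) * S := by positivity
        rw [mul_assoc _ _ (S : ℝ), mul_assoc (δ * R.card : ℝ) _ (S : ℝ)] at h7
        exact le_of_mul_le_mul_right h7 h8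
      refine le_trans ?_ (mul_le_mul_of_nonneg_right (le_max_right _ _) (Nat.cast_nonneg n))
      rw [h4]
      have h9 : (1 + δ) * ((1 + δ / 2) * (4 * w0) * n) ≤ (1 + δ) * (R.card - D.card) := by
        have h10 : (1 + δ / 2) * ((1 + δ) * (4 * w0 * n)) ≤ (1 + δ / 2) * R.card := by gcongr
        nlinarith
      have h11 := le_of_mul_le_mul_left h9 (by linarith : (0 : ℝ) < 1 + δ)
      linarith
    · have hset : ∀ x : Fin n, x ∈ ((↑((R \ D)ᶜ) : Set (Fin n))ᶜ) ↔ x ∈ R \ D := by
        intro x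
        simp
      obtain ⟨v0, rfl⟩ := c.exists_rep
      have key : ∀ u w : ↥((↑((R \ D)ᶜ) : Set (Fin n))ᶜ),
          (G.induce ((↑((R \ D)ᶜ) : Set (Fin n))ᶜ)).Walk u w → lab u.1 = lab w.1 := by
        intro u w p
        induction p with
        | nil => rfl
        | cons hadj p ih =>
          rename_i a b c'
          rw [← ih]
          exact hlab a.1 ((hset _).1 a.2) b.1 ((hset _).1 b.2) hadj
      have h1 : (Subtype.val '' (SimpleGraph.ConnectedComponent.supp
          ((G.induce ((↑((R \ D)ᶜ) : Set (Fin n))ᶜ)).connectedComponentMk v0))) ⊆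
          (↑((R \ D).filter (fun u => lab u = lab v0.1)) : Set (Fin n)) := by
        rintro _ ⟨w, hw, rfl⟩
        have h2 := SimpleGraph.ConnectedComponent.exact ((SimpleGraph.ConnectedComponent.mem_supp_iff
          _ _).1 hw)
        obtain ⟨p⟩ := h2
        rw [Finset.mem_coe, Finset.mem_filter]
        exact ⟨(hset _).1 w.2, key _ _ p⟩
      have h2 := Set.ncard_le_ncard h1 (Finset.finite_toSet _)
      rw [Set.ncard_image_of_injective _ Subtype.val_injective, Set.ncard_coe_finset] at h2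
      exact h2.trans (hcls _)

end Pool.Agent.Lib.MP_4d044e_co.TW
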